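import Pool.Agent.Lib.MP_28b8de_an.D.DFlow

/-!
MP_28b8de_an, module DBox.

Flow boxes.
PROOF.  X := ℝ × V, v (t,x) := (0, G (t,x)), analytic at (t₀,x₀); Φ from flow_an.  Θ (t,(s,ξ)) := (Φ (ξ, (t, x₀ + A (s,0)))).2.  The first component of Φ (ξ,(t,x)) is t for (ξ,(t,x)) near (0,(t₀,x₀)): it is t for ξ = 0 and its
derivative in ξ is 0 (flow_an; work on a ball, segments in ξ).  So fderiv Θ w (0,(0,1)) = (fderiv Φ (..) (1,0)).2 = (v (Φ ..)).2 = G (w.1, Θ w) near (t₀,0) (chain rule: the derivative of w ↦ (ξ,(t,x₀ + A (s,0))) in direction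
(0,(0,1)) is (1,0)).  Θ (t,(s,0)) = x₀ + A (s,0) near, so Θ (t₀,0) = x₀ and the derivative at (t₀,0) in direction (0,(s,0)) is A (s,0); in direction (0,(0,ξ)) it is ξ G (t₀,x₀) = A (0,ξ).
-/

set_option linter.unusedSectionVars false

namespace Pool.Agent.Lib.MP_28b8de_an.DD

open Filter Topology Set MeasureTheory
open Pool.Agent.Lib.MP_28b8de_an.PT (Adm Perf)
open Pool.Agent.Lib.MP_28b8de_an.TT (Env Sol Jn Tr SmAt Goal W dx Dn V3 FF GG)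

variable {V : Type*} [NormedAddCommGroup V] [NormedSpace ℝ V] [FiniteDimensional ℝ V]

private theorem DBox_fst {G : ℝ × V → V} {t₀ : ℝ} {x₀ : V} {Φ : ℝ × (ℝ × V) → ℝ × V}
    (ha : AnalyticAt ℝ Φ (0, (t₀, x₀))) (h0 : ∀ᶠ x in 𝓝 (t₀, x₀), Φ (0, x) = x)
    (h1 : ∀ᶠ p in 𝓝 ((0 : ℝ), (t₀, x₀)), fderiv ℝ Φ p (1, 0) = ((0 : ℝ), G (Φ p))) :
    ∀ᶠ p in 𝓝 ((0 : ℝ), (t₀, x₀)), (Φ p).1 = p.2.1 := by
  have h2 : ∀ᶠ p in 𝓝 ((0 : ℝ), (t₀, x₀)), AnalyticAt ℝ Φ p ∧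
      fderiv ℝ Φ p (1, 0) = ((0 : ℝ), G (Φ p)) := ha.eventually_analyticAt.and h1
  rw [nhds_prod_eq] at h2
  obtain ⟨P, hP, Q, hQ, hPQ⟩ := eventually_prod_iff.1 h2
  obtain ⟨r, hr, hr2⟩ := Metric.eventually_nhds_iff_ball.1 hP
  have h3 : ∀ᶠ p in 𝓝 ((0 : ℝ), (t₀, x₀)), (p.1 ∈ Metric.ball (0 : ℝ) r) ∧ (Q p.2 ∧ Φ (0, p.2) = p.2) := by
    rw [nhds_prod_eq]
    have h4 : ∀ᶠ s in 𝓝 (0 : ℝ), s ∈ Metric.ball (0 : ℝ) r := Metric.ball_mem_nhds (0 : ℝ) hr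
    exact h4.prod_mk (hQ.and h0)
  filter_upwards [h3] with p hp
  obtain ⟨hp1, hp2, hp3⟩ := hp
  have h4 : ∀ s ∈ Metric.ball (0 : ℝ) r, HasDerivAt (fun s => (Φ (s, p.2)).1) 0 s := by
    intro s hs
    obtain ⟨h5, h6⟩ := hPQ (hr2 s hs) hp2
    have h7 : HasDerivAt (fun s : ℝ => (s, p.2)) ((1 : ℝ), (0 : ℝ × V)) s :=
      (hasDerivAt_id s).prodMk (hasDerivAt_const s p.2)
    have h8 : HasDerivAt (fun s : ℝ => Φ (s, p.2)) (fderiv ℝ Φ (s, p.2) ((1 : ℝ), (0 : ℝ × V))) s :=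
      HasFDerivAt.comp_hasDerivAt s h5.differentiableAt.hasFDerivAt h7
    have h9 := (ContinuousLinearMap.fst ℝ ℝ V).hasFDerivAt.comp_hasDerivAt s h8
    rw [h6] at h9
    exact h9
  have h5 : (fun s => (Φ (s, p.2)).1) p.1 = (fun s => (Φ (s, p.2)).1) 0 := by
    refine IsOpen.is_const_of_deriv_eq_zero (f := fun s => (Φ (s, p.2)).1) Metric.isOpen_ball
      (convex_ball (0 : ℝ) r).isPreconnected (fun s hs => ?_) (fun s hs => ?_) hp1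
      (Metric.mem_ball_self hr)
    · exact (h4 s hs).differentiableAt.differentiableWithinAt
    · exact (h4 s hs).deriv
  have h6 : (Φ (p.1, p.2)).1 = (Φ (0, p.2)).1 := h5
  rw [hp3] at h6
  exact h6

theorem box {S : Type*} [NormedAddCommGroup S] [NormedSpace ℝ S] [FiniteDimensional ℝ S]
    {G : ℝ × V → V} {t₀ : ℝ} {x₀ : V} (hG : AnalyticAt ℝ G (t₀, x₀)) (A : (S × ℝ) ≃L[ℝ] V)
    (hA : A (0, 1) = G (t₀, x₀)) :
    ∃ Θ : ℝ × (S × ℝ) → V, AnalyticAt ℝ Θ (t₀, 0) ∧ Θ (t₀, 0) = x₀ ∧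
      (∀ᶠ w in 𝓝 ((t₀, 0) : ℝ × (S × ℝ)), fderiv ℝ Θ w (0, (0, 1)) = G (w.1, Θ w)) ∧
      (fderiv ℝ Θ (t₀, 0)).comp (ContinuousLinearMap.inr ℝ ℝ (S × ℝ)) = (A : (S × ℝ) →L[ℝ] V) := by
  have hcV : CompleteSpace V := FiniteDimensional.complete ℝ V
  have hv : AnalyticAt ℝ (fun z : ℝ × V => ((0 : ℝ), G z)) (t₀, x₀) := analyticAt_const.prod hG
  obtain ⟨Φ, hΦa, hΦ0, hΦ1⟩ := flow_an hv
  have hfst := DBox_fst hΦa hΦ0 hΦ1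
  obtain ⟨L, hL⟩ : ∃ L : (ℝ × (S × ℝ)) →L[ℝ] (ℝ × (ℝ × V)), L =
      ((ContinuousLinearMap.snd ℝ S ℝ).comp (ContinuousLinearMap.snd ℝ ℝ (S × ℝ))).prod
        ((ContinuousLinearMap.fst ℝ ℝ (S × ℝ)).prod
          ((A : (S × ℝ) →L[ℝ] V).comp ((ContinuousLinearMap.inl ℝ S ℝ).comp
            ((ContinuousLinearMap.fst ℝ S ℝ).comp (ContinuousLinearMap.snd ℝ ℝ (S × ℝ)))))) := ⟨_, rfl⟩
  have hLa : ∀ w : ℝ × (S × ℝ), L w = (w.2.2, (w.1, A (w.2.1, 0))) := fun w => by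
    rw [hL]
    rfl
  obtain ⟨j, hj⟩ : ∃ j : ℝ × (S × ℝ) → ℝ × (ℝ × V), j = fun w => ((0 : ℝ), ((0 : ℝ), x₀)) + L w := ⟨_, rfl⟩
  have hjw : ∀ w : ℝ × (S × ℝ), j w = (w.2.2, (w.1, x₀ + A (w.2.1, 0))) := fun w => by
    rw [hj]
    show ((0 : ℝ), ((0 : ℝ), x₀)) + L w = _
    rw [hLa, Prod.mk_add_mk, Prod.mk_add_mk, zero_add, zero_add]
  have hjd : ∀ w, HasFDerivAt j L w := fun w => by
    rw [hj]
    exact L.hasFDerivAt.const_add _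
  have hj0 : j (t₀, 0) = ((0 : ℝ), (t₀, x₀)) := by
    rw [hjw]
    show ((0 : ℝ), (t₀, x₀ + A ((0 : S), (0 : ℝ)))) = _
    have h1 : A ((0 : S), (0 : ℝ)) = 0 := A.map_zero
    rw [h1, add_zero]
  have hja : AnalyticAt ℝ j (t₀, 0) := by
    rw [hj]
    exact analyticAt_const.add (L.analyticAt _)
  have hjc : Tendsto j (𝓝 (t₀, 0)) (𝓝 ((0 : ℝ), (t₀, x₀))) := by
    rw [← hj0]
    exact (hjd (t₀, 0)).continuousAt
  have hΦj : AnalyticAt ℝ (fun w => Φ (j w)) (t₀, 0) := by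
    have h1 : AnalyticAt ℝ Φ (j (t₀, 0)) := by
      rw [hj0]
      exact hΦa
    exact AnalyticAt.comp (f := j) h1 hja
  have hda : ∀ᶠ w in 𝓝 ((t₀, 0) : ℝ × (S × ℝ)), AnalyticAt ℝ Φ (j w) :=
    hjc.eventually hΦa.eventually_analyticAt
  have hfd : ∀ w, AnalyticAt ℝ Φ (j w) →
      HasFDerivAt (fun w => (Φ (j w)).2)
        ((ContinuousLinearMap.snd ℝ ℝ V).comp ((fderiv ℝ Φ (j w)).comp L)) w := by
    intro w hw
    have h1 : HasFDerivAt (fun w => Φ (j w)) ((fderiv ℝ Φ (j w)).comp L) w :=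
      HasFDerivAt.comp w hw.differentiableAt.hasFDerivAt (hjd w)
    exact (ContinuousLinearMap.snd ℝ ℝ V).hasFDerivAt.comp w h1
  refine ⟨fun w => (Φ (j w)).2, ?_, ?_, ?_, ?_⟩
  · exact AnalyticAt.comp (f := fun w => Φ (j w)) analyticAt_snd hΦj
  · show (Φ (j (t₀, 0))).2 = x₀
    rw [hj0, hΦ0.self_of_nhds]
  · filter_upwards [hda, hjc.eventually hΦ1, hjc.eventually hfst] with w h1 h2 h3
    rw [(hfd w h1).fderiv]
    show (fderiv ℝ Φ (j w) (L (0, ((0 : S), (1 : ℝ))))).2 = G (w.1, (Φ (j w)).2)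
    have h4 : L (0, ((0 : S), (1 : ℝ))) = ((1 : ℝ), (0 : ℝ × V)) := by
      rw [hLa]
      show ((1 : ℝ), ((0 : ℝ), A ((0 : S), (0 : ℝ)))) = _
      have h5 : A ((0 : S), (0 : ℝ)) = 0 := A.map_zero
      rw [h5]
      rfl
    rw [h4, h2]
    show G (Φ (j w)) = G (w.1, (Φ (j w)).2)
    have h5 : (j w).2.1 = w.1 := by rw [hjw]
    rw [← h5, ← h3]
  · have h1 : AnalyticAt ℝ Φ (j (t₀, 0)) := by
      rw [hj0]
      exact hΦa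
    rw [(hfd _ h1).fderiv, hj0]
    have h2 : (fderiv ℝ Φ ((0 : ℝ), (t₀, x₀))).comp (ContinuousLinearMap.inr ℝ ℝ (ℝ × V)) =
        ContinuousLinearMap.id ℝ (ℝ × V) := by
      have h3 : HasFDerivAt (fun x : ℝ × V => Φ ((0 : ℝ), x))
          ((fderiv ℝ Φ ((0 : ℝ), (t₀, x₀))).comp (ContinuousLinearMap.inr ℝ ℝ (ℝ × V))) (t₀, x₀) := by
        have h4 : HasFDerivAt (fun x : ℝ × V => ((0 : ℝ), x)) (ContinuousLinearMap.inr ℝ ℝ (ℝ × V))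
            (t₀, x₀) := hasFDerivAt_prodMk_right _ _
        exact HasFDerivAt.comp (g := Φ) (t₀, x₀) hΦa.differentiableAt.hasFDerivAt h4
      have h4 : HasFDerivAt (fun x : ℝ × V => Φ ((0 : ℝ), x)) (ContinuousLinearMap.id ℝ (ℝ × V))
          (t₀, x₀) := (hasFDerivAt_id _).congr_of_eventuallyEq hΦ0
      exact h3.unique h4
    refine ContinuousLinearMap.ext fun y => ?_
    obtain ⟨s, ξ⟩ := y
    show (fderiv ℝ Φ ((0 : ℝ), (t₀, x₀)) (L ((0 : ℝ), (s, ξ)))).2 = A (s, ξ)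
    have h5 : L ((0 : ℝ), (s, ξ)) = ξ • ((1 : ℝ), (0 : ℝ × V)) +
        (ContinuousLinearMap.inr ℝ ℝ (ℝ × V)) ((0 : ℝ), A (s, 0)) := by
      rw [hLa, ContinuousLinearMap.inr_apply, Prod.smul_mk, smul_zero, Prod.mk_add_mk, zero_add,
        add_zero, smul_eq_mul, mul_one]
    have h6 := congrArg (fun M : (ℝ × V) →L[ℝ] (ℝ × V) => M ((0 : ℝ), A (s, 0))) h2
    have h7 : fderiv ℝ Φ ((0 : ℝ), (t₀, x₀)) ((ContinuousLinearMap.inr ℝ ℝ (ℝ × V)) ((0 : ℝ), A (s, 0))) =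
        ((0 : ℝ), A (s, 0)) := h6
    have h8 : fderiv ℝ Φ ((0 : ℝ), (t₀, x₀)) ((1 : ℝ), (0 : ℝ × V)) = ((0 : ℝ), G (t₀, x₀)) := by
      rw [hΦ1.self_of_nhds, hΦ0.self_of_nhds]
    rw [h5, map_add, map_smul, h7, h8]
    show ξ • G (t₀, x₀) + A (s, 0) = A (s, ξ)
    rw [← hA, ← map_smul, ← map_add]
    congr 1
    rw [Prod.smul_mk, smul_zero, Prod.mk_add_mk, zero_add, add_zero, smul_eq_mul, mul_one]

end Pool.Agent.Lib.MP_28b8de_an.DD
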