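import Pool.Agent.Lib.MP_28b8de_an.D.DDefs

/-!
MP_28b8de_an, module DBr.

Brackets of related fields are related.
PROOFS.  br_rel: near w everything is analytic.  Differentiate h1 in the direction (β, b w'): D²Θ ((β,b),(α,a)) + fderiv Θ w' (0, fderiv a w' (β,b)) = fderiv A (w'.1, Θ w') (β, fderiv Θ w' (β,b)) = fderiv A (..) (β, B (..)) by h2;
differentiate h2 in the direction (α, a w'): D²Θ ((α,a),(β,b)) + fderiv Θ w' (0, fderiv b w' (α,a)) = fderiv B (..) (α, A (..)).  Subtract; second derivatives are symmetric (`ContDiffAt.isSymmSndFDerivAt` or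
`second_derivative_symmetric`).  Here the derivative of w' ↦ (α, a w') is (0, fderiv a w').
W_eq: W F G z = fderiv G z (1, F z) - fderiv F z (0, G z) (linearity).  WW_eq: unfold.
ch_dep: by br_rel with (1,Fp),(0,Gp): fderiv Θ w (0, W Fp Gp w) = W F G (w.1, Θ w) near w₀, and W Fp Gp, W F G are analytic there; again with (0,Gp),(0,W Fp Gp): fderiv Θ w (0, WW Fp Gp w) = WW F G (w.1, Θ w).
If Gp w, W Fp Gp w, WW Fp Gp w were independent then, p ↦ fderiv Θ w (0,p) being injective for w near w₀ (differentiate ri: fderiv Ξ (w.1, Θ w) (0, fderiv Θ w (0,p)) = p), G, W F G, WW F G at (w.1, Θ w) would be independent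
(`LinearIndependent.map'`).
-/

set_option linter.unusedSectionVars false

namespace Pool.Agent.Lib.MP_28b8de_an.DD

open Filter Topology Set MeasureTheory
open Pool.Agent.Lib.MP_28b8de_an.PT (Adm Perf)
open Pool.Agent.Lib.MP_28b8de_an.TT (Env Sol Jn Tr SmAt Goal W dx Dn V3 FF GG)

variable {V P : Type*} [NormedAddCommGroup V] [NormedSpace ℝ V] [FiniteDimensional ℝ V]
  [NormedAddCommGroup P] [NormedSpace ℝ P] [FiniteDimensional ℝ P]

theorem W_eq (F G : ℝ × V → V) (z : ℝ × V) : W F G z = Br 1 F 0 G z := by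
  unfold W Br dx
  rw [ContinuousLinearMap.comp_apply, ContinuousLinearMap.comp_apply,
    ContinuousLinearMap.inr_apply, ContinuousLinearMap.inr_apply, ← map_add]
  congr 2
  rw [Prod.mk_add_mk, add_zero, zero_add]

theorem WW_eq (F G : ℝ × V → V) (z : ℝ × V) : WW F G z = Br 0 G 0 (W F G) z := by
  unfold WW Br dx
  rw [ContinuousLinearMap.comp_apply, ContinuousLinearMap.comp_apply,
    ContinuousLinearMap.inr_apply, ContinuousLinearMap.inr_apply]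

private theorem DBr_gam {Θ : ℝ × P → V} {w : ℝ × P} (hΘ : AnalyticAt ℝ Θ w) :
    HasFDerivAt (fun w' : ℝ × P => (w'.1, Θ w'))
      ((ContinuousLinearMap.fst ℝ ℝ P).prod (fderiv ℝ Θ w)) w :=
  hasFDerivAt_fst.prodMk hΘ.differentiableAt.hasFDerivAt

private theorem DBr_pt {Θ : ℝ × P → V} {w : ℝ × P} (hΘ : AnalyticAt ℝ Θ w) {α : ℝ} {a : ℝ × P → P}
    {A : ℝ × V → V} (ha : AnalyticAt ℝ a w) (hA : AnalyticAt ℝ A (w.1, Θ w))
    (h1 : ∀ᶠ w' in 𝓝 w, fderiv ℝ Θ w' (α, a w') = A (w'.1, Θ w')) (v : ℝ × P) :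
    fderiv ℝ (fderiv ℝ Θ) w v (α, a w) + fderiv ℝ Θ w (0, fderiv ℝ a w v) =
      fderiv ℝ A (w.1, Θ w) (v.1, fderiv ℝ Θ w v) := by
  have hc : HasFDerivAt (fderiv ℝ Θ) (fderiv ℝ (fderiv ℝ Θ) w) w :=
    hΘ.fderiv.differentiableAt.hasFDerivAt
  have hu : HasFDerivAt (fun w' : ℝ × P => ((α, a w') : ℝ × P))
      ((0 : ℝ × P →L[ℝ] ℝ).prod (fderiv ℝ a w)) w :=
    (hasFDerivAt_const α w).prodMk ha.differentiableAt.hasFDerivAt
  have hL := hc.clm_apply hu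
  have hR : HasFDerivAt (fun w' : ℝ × P => A (w'.1, Θ w'))
      ((fderiv ℝ A (w.1, Θ w)).comp
        ((ContinuousLinearMap.fst ℝ ℝ P).prod (fderiv ℝ Θ w))) w :=
    HasFDerivAt.comp w hA.differentiableAt.hasFDerivAt (DBr_gam hΘ)
  have hE : (fun w' : ℝ × P => A (w'.1, Θ w')) =ᶠ[𝓝 w]
      fun w' => fderiv ℝ Θ w' (α, a w') := h1.mono fun _ h => h.symm
  have hU := hL.unique (hR.congr_of_eventuallyEq hE.symm)
  have hv := congrArg (fun T : ℝ × P →L[ℝ] V => T v) hU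
  simp only [add_apply, ContinuousLinearMap.comp_apply,
    ContinuousLinearMap.flip_apply, ContinuousLinearMap.prod_apply,
    zero_apply, ContinuousLinearMap.coe_fst'] at hv
  rw [← hv, add_comm]

private theorem DBr_an {a b : ℝ × V → V} {z : ℝ × V} (α β : ℝ) (ha : AnalyticAt ℝ a z)
    (hb : AnalyticAt ℝ b z) : AnalyticAt ℝ (Br α a β b) z := by
  unfold Br
  have h1 : AnalyticAt ℝ (fun z => ((α, a z) : ℝ × V)) z := analyticAt_const.prod ha
  have h2 : AnalyticAt ℝ (fun z => ((β, b z) : ℝ × V)) z := analyticAt_const.prod hb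
  have k : ∀ (f : ℝ × V → V) (g : ℝ × V → ℝ × V), AnalyticAt ℝ f z → AnalyticAt ℝ g z →
      AnalyticAt ℝ (fun z => fderiv ℝ f z (g z)) z := by
    intro f g hf hg
    have h3 := (ContinuousLinearMap.id ℝ ((ℝ × V) →L[ℝ] V)).analyticAt_bilinear
      (fderiv ℝ f z, g z)
    have h4 : AnalyticAt ℝ (fderiv ℝ f) z := hf.fderiv
    exact AnalyticAt.comp (f := fun z => (fderiv ℝ f z, g z)) h3 (h4.prod hg)
  exact (k b _ hb h1).sub (k a _ ha h2)

theorem br_rel {Θ : ℝ × P → V} {w : ℝ × P} (hΘ : AnalyticAt ℝ Θ w) {α β : ℝ} {a b : ℝ × P → P}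
    {A B : ℝ × V → V} (ha : AnalyticAt ℝ a w) (hb : AnalyticAt ℝ b w)
    (hA : AnalyticAt ℝ A (w.1, Θ w)) (hB : AnalyticAt ℝ B (w.1, Θ w))
    (h1 : ∀ᶠ w' in 𝓝 w, fderiv ℝ Θ w' (α, a w') = A (w'.1, Θ w'))
    (h2 : ∀ᶠ w' in 𝓝 w, fderiv ℝ Θ w' (β, b w') = B (w'.1, Θ w')) :
    ∀ᶠ w' in 𝓝 w, fderiv ℝ Θ w' (0, Br α a β b w') = Br α A β B (w'.1, Θ w') := by
  have hcont : ContinuousAt (fun w' : ℝ × P => (w'.1, Θ w')) w :=
    (DBr_gam hΘ).continuousAt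
  filter_upwards [hΘ.eventually_analyticAt, ha.eventually_analyticAt, hb.eventually_analyticAt,
    hcont.eventually hA.eventually_analyticAt, hcont.eventually hB.eventually_analyticAt,
    h1.eventually_nhds, h2.eventually_nhds] with w' hΘ' ha' hb' hA' hB' h1' h2'
  have e1 := DBr_pt hΘ' ha' hA' h1' (β, b w')
  have e2 := DBr_pt hΘ' hb' hB' h2' (α, a w')
  have q1 := h1'.self_of_nhds
  have q2 := h2'.self_of_nhds
  have hs : fderiv ℝ (fderiv ℝ Θ) w' (β, b w') (α, a w') =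
      fderiv ℝ (fderiv ℝ Θ) w' (α, a w') (β, b w') := by
    have hsym : IsSymmSndFDerivAt ℝ Θ w' :=
      (hΘ'.contDiffAt (n := (2 : ℕ))).isSymmSndFDerivAt (by simp)
    exact hsym.eq _ _
  unfold Br
  rw [← q1, ← q2]
  dsimp only at e1 e2
  rw [← e1, ← e2, hs]
  have hz : ((0 : ℝ), fderiv ℝ b w' (α, a w') - fderiv ℝ a w' (β, b w')) =
      ((0 : ℝ), fderiv ℝ b w' (α, a w')) - ((0 : ℝ), fderiv ℝ a w' (β, b w')) := by
    rw [Prod.mk_sub_mk, sub_zero]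
  rw [hz, map_sub]
  abel

theorem ch_dep {F G : ℝ × V → V} {Fp Gp : ℝ × P → P} {Θ : ℝ × P → V} {Ξ : ℝ × V → P} {w₀ : ℝ × P}
    (h : Ch F G Fp Gp Θ Ξ w₀) (hF : AnalyticAt ℝ F (w₀.1, Θ w₀)) (hG : AnalyticAt ℝ G (w₀.1, Θ w₀))
    (hd : Dep F G (w₀.1, Θ w₀)) : Dep Fp Gp w₀ := by
  have eP : W Fp Gp = Br 1 Fp 0 Gp := funext (W_eq Fp Gp)
  have eV : W F G = Br 1 F 0 G := funext (W_eq F G)
  have aP : AnalyticAt ℝ (W Fp Gp) w₀ := by rw [eP]; exact DBr_an 1 0 h.Fa h.Ga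
  have aV : AnalyticAt ℝ (W F G) (w₀.1, Θ w₀) := by rw [eV]; exact DBr_an 1 0 hF hG
  have R1 : ∀ᶠ w in 𝓝 w₀, fderiv ℝ Θ w (0, W Fp Gp w) = W F G (w.1, Θ w) := by
    rw [eP, eV]
    exact br_rel h.Θa h.Fa h.Ga hF hG h.F1 h.G1
  have R2 : ∀ᶠ w in 𝓝 w₀, fderiv ℝ Θ w (0, WW Fp Gp w) = WW F G (w.1, Θ w) := by
    have e2 : WW Fp Gp = Br 0 Gp 0 (W Fp Gp) := funext (WW_eq Fp Gp)
    have e3 : WW F G = Br 0 G 0 (W F G) := funext (WW_eq F G)
    rw [e2, e3]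
    exact br_rel h.Θa h.Ga aP hG aV h.G1 R1
  have hcont : ContinuousAt (fun w' : ℝ × P => (w'.1, Θ w')) w₀ :=
    (DBr_gam h.Θa).continuousAt
  have hd' := hcont.eventually hd
  have hX := hcont.eventually h.Ξa.eventually_analyticAt
  unfold Dep
  filter_upwards [hd', R1, R2, h.G1, h.Θa.eventually_analyticAt, hX, h.ri.eventually_nhds]
    with w hdw r1 r2 g1 hΘw hΞw hri
  intro hl
  apply hdw
  have hinj : Function.Injective
      ((((fderiv ℝ Θ w).comp (ContinuousLinearMap.inr ℝ ℝ P) : P →L[ℝ] V)) : P →ₗ[ℝ] V) := by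
    have hcomp : HasFDerivAt (fun w' : ℝ × P => Ξ (w'.1, Θ w'))
        ((fderiv ℝ Ξ (w.1, Θ w)).comp
          ((ContinuousLinearMap.fst ℝ ℝ P).prod (fderiv ℝ Θ w))) w :=
      HasFDerivAt.comp w hΞw.differentiableAt.hasFDerivAt (DBr_gam hΘw)
    have hsnd : HasFDerivAt (fun w' : ℝ × P => Ξ (w'.1, Θ w'))
        (ContinuousLinearMap.snd ℝ ℝ P) w :=
      hasFDerivAt_snd.congr_of_eventuallyEq hri
    have hU := hcomp.unique hsnd
    intro p q hpq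
    have hp := congrArg (fun T : ℝ × P →L[ℝ] P => T ((0 : ℝ), p)) hU
    have hq := congrArg (fun T : ℝ × P →L[ℝ] P => T ((0 : ℝ), q)) hU
    have hpq' : fderiv ℝ Θ w ((0 : ℝ), p) = fderiv ℝ Θ w ((0 : ℝ), q) := hpq
    have hp' : fderiv ℝ Ξ (w.1, Θ w) ((0 : ℝ), fderiv ℝ Θ w ((0 : ℝ), p)) = p := hp
    have hq' : fderiv ℝ Ξ (w.1, Θ w) ((0 : ℝ), fderiv ℝ Θ w ((0 : ℝ), q)) = q := hq
    rw [← hp', hpq', hq']
  have hm := hl.map' _ (LinearMap.ker_eq_bot.2 hinj)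
  have hv : ((((fderiv ℝ Θ w).comp (ContinuousLinearMap.inr ℝ ℝ P) : P →L[ℝ] V)) : P →ₗ[ℝ] V) ∘
      ![Gp w, W Fp Gp w, WW Fp Gp w] =
      ![G (w.1, Θ w), W F G (w.1, Θ w), WW F G (w.1, Θ w)] := by
    funext i
    fin_cases i
    · exact g1
    · exact r1
    · exact r2
  rw [hv] at hm
  exact hm

end Pool.Agent.Lib.MP_28b8de_an.DD
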