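import Pool.Agent.Lib.MP_28b8de_an.D.DDefs

/-!
MP_28b8de_an, module DLt.

Elementary facts on local trajectories.
PROOFS.  ltraj_cont, ltraj_ev: shrink the interval.  ltraj_tr: sol_sub.  ltraj_hd: where the integrand is continuous the fundamental theorem gives the derivative
(used for components on which u does not act): if l is a continuous linear map with l (G z) = 0 for all z near (t₀, x t₀) and F is continuous near (t₀, x t₀) then t ↦ l (x t) has derivative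
l (F (t, x t)) for t near t₀ (apply l to the integral identity).
-/

set_option linter.unusedSectionVars false

namespace Pool.Agent.Lib.MP_28b8de_an.DD

open Filter Topology Set MeasureTheory
open Pool.Agent.Lib.MP_28b8de_an.PT (Adm Perf)
open Pool.Agent.Lib.MP_28b8de_an.TT (Env Sol Jn Tr SmAt Goal W dx Dn V3 FF GG)

variable {V P : Type*} [NormedAddCommGroup V] [NormedSpace ℝ V] [FiniteDimensional ℝ V]
  [NormedAddCommGroup P] [NormedSpace ℝ P] [FiniteDimensional ℝ P]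

theorem ltraj_cont {F G : ℝ × V → V} {u : ℝ → ℝ} {x : ℝ → V} {t₀ : ℝ} (hx : LTraj F G u x t₀) :
    ∀ᶠ t in 𝓝 t₀, ContinuousAt x t := by
  obtain ⟨ε, hε, hc, -⟩ := hx
  filter_upwards [Ioo_mem_nhds (show t₀ - ε < t₀ by linarith) (show t₀ < t₀ + ε by linarith)]
    with t ht
  exact hc.continuousAt (Ioo_mem_nhds ht.1 ht.2)

theorem ltraj_ev {F G : ℝ × V → V} {u : ℝ → ℝ} {x : ℝ → V} {t₀ : ℝ} (hx : LTraj F G u x t₀) :
    ∀ᶠ t in 𝓝 t₀, LTraj F G u x t := by
  obtain ⟨ε, hε, hc, he⟩ := hx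
  filter_upwards [Ioo_mem_nhds (show t₀ - ε < t₀ by linarith) (show t₀ < t₀ + ε by linarith)]
    with t ht
  have hsub : Ioo (t - min (t - (t₀ - ε)) (t₀ + ε - t)) (t + min (t - (t₀ - ε)) (t₀ + ε - t)) ⊆
      Ioo (t₀ - ε) (t₀ + ε) := by
    intro r hr
    have h1 := min_le_left (t - (t₀ - ε)) (t₀ + ε - t)
    have h2 := min_le_right (t - (t₀ - ε)) (t₀ + ε - t)
    exact ⟨by linarith [hr.1], by linarith [hr.2]⟩
  exact ⟨min (t - (t₀ - ε)) (t₀ + ε - t), lt_min (by linarith [ht.1]) (by linarith [ht.2]),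
    hc.mono hsub, fun s hs r hr => he s (hsub hs) r (hsub hr)⟩

theorem ltraj_tr {F G : ℝ × V → V} {M T : ℝ} {u : ℝ → ℝ} {q : ℝ → V} (h : Tr F G M T u q) {t₀ : ℝ}
    (ht₀ : t₀ ∈ Ioo 0 T) : LTraj F G u q t₀ := by
  have hsub : Ioo (t₀ - min t₀ (T - t₀)) (t₀ + min t₀ (T - t₀)) ⊆ Icc 0 T := by
    intro r hr
    have h1 := min_le_left t₀ (T - t₀)
    have h2 := min_le_right t₀ (T - t₀)
    exact ⟨by linarith [hr.1], by linarith [hr.2]⟩
  exact ⟨min t₀ (T - t₀), lt_min ht₀.1 (by linarith [ht₀.2]), h.sol.cont.mono hsub,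
    fun s hs t ht => TT.sol_sub h.env h.adm h.sol (hsub hs) (hsub ht)⟩

theorem ltraj_hd {E : Type*} [NormedAddCommGroup E] [NormedSpace ℝ E] [CompleteSpace E] {F G : ℝ × V → V}
    {u : ℝ → ℝ} (hu : Adm u) {x : ℝ → V} {t₀ : ℝ} (hx : LTraj F G u x t₀) (l : V →L[ℝ] E)
    (hF : AnalyticAt ℝ F (t₀, x t₀)) (hGa : AnalyticAt ℝ G (t₀, x t₀))
    (hG : ∀ᶠ z in 𝓝 (t₀, x t₀), l (G z) = 0) :
    ∀ᶠ t in 𝓝 t₀, HasDerivAt (fun t => l (x t)) (l (F (t, x t))) t := by
  have : CompleteSpace V := FiniteDimensional.complete ℝ V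
  have hxc : ContinuousAt x t₀ := (ltraj_cont hx).self_of_nhds
  have hpair : Tendsto (fun t => (t, x t)) (𝓝 t₀) (𝓝 (t₀, x t₀)) :=
    (continuousAt_id.prodMk hxc : ContinuousAt (fun t => (t, x t)) t₀)
  have hev : ∀ᶠ t in 𝓝 t₀, ContinuousAt x t ∧ ContinuousAt F (t, x t) ∧
      ContinuousAt G (t, x t) ∧ l (G (t, x t)) = 0 := by
    filter_upwards [ltraj_cont hx, hpair.eventually hF.eventually_analyticAt,
      hpair.eventually hGa.eventually_analyticAt, hpair.eventually hG] with t h1 h2 h3 h4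
    exact ⟨h1, h2.continuousAt, h3.continuousAt, h4⟩
  obtain ⟨ε, hε, hc, he⟩ := hx
  obtain ⟨η, hη, hJ⟩ := Metric.eventually_nhds_iff_ball.1 (hev.and
    (Ioo_mem_nhds (show t₀ - ε < t₀ by linarith) (show t₀ < t₀ + ε by linarith)))
  have hmem : ∀ t ∈ Ioo (t₀ - η) (t₀ + η), t ∈ Metric.ball t₀ η := by
    intro t ht
    rw [Real.ball_eq_Ioo]
    exact ht
  have hpt : ∀ t ∈ Ioo (t₀ - η) (t₀ + η), ContinuousAt (fun t => (t, x t)) t := fun t ht =>
    continuousAt_id.prodMk (hJ t (hmem t ht)).1.1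
  have hFc : ContinuousOn (fun τ => F (τ, x τ)) (Ioo (t₀ - η) (t₀ + η)) := fun t ht =>
    (ContinuousAt.comp (f := fun t => (t, x t)) (hJ t (hmem t ht)).1.2.1
      (hpt t ht)).continuousWithinAt
  have hGc : ContinuousOn (fun τ => G (τ, x τ)) (Ioo (t₀ - η) (t₀ + η)) := fun t ht =>
    (ContinuousAt.comp (f := fun t => (t, x t)) (hJ t (hmem t ht)).1.2.2.1
      (hpt t ht)).continuousWithinAt
  have h0 : t₀ ∈ Ioo (t₀ - η) (t₀ + η) := ⟨by linarith, by linarith⟩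
  have huIcc : ∀ y ∈ Ioo (t₀ - η) (t₀ + η), uIcc t₀ y ⊆ Ioo (t₀ - η) (t₀ + η) := fun y hy =>
    ordConnected_Ioo.uIcc_subset h0 hy
  have hlF : ContinuousOn (fun τ => l (F (τ, x τ))) (Ioo (t₀ - η) (t₀ + η)) :=
    l.continuous.comp_continuousOn hFc
  have hint : ∀ y ∈ Ioo (t₀ - η) (t₀ + η),
      l (x y) = l (x t₀) + ∫ τ in t₀..y, l (F (τ, x τ)) := by
    intro y hy
    have hiF : IntervalIntegrable (fun τ => F (τ, x τ)) volume t₀ y :=
      (hFc.mono (huIcc y hy)).intervalIntegrable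
    have hiG : IntervalIntegrable (fun τ => G (τ, x τ)) volume t₀ y :=
      (hGc.mono (huIcc y hy)).intervalIntegrable
    have hiuG : IntervalIntegrable (fun τ => u τ • G (τ, x τ)) volume t₀ y := by
      refine hiG.mono_fun (hu.1.aestronglyMeasurable.smul hiG.aestronglyMeasurable_restrict_uIoc)
        (Eventually.of_forall fun τ => ?_)
      show ‖u τ • G (τ, x τ)‖ ≤ ‖G (τ, x τ)‖
      rw [norm_smul]
      have h1 : ‖u τ‖ ≤ 1 := by simpa using hu.2 τ
      calc ‖u τ‖ * ‖G (τ, x τ)‖ ≤ 1 * ‖G (τ, x τ)‖ :=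
            mul_le_mul_of_nonneg_right h1 (norm_nonneg _)
        _ = ‖G (τ, x τ)‖ := one_mul _
    have h1 := he t₀ (hJ t₀ (hmem t₀ h0)).2 y (hJ y (hmem y hy)).2
    have h2 : l (x y) - l (x t₀) = ∫ τ in t₀..y, l (F (τ, x τ) + u τ • G (τ, x τ)) := by
      rw [← map_sub, h1]
      exact (ContinuousLinearMap.intervalIntegral_comp_comm l (hiF.add hiuG)).symm
    have h3 : ∫ τ in t₀..y, l (F (τ, x τ) + u τ • G (τ, x τ)) =
        ∫ τ in t₀..y, l (F (τ, x τ)) := by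
      refine intervalIntegral.integral_congr fun τ hτ => ?_
      show l (F (τ, x τ) + u τ • G (τ, x τ)) = l (F (τ, x τ))
      rw [map_add, map_smul, (hJ τ (hmem τ (huIcc y hy hτ))).1.2.2.2, smul_zero, add_zero]
    rw [← h3, ← h2]
    abel
  filter_upwards [Ioo_mem_nhds h0.1 h0.2] with t ht
  have hnt : Ioo (t₀ - η) (t₀ + η) ∈ 𝓝 t := Ioo_mem_nhds ht.1 ht.2
  have hd : HasDerivAt (fun y => l (x t₀) + ∫ τ in t₀..y, l (F (τ, x τ))) (l (F (t, x t))) t :=
    (intervalIntegral.integral_hasDerivAt_right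
      ((hlF.mono (huIcc t ht)).intervalIntegrable)
      (hlF.stronglyMeasurableAtFilter isOpen_Ioo t ht)
      (hlF.continuousAt hnt)).const_add _
  refine hd.congr_of_eventuallyEq ?_
  filter_upwards [hnt] with y hy
  exact hint y hy

end Pool.Agent.Lib.MP_28b8de_an.DD
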