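import Pool.Agent.Lib.MP_28b8de_an.D.DZ
import Pool.Agent.Lib.MP_28b8de_an.D.DLt

/-!
MP_28b8de_an, module DCaseB.

Points where the controlled field vanishes on C.
PROOF.  U := a ball about (t₀, x t₀) on which F, G are analytic (hence Lipschitz on a smaller ball).  For t ∈ C near t₀: HasDerivAt x (F (t, x t)) t, because x s - x t = ∫_t^s (F (τ, x τ) + u τ • G (τ, x τ)) dτ, the integrand is within
o(1) of F (t, x t) as τ → t (G (t, x t) = 0, continuity, |u| ≤ 1).  ode_ex: γ with γ t₀ = x t₀, γ' = F (t, γ); choose an interval Ioo b c about t₀ with (t, γ t) ∈ U.  zcurve with H = F, a = G: G (t, γ t) = 0 on Ioo b c.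
So near t₀: x t - γ t = ∫_{t₀}^t (F (τ,x) - F (τ,γ) + u • (G (τ,x) - G (τ,γ))), ‖x - γ‖ ≤ 2K |∫ ‖x - γ‖|: x = γ near t₀ (`TT.zero_near` for the function ‖x - γ‖).  So x is smooth near t₀; LRep by x itself with v = u (δ small: ‖x t - x t₀‖ ≤ κ;
the bad set is empty).
-/

set_option linter.unusedSectionVars false

namespace Pool.Agent.Lib.MP_28b8de_an.DD

open Filter Topology Set MeasureTheory
open Pool.Agent.Lib.MP_28b8de_an.PT (Adm Perf)
open Pool.Agent.Lib.MP_28b8de_an.TT (Env Sol Jn Tr SmAt Goal W dx Dn V3 FF GG)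

variable {V : Type*} [NormedAddCommGroup V] [NormedSpace ℝ V] [FiniteDimensional ℝ V]

/-- an eventual property holds on a symmetric interval -/
private theorem DCaseB_ev {P : ℝ → Prop} {t₀ : ℝ} (h : ∀ᶠ t in 𝓝 t₀, P t) :
    ∃ δ > 0, ∀ t ∈ Ioo (t₀ - δ) (t₀ + δ), P t := by
  obtain ⟨δ, hδ, h1⟩ := Metric.eventually_nhds_iff.1 h
  refine ⟨δ, hδ, fun t ht => h1 ?_⟩
  rw [Real.dist_eq, abs_lt]
  constructor <;> linarith [ht.1, ht.2]

private theorem DCaseB_uI {a b s t : ℝ} (hs : s ∈ Ioo a b) (ht : t ∈ Ioo a b) : uIcc s t ⊆ Ioo a b :=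
  ordConnected_Ioo.uIcc_subset hs ht

theorem caseB {F G : ℝ × V → V} {u : ℝ → ℝ} (hu : Adm u) {x : ℝ → V} {T : ℝ} {C : Set ℝ}
    (hC : Perf T C) {t₀ : ℝ} (ht₀ : t₀ ∈ C) (hF : AnalyticAt ℝ F (t₀, x t₀))
    (hG : AnalyticAt ℝ G (t₀, x t₀)) (hx : LTraj F G u x t₀)
    (h0 : ∀ᶠ t in 𝓝 t₀, t ∈ C → G (t, x t) = 0) : LRep F G x t₀ := by
  have : CompleteSpace V := FiniteDimensional.complete ℝ V
  obtain ⟨γ, hγa, hγ0, hγd⟩ := ode_ex hF
  obtain ⟨K₁, s₁, hs₁, hL₁⟩ := ContDiffAt.exists_lipschitzOnWith (hF.contDiffAt (n := 1))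
  obtain ⟨K₂, s₂, hs₂, hL₂⟩ := ContDiffAt.exists_lipschitzOnWith (hG.contDiffAt (n := 1))
  set U : Set (ℝ × V) := {z | AnalyticAt ℝ F z} ∩ {z | AnalyticAt ℝ G z} with hUdef
  have hU : IsOpen U := (isOpen_analyticAt ℝ F).inter (isOpen_analyticAt ℝ G)
  have hUm : U ∈ 𝓝 (t₀, x t₀) := hU.mem_nhds ⟨hF, hG⟩
  have hN : U ∩ (s₁ ∩ s₂) ∈ 𝓝 (t₀, x t₀) := inter_mem hUm (inter_mem hs₁ hs₂)
  have hxc := ltraj_cont hx
  have hxc0 : ContinuousAt x t₀ := hxc.self_of_nhds
  have hxN : ∀ᶠ t in 𝓝 t₀, (t, x t) ∈ U ∩ (s₁ ∩ s₂) :=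
    (continuousAt_id.prodMk hxc0).eventually_mem hN
  have hγN : ∀ᶠ t in 𝓝 t₀, (t, γ t) ∈ U ∩ (s₁ ∩ s₂) := by
    refine (continuousAt_id.prodMk hγa.continuousAt).eventually_mem ?_
    simpa [hγ0] using hN
  obtain ⟨ε₁, hε₁, -, hxi⟩ := hx
  have hI : ∀ᶠ t in 𝓝 t₀, t ∈ Ioo (t₀ - ε₁) (t₀ + ε₁) :=
    Ioo_mem_nhds (by linarith) (by linarith)
  obtain ⟨δ, hδ, hall⟩ := DCaseB_ev
    (hxc.and (hxN.and (hγN.and (hγd.and (h0.and (hI.and hγa.eventually_analyticAt))))))
  set J : Set ℝ := Ioo (t₀ - δ) (t₀ + δ) with hJ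
  have ht₀J : t₀ ∈ J := ⟨by linarith, by linarith⟩
  have hJo : IsOpen J := isOpen_Ioo
  have hxJ : ContinuousOn x J := fun t ht => (hall t ht).1.continuousWithinAt
  have hγJ : ContinuousOn γ J := fun t ht => (hall t ht).2.2.2.2.2.2.continuousAt.continuousWithinAt
  have hFx : ContinuousOn (fun t => F (t, x t)) J := fun t ht =>
    (ContinuousAt.comp (f := fun t => (t, x t)) (hall t ht).2.1.1.1.continuousAt
      (continuousAt_id.prodMk (hall t ht).1)).continuousWithinAt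
  have hGx : ContinuousOn (fun t => G (t, x t)) J := fun t ht =>
    (ContinuousAt.comp (f := fun t => (t, x t)) (hall t ht).2.1.1.2.continuousAt
      (continuousAt_id.prodMk (hall t ht).1)).continuousWithinAt
  have hFγ : ContinuousOn (fun t => F (t, γ t)) J := fun t ht =>
    (ContinuousAt.comp (f := fun t => (t, γ t)) (hall t ht).2.2.1.1.1.continuousAt
      (continuousAt_id.prodMk (hall t ht).2.2.2.2.2.2.continuousAt)).continuousWithinAt
  -- the derivative of `x` on `C`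
  have hder : ∀ t ∈ C, t ∈ J → HasDerivAt x (F (t, x t)) t := by
    intro t htC htJ
    have hG0 : G (t, x t) = 0 := (hall t htJ).2.2.2.2.1 htC
    have hcG : ContinuousAt (fun τ => u τ • G (τ, x τ)) t := by
      have h1 : Tendsto (fun τ => G (τ, x τ)) (𝓝 t) (𝓝 0) := by
        have := (hGx.continuousAt (hJo.mem_nhds htJ)).tendsto
        rwa [hG0] at this
      have h2 : Tendsto (fun τ => u τ • G (τ, x τ)) (𝓝 t) (𝓝 0) := by
        rw [tendsto_zero_iff_norm_tendsto_zero] at h1 ⊢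
        refine squeeze_zero (fun τ => norm_nonneg _) (fun τ => ?_) h1
        rw [norm_smul]
        exact mul_le_of_le_one_left (norm_nonneg _) (by simpa using hu.2 τ)
      change Tendsto (fun τ => u τ • G (τ, x τ)) (𝓝 t) (𝓝 (u t • G (t, x t)))
      rw [hG0, smul_zero]
      exact h2
    have hcf : ContinuousAt (fun τ => F (τ, x τ) + u τ • G (τ, x τ)) t :=
      (hFx.continuousAt (hJo.mem_nhds htJ)).add hcG
    have hm : StronglyMeasurableAtFilter (fun τ => F (τ, x τ) + u τ • G (τ, x τ)) (𝓝 t) volume :=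
      ⟨J, hJo.mem_nhds htJ, (hFx.aestronglyMeasurable measurableSet_Ioo).add
        (hu.1.aestronglyMeasurable.smul (hGx.aestronglyMeasurable measurableSet_Ioo))⟩
    have h3 := intervalIntegral.integral_hasDerivAt_right
      (a := t) (b := t) (f := fun τ => F (τ, x τ) + u τ • G (τ, x τ)) (by simp) hm hcf
    have h4 : HasDerivAt (fun s => x t + ∫ τ in t..s, (F (τ, x τ) + u τ • G (τ, x τ)))
        (F (t, x t)) t := by
      have := h3.const_add (x t)
      simpa [hG0] using this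
    refine h4.congr_of_eventuallyEq ?_
    filter_upwards [hJo.mem_nhds htJ] with s hs
    have := hxi t (hall t htJ).2.2.2.2.2.1 s (hall s hs).2.2.2.2.2.1
    rw [← this]
    abel
  -- the field `G` vanishes along `γ`
  have hGγ : ∀ t ∈ J, G (t, γ t) = 0 := by
    refine zcurve (E := V) (E' := V) hU (H := F) (a := G) (fun z hz => hz.1) (fun z hz => hz.2) hC ht₀ hδ
      (y := x) ?_ (γ := γ) ht₀J ?_ hγ0
    · intro t htC htd
      have htJ : t ∈ J := by
        rw [abs_lt] at htd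
        exact ⟨by linarith [htd.1], by linarith [htd.2]⟩
      exact ⟨(hall t htJ).2.1.1, hder t htC htJ, (hall t htJ).2.2.2.2.1 htC⟩
    · intro t ht
      exact ⟨(hall t ht).2.2.1.1, (hall t ht).2.2.2.1⟩
  -- `x = γ` near `t₀`
  have hdiff : ∀ t ∈ J, x t - γ t = ∫ τ in t₀..t, ((F (τ, x τ) + u τ • G (τ, x τ)) - F (τ, γ τ)) := by
    intro t ht
    have hsub : uIcc t₀ t ⊆ J := DCaseB_uI ht₀J ht
    have hi2 : IntervalIntegrable (fun τ => F (τ, γ τ)) volume t₀ t :=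
      (hFγ.mono hsub).intervalIntegrable
    have hi3 : IntervalIntegrable (fun τ => F (τ, x τ)) volume t₀ t :=
      (hFx.mono hsub).intervalIntegrable
    have hi4 : IntervalIntegrable (fun τ => u τ • G (τ, x τ)) volume t₀ t := by
      have h5 : IntervalIntegrable (fun τ => G (τ, x τ)) volume t₀ t :=
        (hGx.mono hsub).intervalIntegrable
      rw [intervalIntegrable_iff] at h5 ⊢
      refine Integrable.mono h5 (hu.1.aestronglyMeasurable.smul h5.aestronglyMeasurable)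
        (Eventually.of_forall fun τ => ?_)
      rw [norm_smul]
      exact mul_le_of_le_one_left (norm_nonneg _) (by simpa using hu.2 τ)
    rw [intervalIntegral.integral_sub (hi3.add hi4) hi2]
    rw [← hxi t₀ (hall t₀ ht₀J).2.2.2.2.2.1 t (hall t ht).2.2.2.2.2.1]
    rw [intervalIntegral.integral_eq_sub_of_hasDerivAt (f := γ)
      (fun τ hτ => (hall τ (hsub hτ)).2.2.2.1) hi2, hγ0]
    abel
  have hK : ∀ τ ∈ J, ‖(F (τ, x τ) + u τ • G (τ, x τ)) - F (τ, γ τ)‖ ≤ (K₁ + K₂) * ‖x τ - γ τ‖ := by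
    intro τ hτ
    have h1 : ‖F (τ, x τ) - F (τ, γ τ)‖ ≤ K₁ * ‖x τ - γ τ‖ := by
      have := hL₁.norm_sub_le (hall τ hτ).2.1.2.1 (hall τ hτ).2.2.1.2.1
      simpa [Prod.norm_def] using this
    have h2 : ‖G (τ, x τ) - G (τ, γ τ)‖ ≤ K₂ * ‖x τ - γ τ‖ := by
      have := hL₂.norm_sub_le (hall τ hτ).2.1.2.2 (hall τ hτ).2.2.1.2.2
      simpa [Prod.norm_def] using this
    rw [hGγ τ hτ, sub_zero] at h2
    have h3 : ‖u τ • G (τ, x τ)‖ ≤ K₂ * ‖x τ - γ τ‖ := by
      rw [norm_smul]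
      exact (mul_le_of_le_one_left (norm_nonneg _) (by simpa using hu.2 τ)).trans h2
    calc ‖(F (τ, x τ) + u τ • G (τ, x τ)) - F (τ, γ τ)‖
        = ‖(F (τ, x τ) - F (τ, γ τ)) + u τ • G (τ, x τ)‖ := by
          congr 1
          abel
      _ ≤ ‖F (τ, x τ) - F (τ, γ τ)‖ + ‖u τ • G (τ, x τ)‖ := norm_add_le _ _
      _ ≤ (K₁ + K₂) * ‖x τ - γ τ‖ := by linarith
  have hdc : ContinuousOn (fun t => ‖x t - γ t‖) J := (hxJ.sub hγJ).norm
  have hzero := TT.zero_near (f := fun t => ‖x t - γ t‖) (K := K₁ + K₂) ht₀J hdc (by positivity) (by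
    intro t ht
    have hsub : uIcc t₀ t ⊆ J := DCaseB_uI ht₀J ht
    simp only [abs_norm]
    rw [hdiff t ht]
    refine (intervalIntegral.norm_integral_le_abs_of_norm_le
      (g := fun τ => (K₁ + K₂) * ‖x τ - γ τ‖) ?_ ?_).trans (le_of_eq ?_)
    · rw [ae_restrict_iff' measurableSet_uIoc]
      exact Eventually.of_forall fun τ hτ => hK τ (hsub (uIoc_subset_uIcc hτ))
    · exact ((continuousOn_const.mul hdc).mono hsub).intervalIntegrable
    · rw [intervalIntegral.integral_const_mul, abs_mul, abs_of_nonneg (by positivity)])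
  have heq : ∀ t ∈ J, x t = γ t := fun t ht => by
    have := hzero t ht
    exact sub_eq_zero.1 (norm_eq_zero.1 this)
  -- conclusion
  intro κ hκ
  obtain ⟨δ₂, hδ₂, hκ2⟩ := DCaseB_ev (show ∀ᶠ t in 𝓝 t₀, ‖x t - x t₀‖ < κ from by
    have h1 : Tendsto (fun t => ‖x t - x t₀‖) (𝓝 t₀) (𝓝 0) := by
      have h2 : ContinuousAt (fun t => ‖x t - x t₀‖) t₀ := (hxc0.sub continuousAt_const).norm
      have h3 := h2.tendsto
      simpa using h3
    exact h1.eventually_lt_const hκ)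
  refine ⟨min δ δ₂, lt_min hδ hδ₂, fun s s' hss hs hs' => ⟨u, x, hu, ?_, rfl, rfl, ?_, ?_, ?_⟩⟩
  all_goals
    have hsub : Icc s s' ⊆ J := by
      intro t ht
      have h1 := (abs_lt.1 (hs.trans_le (min_le_left _ _))).1
      have h2 := (abs_lt.1 (hs'.trans_le (min_le_left _ _))).2
      exact ⟨by linarith [ht.1], by linarith [ht.2]⟩
  · exact hxJ.mono hsub
  · intro t ht
    refine (hκ2 t ?_).le
    have h1 := (abs_lt.1 (hs.trans_le (min_le_right _ _))).1
    have h2 := (abs_lt.1 (hs'.trans_le (min_le_right _ _))).2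
    exact ⟨by linarith [ht.1], by linarith [ht.2]⟩
  · intro t ht
    have h1 := hxi s (hall s (hsub ⟨le_refl s, hss.le⟩)).2.2.2.2.2.1 t
      (hall t (hsub ht)).2.2.2.2.2.1
    rw [← h1]
    abel
  · convert countable_empty
    rw [eq_empty_iff_forall_notMem]
    rintro t ⟨ht, hbad⟩
    apply hbad
    have htJ : t ∈ J := hsub ⟨ht.1.le, ht.2.le⟩
    obtain ⟨e, he, hball⟩ := DCaseB_ev (hJo.eventually_mem htJ)
    refine ⟨e, he, fun r hr => ?_⟩
    have hrJ := hball r hr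
    have h1 : ContDiffAt ℝ (⊤ : ℕ∞) γ r := (hall r hrJ).2.2.2.2.2.2.contDiffAt
    refine (h1.congr_of_eventuallyEq ?_).contDiffWithinAt
    filter_upwards [hJo.mem_nhds hrJ] with q hq
    exact heq q hq

end Pool.Agent.Lib.MP_28b8de_an.DD
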