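import Pool.Agent.Lib.MP_28b8de_an.D.DTriLoc

/-!
MP_28b8de_an, module DOneLoc.

Local replacement for one-dimensional systems analytic near a point.
PROOF.  tri_lrep with L = 0, B = 0, F⁺ (t,(z,y,x)) := F (t,x), G⁺ (t,(z,y,x)) := G (t,x) and the curve t ↦ (0,0,r t); take the last component of the replacement (norms: ‖(z,y,x)‖ ≥ |x|; the integral identity componentwise;
SmAt of the last component).
-/

set_option linter.unusedSectionVars false

namespace Pool.Agent.Lib.MP_28b8de_an.DD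

open Filter Topology Set MeasureTheory
open Pool.Agent.Lib.MP_28b8de_an.PT (Adm Perf)
open Pool.Agent.Lib.MP_28b8de_an.TT (Env Sol Jn Tr SmAt Goal W dx Dn V3 FF GG)

/-- the last coordinate axis -/
private noncomputable def DOneLoc_inc : ℝ →L[ℝ] V3 :=
  (ContinuousLinearMap.inr ℝ ℝ (ℝ × ℝ)).comp (ContinuousLinearMap.inr ℝ ℝ ℝ)

private lemma DOneLoc_inc_apply (x : ℝ) : DOneLoc_inc x = (0, 0, x) := rfl

private lemma DOneLoc_anti : AntilipschitzWith 1 DOneLoc_inc := by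
  apply AddMonoidHomClass.antilipschitz_of_bound
  intro x
  rw [DOneLoc_inc_apply]
  simp only [NNReal.coe_one, one_mul]
  calc ‖x‖ ≤ ‖((0 : ℝ), x)‖ := norm_snd_le ((0 : ℝ), x)
    _ ≤ ‖((0 : ℝ), (0 : ℝ), x)‖ := norm_snd_le ((0 : ℝ), (0 : ℝ), x)

private lemma DOneLoc_int (h : ℝ → ℝ) (a b : ℝ) :
    (∫ τ in a..b, (((0 : ℝ), (0 : ℝ), h τ) : V3)) = (0, 0, ∫ τ in a..b, h τ) := by
  have h1 : ∀ s : Set ℝ, (∫ τ in s, (((0 : ℝ), (0 : ℝ), h τ) : V3)) =
      DOneLoc_inc (∫ τ in s, h τ) := by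
    intro s
    rw [← ContinuousLinearMap.integral_comp_comm' DOneLoc_inc DOneLoc_anti]
    rfl
  rw [intervalIntegral, intervalIntegral, h1, h1, ← map_sub, DOneLoc_inc_apply]

theorem one_lrep {F G : ℝ × ℝ → ℝ} {u : ℝ → ℝ} {r : ℝ → ℝ} {t₀ : ℝ} (hu : Adm u)
    (hF : AnalyticAt ℝ F (t₀, r t₀)) (hG : AnalyticAt ℝ G (t₀, r t₀)) (hr : LTraj F G u r t₀) :
    LRep F G r t₀ := by
  set q : ℝ → V3 := fun t => (0, 0, r t) with hq
  set F' : ℝ × V3 → ℝ := fun p => F (p.1, p.2.2.2) with hF'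
  set G' : ℝ × V3 → ℝ := fun p => G (p.1, p.2.2.2) with hG'
  have hpr : AnalyticAt ℝ (fun p : ℝ × V3 => (p.1, p.2.2.2)) (t₀, q t₀) := by
    apply AnalyticAt.prod analyticAt_fst
    exact (analyticAt_snd.comp (analyticAt_snd.comp analyticAt_snd))
  have hF1 : AnalyticAt ℝ F' (t₀, q t₀) :=
    AnalyticAt.fun_comp (g := F) (f := fun p : ℝ × V3 => (p.1, p.2.2.2)) hF hpr
  have hG1 : AnalyticAt ℝ G' (t₀, q t₀) :=
    AnalyticAt.fun_comp (g := G) (f := fun p : ℝ × V3 => (p.1, p.2.2.2)) hG hpr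
  have hint : ∀ (v : ℝ → ℝ) (p : ℝ → V3) (τ : ℝ),
      FF (fun _ => 0) (fun _ => 0) F' (τ, p τ) + v τ • GG G' (τ, p τ) =
        ((0 : ℝ), (0 : ℝ), F (τ, (p τ).2.2) + v τ • G (τ, (p τ).2.2)) := by
    intro v p τ
    simp [FF, GG, hF', hG']
  have hr1 : LTraj (FF (fun _ => 0) (fun _ => 0) F') (GG G') u q t₀ := by
    obtain ⟨ε, hε, hc, he⟩ := hr
    refine ⟨ε, hε, ?_, ?_⟩
    · exact continuousOn_const.prodMk (continuousOn_const.prodMk hc)
    · intro s hs t ht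
      have h1 := he s hs t ht
      have h2 : (∫ τ in s..t, (FF (fun _ => 0) (fun _ => 0) F' (τ, q τ) + u τ • GG G' (τ, q τ))) =
          (0, 0, ∫ τ in s..t, (F (τ, r τ) + u τ • G (τ, r τ))) := by
        rw [← DOneLoc_int]
        apply intervalIntegral.integral_congr
        intro τ _
        exact hint u q τ
      rw [h2, ← h1]
      simp [hq]
  have key := tri_lrep (L := fun _ => 0) (B := fun _ => 0) hu analyticAt_const analyticAt_const
    hF1 hG1 hr1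
  intro κ hκ
  obtain ⟨δ, hδ, h⟩ := key κ hκ
  refine ⟨δ, hδ, ?_⟩
  intro s s' hss hs hs'
  obtain ⟨v, p, hv, hpc, hps, hps', hpn, hpe, hpS⟩ := h s s' hss hs hs'
  refine ⟨v, fun t => (p t).2.2, hv, ?_, ?_, ?_, ?_, ?_, ?_⟩
  · exact hpc.snd.snd
  · simp [hps, hq]
  · simp [hps', hq]
  · intro t ht
    have h1 := hpn t ht
    calc ‖(p t).2.2 - r t₀‖ = ‖(p t - q t₀).2.2‖ := by simp [hq]
      _ ≤ ‖(p t - q t₀).2‖ := norm_snd_le _
      _ ≤ ‖p t - q t₀‖ := norm_snd_le _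
      _ ≤ κ := h1
  · intro t ht
    have h1 := hpe t ht
    have h2 : (∫ τ in s..t, (FF (fun _ => 0) (fun _ => 0) F' (τ, p τ) + v τ • GG G' (τ, p τ))) =
        (0, 0, ∫ τ in s..t, (F (τ, (p τ).2.2) + v τ • G (τ, (p τ).2.2))) := by
      rw [← DOneLoc_int]
      apply intervalIntegral.integral_congr
      intro τ _
      exact hint v p τ
    rw [h2] at h1
    have h3 := congrArg (fun z : V3 => z.2.2) h1
    simpa using h3
  · refine hpS.mono ?_
    rintro t ⟨ht, hn⟩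
    refine ⟨ht, fun hsm => hn ?_⟩
    obtain ⟨ε, hε, hc⟩ := hsm
    exact ⟨ε, hε, hc.snd.snd⟩

end Pool.Agent.Lib.MP_28b8de_an.DD
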