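import Pool.Agent.Lib.MP_28b8de_an.D.DDefs
import Pool.Agent.Lib.MP_28b8de_an.T.TEmb

/-!
MP_28b8de_an, module DPush.

Local replacements are carried over by related fields.
PROOF of lrep_push.  Same argument as `TT.emb_jn` (file T/TEmb.lean, please adapt it): given κ, take ρ > 0 such that on the ball of radius ρ about (t₀, r t₀) the two relations hold, everything is analytic and
bounded, and ‖Θ w - Θ (t₀, r t₀)‖ < κ.  h with ρ/2 gives δ, v, r'.  Put r'' t := Θ (t, r' t).  r' is Lipschitz with derivative Fp + v Gp a.e., so r'' is Lipschitz with derivative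
fderiv Θ (1, Fp + v Gp) = F (t, r'') + v G (t, r'') a.e.: `TT.sol_of_ae`.  End points: x s = Θ (s, r s) = Θ (s, r' s).  x t₀ = Θ (t₀, r t₀) from hx.  Smoothness of r'' where r' is smooth.
lrep_jn: κ = 1/2, and ‖q t - q t₀‖ ≤ 1/2 near t₀ (continuity of q at t₀ ∈ (0,T)); s = s': jn_refl.
-/

set_option linter.unusedSectionVars false

namespace Pool.Agent.Lib.MP_28b8de_an.DD

open Filter Topology Set MeasureTheory
open Pool.Agent.Lib.MP_28b8de_an.PT (Adm Perf)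
open Pool.Agent.Lib.MP_28b8de_an.TT (Env Sol Jn Tr SmAt Goal W dx Dn V3 FF GG)

variable {V P : Type*} [NormedAddCommGroup V] [NormedSpace ℝ V] [FiniteDimensional ℝ V]
  [NormedAddCommGroup P] [NormedSpace ℝ P] [FiniteDimensional ℝ P]

private theorem DPush_bdd {X Y : Type*} [TopologicalSpace X] [SeminormedAddCommGroup Y] {f : X → Y}
    {x : X} (hf : ContinuousAt f x) : ∃ B : ℝ, 0 ≤ B ∧ ∀ᶠ w in 𝓝 x, ‖f w‖ ≤ B := by
  refine ⟨‖f x‖ + 1, by positivity, ?_⟩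
  have h1 : Tendsto (fun w => ‖f w‖) (𝓝 x) (𝓝 ‖f x‖) := hf.norm
  filter_upwards [h1.eventually (gt_mem_nhds (show ‖f x‖ < ‖f x‖ + 1 by linarith))] with w hw
  exact le_of_lt hw

theorem lrep_push {F G : ℝ × V → V} {Fp Gp : ℝ × P → P} {Θ : ℝ × P → V} {r : ℝ → P} {x : ℝ → V}
    {t₀ : ℝ} (hF : AnalyticAt ℝ Fp (t₀, r t₀)) (hG : AnalyticAt ℝ Gp (t₀, r t₀))
    (hΘ : AnalyticAt ℝ Θ (t₀, r t₀))
    (h1 : ∀ᶠ w in 𝓝 (t₀, r t₀), fderiv ℝ Θ w (1, Fp w) = F (w.1, Θ w))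
    (h2 : ∀ᶠ w in 𝓝 (t₀, r t₀), fderiv ℝ Θ w (0, Gp w) = G (w.1, Θ w))
    (hx : ∀ᶠ t in 𝓝 t₀, x t = Θ (t, r t)) (h : LRep Fp Gp r t₀) : LRep F G x t₀ := by
  intro κ hκ
  haveI : CompleteSpace V := FiniteDimensional.complete ℝ V
  haveI : CompleteSpace P := FiniteDimensional.complete ℝ P
  have hx0 : x t₀ = Θ (t₀, r t₀) := hx.self_of_nhds
  set c : P := r t₀ with hc
  obtain ⟨B, hB0, hB⟩ := DPush_bdd hF.continuousAt
  obtain ⟨B', hB'0, hB'⟩ := DPush_bdd hG.continuousAt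
  have hΘ1 : ContinuousAt (fderiv ℝ Θ) (t₀, c) := hΘ.fderiv.continuousAt
  obtain ⟨K, hK0, hK⟩ := DPush_bdd hΘ1
  have hΘ2 : ∀ᶠ w in 𝓝 (t₀, c), ‖Θ w - Θ (t₀, c)‖ < κ := by
    have h0 : Tendsto (fun w => ‖Θ w - Θ (t₀, c)‖) (𝓝 (t₀, c)) (𝓝 0) := by
      have := (hΘ.continuousAt.tendsto.sub_const (Θ (t₀, c))).norm
      simpa using this
    exact h0.eventually (gt_mem_nhds hκ)
  have hall := ((((((hF.eventually_analyticAt.and hG.eventually_analyticAt).and
    hΘ.eventually_analyticAt).and h1).and h2).and (hB.and hB')).and hK).and hΘ2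
  obtain ⟨ρ, hρ, hball⟩ := Metric.eventually_nhds_iff_ball.1 hall
  have hmem : ∀ t (y : P), |t - t₀| < ρ → ‖y - c‖ ≤ ρ / 2 → (t, y) ∈ Metric.ball (t₀, c) ρ := by
    intro t y h1 h2
    rw [Metric.mem_ball, Prod.dist_eq]
    refine max_lt ?_ ?_
    · simpa [Real.dist_eq] using h1
    · rw [dist_eq_norm]
      simp only
      linarith
  obtain ⟨δ₀, hδ₀, hloc⟩ := h (ρ / 2) (by positivity)
  obtain ⟨ε, hε, hxε⟩ := Metric.eventually_nhds_iff.1 hx
  refine ⟨min δ₀ (min ρ ε), by positivity, fun s s' hlt hs hs' => ?_⟩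
  have hss : s ≤ s' := hlt.le
  have hδ : ∀ t : ℝ, t ∈ Icc s s' → |t - t₀| < min δ₀ (min ρ ε) := by
    intro t ht
    rw [abs_lt] at hs hs' ⊢
    exact ⟨by linarith [ht.1, hs.1], by linarith [ht.2, hs'.2]⟩
  have hδ1 : ∀ t ∈ Icc s s', |t - t₀| < δ₀ := fun t ht => (hδ t ht).trans_le (min_le_left _ _)
  have hδ3 : ∀ t ∈ Icc s s', |t - t₀| < ρ := fun t ht =>
    (hδ t ht).trans_le ((min_le_right _ _).trans (min_le_left _ _))
  have hδ4 : ∀ t ∈ Icc s s', |t - t₀| < ε := fun t ht =>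
    (hδ t ht).trans_le ((min_le_right _ _).trans (min_le_right _ _))
  have hxt : ∀ t ∈ Icc s s', x t = Θ (t, r t) := fun t ht =>
    hxε (by simpa [Real.dist_eq] using hδ4 t ht)
  have hs0 : s ∈ Icc s s' := left_mem_Icc.2 hss
  have hs1 : s' ∈ Icc s s' := right_mem_Icc.2 hss
  obtain ⟨v, r', hv, hr'c, hr's, hr's', hr'n, hr'e, hr'S⟩ := hloc s s' hlt (hδ1 s hs0) (hδ1 s' hs1)
  have hb : ∀ t ∈ Icc s s', (t, r' t) ∈ Metric.ball (t₀, c) ρ := fun t ht =>
    hmem t (r' t) (hδ3 t ht) (hr'n t ht)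
  -- the integrand
  set f : ℝ → P := fun τ => Fp (τ, r' τ) + v τ • Gp (τ, r' τ) with hf
  have hpair : ContinuousOn (fun t => (t, r' t)) (Icc s s') := continuousOn_id.prodMk hr'c
  have hFc : ContinuousOn (fun τ => Fp (τ, r' τ)) (Icc s s') := by
    intro t ht
    have h3 : ContinuousAt Fp (t, r' t) := (hball _ (hb t ht)).1.1.1.1.1.1.1.continuousAt
    exact h3.comp_continuousWithinAt (f := fun t => (t, r' t)) (hpair t ht)
  have hGc : ContinuousOn (fun τ => Gp (τ, r' τ)) (Icc s s') := by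
    intro t ht
    have h3 : ContinuousAt Gp (t, r' t) := (hball _ (hb t ht)).1.1.1.1.1.1.2.continuousAt
    exact h3.comp_continuousWithinAt (f := fun t => (t, r' t)) (hpair t ht)
  have hfb : ∀ t ∈ Icc s s', ‖f t‖ ≤ B + B' := by
    intro t ht
    have h3 := (hball _ (hb t ht)).1.1.2
    calc ‖f t‖ ≤ ‖Fp (t, r' t)‖ + ‖v t • Gp (t, r' t)‖ := norm_add_le _ _
      _ ≤ B + 1 * B' := by
          refine add_le_add h3.1 ?_
          rw [norm_smul]
          exact mul_le_mul (by simpa using hv.2 t) h3.2 (norm_nonneg _) zero_le_one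
      _ = B + B' := by ring
  have hfi : IntegrableOn f (Icc s s') := by
    refine IntegrableOn.of_bound (by simp) ?_ (B + B') ?_
    · exact (hFc.aestronglyMeasurable measurableSet_Icc).add
        (hv.1.aestronglyMeasurable.smul (hGc.aestronglyMeasurable measurableSet_Icc))
    · rw [ae_restrict_iff' measurableSet_Icc]
      exact ae_of_all _ hfb
  have hfii : ∀ x ∈ Icc s s', ∀ y ∈ Icc s s', IntervalIntegrable f volume x y := by
    intro x hx y hy
    rw [intervalIntegrable_iff]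
    exact hfi.mono_set ((uIoc_subset_uIcc).trans (uIcc_subset_Icc hx hy))
  have hr'sub : ∀ x ∈ Icc s s', ∀ y ∈ Icc s s', r' y - r' x = ∫ τ in x..y, f τ := by
    intro x hx y hy
    rw [hr'e y hy, hr'e x hx, add_sub_add_left_eq_sub]
    exact intervalIntegral.integral_interval_sub_left (hfii s hs0 y hy) (hfii s hs0 x hx)
  have hr'lip : ∀ x ∈ Icc s s', ∀ y ∈ Icc s s', ‖r' y - r' x‖ ≤ (B + B') * |y - x| := by
    intro x hx y hy
    rw [hr'sub x hx y hy]
    refine intervalIntegral.norm_integral_le_of_norm_le_const fun z hz => ?_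
    exact hfb z ((uIcc_subset_Icc hx hy) (uIoc_subset_uIcc hz))
  have hr'ae : ∀ᵐ t : ℝ, t ∈ Ioo s s' → HasDerivAt r' (f t) t := by
    have h3 := (hfii s hs0 s' hs1).ae_hasDerivAt_integral
    filter_upwards [h3] with t ht htab
    have htI : t ∈ uIcc s s' := by
      rw [uIcc_of_le hss]; exact Ioo_subset_Icc_self htab
    have h4 := (ht htI s left_mem_uIcc).const_add (r' s)
    refine h4.congr_of_eventuallyEq ?_
    filter_upwards [Ioo_mem_nhds htab.1 htab.2] with x hx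
    exact hr'e x (Ioo_subset_Icc_self hx)
  -- the image
  have hΘd : ∀ w ∈ Metric.ball (t₀, c) ρ, DifferentiableAt ℝ Θ w := fun w hw =>
    (hball w hw).1.1.1.1.1.2.differentiableAt
  have hΘL : ∀ w ∈ Metric.ball (t₀, c) ρ, ∀ w' ∈ Metric.ball (t₀, c) ρ, ‖Θ w - Θ w'‖ ≤ K * ‖w - w'‖ := by
    intro w hw w' hw'
    exact Convex.norm_image_sub_le_of_norm_fderiv_le (𝕜 := ℝ) hΘd
      (fun x hx => (hball x hx).1.2) (convex_ball _ _) hw' hw
  have hLip : LipschitzOnWith (K * (1 + (B + B'))).toNNReal (fun t => Θ (t, r' t)) (Icc s s') := by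
    refine LipschitzOnWith.of_dist_le_mul fun x hx y hy => ?_
    rw [dist_eq_norm, Real.coe_toNNReal _ (by positivity), Real.dist_eq]
    refine (hΘL _ (hb x hx) _ (hb y hy)).trans ?_
    rw [mul_assoc]
    refine mul_le_mul_of_nonneg_left ?_ hK0
    rw [Prod.mk_sub_mk, Prod.norm_def]
    have h3 := hr'lip y hy x hx
    have h4 : 0 ≤ |x - y| := abs_nonneg _
    refine max_le ?_ ?_
    · simp only [Real.norm_eq_abs]
      nlinarith
    · simp only
      nlinarith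
  have hsol : TT.Sol F G v (fun t => Θ (t, r' t)) s s' := by
    refine TT.sol_of_ae hLip ?_
    filter_upwards [hr'ae] with t ht htI
    have h3 := ht htI
    have htIcc := Ioo_subset_Icc_self htI
    have h4 : HasDerivAt (fun t => (t, r' t)) ((1 : ℝ), f t) t := (hasDerivAt_id t).prodMk h3
    have h5 := ((hΘd _ (hb t htIcc)).hasFDerivAt).comp_hasDerivAt t h4
    have h6 : fderiv ℝ Θ (t, r' t) ((1 : ℝ), f t) = F (t, Θ (t, r' t)) + v t • G (t, Θ (t, r' t)) := by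
      have e : ((1 : ℝ), f t) = ((1 : ℝ), Fp (t, r' t)) + v t • ((0 : ℝ), Gp (t, r' t)) := by
        rw [hf]
        simp [Prod.ext_iff]
      rw [e, map_add, map_smul]
      have h7 := (hball _ (hb t htIcc)).1.1.1.1.2
      have h8 := (hball _ (hb t htIcc)).1.1.1.2
      rw [h7, h8]
    rw [h6] at h5
    exact h5
  refine ⟨v, fun t => Θ (t, r' t), hv, hsol.cont, ?_, ?_, ?_, hsol.eq, ?_⟩
  · show Θ (s, r' s) = x s
    rw [hr's, hxt s hs0]
  · show Θ (s', r' s') = x s'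
    rw [hr's', hxt s' hs1]
  · intro t ht
    show ‖Θ (t, r' t) - x t₀‖ ≤ κ
    rw [hx0]
    exact (hball _ (hb t ht)).2.le
  · refine hr'S.mono ?_
    rintro t ⟨ht, hbad⟩
    refine ⟨ht, fun hsm => hbad ?_⟩
    obtain ⟨η, hη, hcd⟩ := hsm
    have ht1 : 0 < t - s := sub_pos.2 ht.1
    have ht2 : 0 < s' - t := sub_pos.2 ht.2
    refine ⟨min η (min (t - s) (s' - t)), by positivity, ?_⟩
    intro x hx
    have hm1 : min η (min (t - s) (s' - t)) ≤ η := min_le_left _ _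
    have hm2 : min η (min (t - s) (s' - t)) ≤ t - s := (min_le_right _ _).trans (min_le_left _ _)
    have hm3 : min η (min (t - s) (s' - t)) ≤ s' - t := (min_le_right _ _).trans (min_le_right _ _)
    have hx1 : x ∈ Ioo (t - η) (t + η) := ⟨by linarith [hx.1], by linarith [hx.2]⟩
    have hx2 : x ∈ Icc s s' := ⟨by linarith [hx.1], by linarith [hx.2]⟩
    have h3 : ContDiffAt ℝ (⊤ : ℕ∞) r' x := hcd.contDiffAt (isOpen_Ioo.mem_nhds hx1)
    have h4 : ContDiffAt ℝ (⊤ : ℕ∞) (fun t => (t, r' t)) x := contDiffAt_id.prodMk h3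
    have h5 : ContDiffAt ℝ (⊤ : ℕ∞) Θ (x, r' x) := (hball _ (hb x hx2)).1.1.1.1.1.2.contDiffAt
    exact (ContDiffAt.comp x h5 h4).contDiffWithinAt

theorem lrep_jn {F G : ℝ × V → V} {M T : ℝ} {u : ℝ → ℝ} {q : ℝ → V} (h : Tr F G M T u q) {t₀ : ℝ}
    (ht₀ : t₀ ∈ Ioo 0 T) (hr : LRep F G q t₀) :
    ∃ δ > 0, ∀ s s' : ℝ, |s - t₀| < δ → |s' - t₀| < δ → s ≤ s' → Jn F G q s s' := by
  obtain ⟨δ₀, hδ₀, hloc⟩ := hr (1 / 2) (by norm_num)
  have hqc : ContinuousAt q t₀ :=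
    (h.sol.cont.mono Ioo_subset_Icc_self).continuousAt (Ioo_mem_nhds ht₀.1 ht₀.2)
  obtain ⟨δ₁, hδ₁, hδq⟩ := Metric.continuousAt_iff.1 hqc (1 / 2) (by norm_num)
  refine ⟨min δ₀ δ₁, by positivity, fun s s' hs hs' hss => ?_⟩
  rcases hss.eq_or_lt with rfl | hlt
  · exact TT.jn_refl q s
  obtain ⟨v, r, hv, hrc, hrs, hrs', hrn, hre, hrS⟩ := hloc s s' hlt
    (hs.trans_le (min_le_left _ _)) (hs'.trans_le (min_le_left _ _))
  refine ⟨v, r, hv, ⟨hrc, hre⟩, hrs, hrs', fun t ht => ?_, hrS⟩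
  have h1 : |t - t₀| < δ₁ := by
    have hs2 := abs_lt.1 (hs.trans_le (min_le_right _ _))
    have hs3 := abs_lt.1 (hs'.trans_le (min_le_right _ _))
    rw [abs_lt]
    exact ⟨by linarith [ht.1, hs2.1], by linarith [ht.2, hs3.2]⟩
  have h2 := hδq (x := t) (by simpa [Real.dist_eq] using h1)
  rw [dist_eq_norm] at h2
  calc ‖r t - q t‖ = ‖(r t - q t₀) - (q t - q t₀)‖ := by congr 1; abel
    _ ≤ ‖r t - q t₀‖ + ‖q t - q t₀‖ := norm_sub_le _ _
    _ ≤ 1 := by linarith [hrn t ht]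

end Pool.Agent.Lib.MP_28b8de_an.DD
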