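import Pool.Agent.Lib.MP_28b8de_an.D.DFlat
import Pool.Agent.Lib.MP_28b8de_an.D.DOneLoc
import Pool.Agent.Lib.MP_28b8de_an.D.DPush

/-!
MP_28b8de_an, module DCaseC.

Replacement when the velocity is flat on C.
PROOF.  γ from `flat`.  ξ t := (r t).2 is a trajectory near t₀ of the one-dimensional system F₁ (t,x) := (Fp (t,(γ t,x))).2, G₁ := 1 (second component of the integral identity of r; (r t).1 = γ t near t₀): LTraj F₁ G₁ u ξ t₀; one_lrep: LRep F₁ G₁ ξ t₀.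
Θ₁ (t,x) := Θ (t,(γ t,x)) : ℝ × ℝ → V, analytic at (t₀, ξ t₀).  fderiv Θ₁ (t,x) (1, F₁ (t,x)) = fderiv Θ (t,(γ t,x)) (1, (γ' t, F₁ (t,x))) = fderiv Θ (t,(γ t,x)) (1, Fp (t,(γ t,x))) = F (t, Θ₁ (t,x)) for (t,x) near (t₀,ξ t₀) since
γ' t = (Fp (t,(γ t,x))).1 (third output of flat); fderiv Θ₁ (t,x) (0,1) = fderiv Θ (..) (0,(0,1)) = G (t, Θ₁ (t,x)) (Ch.G1).  x t = Θ (t, r t) = Θ₁ (t, ξ t) near t₀.  lrep_push.
-/

set_option linter.unusedSectionVars false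

namespace Pool.Agent.Lib.MP_28b8de_an.DD

open Filter Topology Set MeasureTheory
open Pool.Agent.Lib.MP_28b8de_an.PT (Adm Perf)
open Pool.Agent.Lib.MP_28b8de_an.TT (Env Sol Jn Tr SmAt Goal W dx Dn V3 FF GG)

variable {V : Type*} [NormedAddCommGroup V] [NormedSpace ℝ V] [FiniteDimensional ℝ V]

/-- the second component is a trajectory of the one-dimensional system -/
private theorem DCaseC_ltraj {Fp : ℝ × P3 → P3} {t₀ : ℝ} {r : ℝ → P3} {u : ℝ → ℝ} (hu : Adm u)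
    (hF : AnalyticAt ℝ Fp (t₀, r t₀)) (hr : LTraj Fp ee u r t₀) {γ : ℝ → ℝ × ℝ}
    (hγ : ∀ᶠ t in 𝓝 t₀, (r t).1 = γ t) :
    LTraj (fun p : ℝ × ℝ => (Fp (p.1, (γ p.1, p.2))).2) (fun _ => (1 : ℝ)) u (fun t => (r t).2) t₀ := by
  obtain ⟨ε, hε, hrc, hrs⟩ := hr
  have hrt : ContinuousAt r t₀ := hrc.continuousAt (Ioo_mem_nhds (by linarith) (by linarith))
  have hzc : ContinuousAt (fun t => (t, r t)) t₀ := continuousAt_id.prodMk hrt
  obtain ⟨δ', hδ', hδT⟩ := Metric.eventually_nhds_iff.1 ((hzc.eventually hF.eventually_analyticAt).and hγ)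
  obtain ⟨δ, hδ, hδ1, hδ2⟩ : ∃ δ > 0, δ ≤ δ' ∧ δ ≤ ε :=
    ⟨min δ' ε, lt_min hδ' hε, min_le_left _ _, min_le_right _ _⟩
  have hJ : ∀ t ∈ Ioo (t₀ - δ) (t₀ + δ), dist t t₀ < δ' := by
    intro t ht
    rw [Real.dist_eq, abs_lt]
    exact ⟨by linarith [ht.1], by linarith [ht.2]⟩
  have hJI : Ioo (t₀ - δ) (t₀ + δ) ⊆ Ioo (t₀ - ε) (t₀ + ε) :=
    Ioo_subset_Ioo (by linarith) (by linarith)
  refine ⟨δ, hδ, continuous_snd.comp_continuousOn (hrc.mono hJI), ?_⟩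
  intro s hs t ht
  have hsub : uIcc s t ⊆ Ioo (t₀ - δ) (t₀ + δ) := ordConnected_Ioo.uIcc_subset hs ht
  have hFc : ContinuousOn (fun τ => Fp (τ, r τ)) (uIcc s t) := by
    intro τ hτ
    have h3 : ContinuousAt Fp (τ, r τ) := (hδT (hJ τ (hsub hτ))).1.continuousAt
    have h4 : ContinuousWithinAt (fun t => (t, r t)) (uIcc s t) τ :=
      (continuousOn_id.prodMk (hrc.mono (hsub.trans hJI))) τ hτ
    exact h3.comp_continuousWithinAt (f := fun t => (t, r t)) h4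
  have hui : IntervalIntegrable u volume s t := by
    have hm : AEStronglyMeasurable u (volume.restrict (uIoc s t)) := hu.1.aestronglyMeasurable
    refine (intervalIntegrable_const (c := (1 : ℝ))).mono_fun hm ?_
    exact ae_of_all _ fun τ => by simpa using hu.2 τ
  have hgi : IntervalIntegrable (fun τ => u τ • ee (τ, r τ)) volume s t := by
    have h5 : (fun τ => u τ • ee (τ, r τ)) = fun τ => u τ • ((0, 1) : P3) := rfl
    rw [h5]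
    exact ⟨hui.1.smul_const _, hui.2.smul_const _⟩
  have hfi : IntervalIntegrable (fun τ => Fp (τ, r τ) + u τ • ee (τ, r τ)) volume s t :=
    (hFc.intervalIntegrable).add hgi
  have h6 : ContinuousLinearMap.snd ℝ (ℝ × ℝ) ℝ (r t - r s) = ContinuousLinearMap.snd ℝ (ℝ × ℝ) ℝ
      (∫ τ in s..t, (Fp (τ, r τ) + u τ • ee (τ, r τ))) := by rw [hrs s (hJI hs) t (hJI ht)]
  rw [← ContinuousLinearMap.intervalIntegral_comp_comm _ hfi] at h6
  have h7 : (r t).2 - (r s).2 = ContinuousLinearMap.snd ℝ (ℝ × ℝ) ℝ (r t - r s) := rfl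
  rw [h7, h6]
  refine intervalIntegral.integral_congr fun τ hτ => ?_
  have h8 : (r τ).1 = γ τ := (hδT (hJ τ (hsub hτ))).2
  have h9 : r τ = (γ τ, (r τ).2) := by rw [← h8]
  show (Fp (τ, r τ) + u τ • ee (τ, r τ)).2 = (Fp (τ, (γ τ, (r τ).2))).2 + u τ • (1 : ℝ)
  rw [← h9]
  rfl

theorem caseC {F G : ℝ × V → V} {Fp : ℝ × P3 → P3} {Θ : ℝ × P3 → V} {Ξ : ℝ × V → P3} {t₀ : ℝ}
    {r : ℝ → P3} (h : Ch F G Fp ee Θ Ξ (t₀, r t₀)) {u : ℝ → ℝ} (hu : Adm u) {x : ℝ → V}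
    (hr : LTraj Fp ee u r t₀) (hxr : ∀ᶠ t in 𝓝 t₀, x t = Θ (t, r t)) {T : ℝ} {C : Set ℝ}
    (hC : Perf T C) (ht₀ : t₀ ∈ C)
    (hflat : ∀ᶠ t in 𝓝 t₀, t ∈ C → ∀ j : ℕ, Dn^[j + 1] (sc Fp) ((t, (r t).1), (r t).2) = 0) :
    LRep F G x t₀ := by
  have hF := h.Fa
  obtain ⟨γ, hγa, hγr, hγd⟩ := flat hu hF hr hC ht₀ hflat
  have hγ0 : γ t₀ = (r t₀).1 := hγr.self_of_nhds.symm
  obtain ⟨ι, hι⟩ : ∃ ι : ℝ × ℝ → ℝ × P3, ι = fun p => (p.1, (γ p.1, p.2)) := ⟨_, rfl⟩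
  have hι0 : ι (t₀, (r t₀).2) = (t₀, r t₀) := by
    rw [hι]
    show ((t₀, (γ t₀, (r t₀).2)) : ℝ × P3) = (t₀, r t₀)
    rw [hγ0]
  have hιa : AnalyticAt ℝ ι (t₀, (r t₀).2) := by
    rw [hι]
    refine analyticAt_fst.prod (AnalyticAt.prod ?_ analyticAt_snd)
    exact AnalyticAt.fun_comp (g := γ) (f := fun p : ℝ × ℝ => p.1) hγa analyticAt_fst
  have hιt : Tendsto ι (𝓝 (t₀, (r t₀).2)) (𝓝 (t₀, r t₀)) := by
    have h1 := hιa.continuousAt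
    unfold ContinuousAt at h1
    rw [hι0] at h1
    exact h1
  have hιd : ∀ p : ℝ × ℝ, HasDerivAt γ (Fp (ι p)).1 p.1 → ∀ α β : ℝ, DifferentiableAt ℝ ι p ∧
      fderiv ℝ ι p (α, β) = (α, (α • (Fp (ι p)).1, β)) := by
    intro p hp α β
    have h1 : HasFDerivAt (fun p : ℝ × ℝ => γ p.1)
        ((ContinuousLinearMap.toSpanSingleton ℝ (Fp (ι p)).1).comp
          (ContinuousLinearMap.fst ℝ ℝ ℝ)) p :=
      HasFDerivAt.comp (g := γ) p hp.hasFDerivAt hasFDerivAt_fst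
    have h2 : HasFDerivAt ι ((ContinuousLinearMap.fst ℝ ℝ ℝ).prod
        (((ContinuousLinearMap.toSpanSingleton ℝ (Fp (ι p)).1).comp
          (ContinuousLinearMap.fst ℝ ℝ ℝ)).prod (ContinuousLinearMap.snd ℝ ℝ ℝ))) p := by
      rw [hι] at h1 ⊢
      exact hasFDerivAt_fst.prodMk (h1.prodMk hasFDerivAt_snd)
    refine ⟨h2.differentiableAt, ?_⟩
    rw [h2.fderiv]
    simp
  have hγd' : ∀ᶠ p in 𝓝 (t₀, (r t₀).2), HasDerivAt γ (Fp (ι p)).1 p.1 := by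
    rw [hι]
    exact hγd
  have hΘi : ∀ᶠ p in 𝓝 (t₀, (r t₀).2), ∀ α β : ℝ,
      fderiv ℝ (fun p => Θ (ι p)) p (α, β) = fderiv ℝ Θ (ι p) (α, (α • (Fp (ι p)).1, β)) := by
    filter_upwards [hγd', hιt.eventually h.Θa.eventually_analyticAt] with p hp hΘp α β
    obtain ⟨h1, h2⟩ := hιd p hp α β
    have h3 : HasFDerivAt (fun p => Θ (ι p)) ((fderiv ℝ Θ (ι p)).comp (fderiv ℝ ι p)) p :=
      HasFDerivAt.comp (g := Θ) p hΘp.differentiableAt.hasFDerivAt h1.hasFDerivAt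
    rw [h3.fderiv, ContinuousLinearMap.comp_apply, h2]
  have hFa : AnalyticAt ℝ (fun p : ℝ × ℝ => (Fp (ι p)).2) (t₀, (r t₀).2) := by
    have h1 : AnalyticAt ℝ (fun p => Fp (ι p)) (t₀, (r t₀).2) := by
      refine AnalyticAt.fun_comp (g := Fp) (f := ι) ?_ hιa
      rw [hι0]
      exact hF
    exact analyticAt_snd.fun_comp h1
  have hL : LTraj (fun p : ℝ × ℝ => (Fp (ι p)).2) (fun _ => (1 : ℝ)) u (fun t => (r t).2) t₀ := by
    rw [hι]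
    exact DCaseC_ltraj hu hF hr hγr
  refine lrep_push (Fp := fun p : ℝ × ℝ => (Fp (ι p)).2) (Gp := fun _ => (1 : ℝ))
    (Θ := fun p => Θ (ι p)) (r := fun t => (r t).2) hFa analyticAt_const ?_ ?_ ?_ ?_
    (one_lrep (G := fun _ => (1 : ℝ)) hu hFa analyticAt_const hL)
  · refine AnalyticAt.fun_comp (g := Θ) (f := ι) ?_ hιa
    show AnalyticAt ℝ Θ (ι (t₀, (r t₀).2))
    rw [hι0]
    exact h.Θa
  · filter_upwards [hΘi, hιt.eventually h.F1] with p h1 h2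
    rw [h1, one_smul]
    have h3 : (((Fp (ι p)).1, (Fp (ι p)).2) : P3) = Fp (ι p) := rfl
    rw [h3, h2]
    have h4 : (ι p).1 = p.1 := by rw [hι]
    rw [h4]
  · filter_upwards [hΘi, hιt.eventually h.G1] with p h1 h2
    rw [h1, zero_smul]
    have h3 : ((0, (1 : ℝ)) : P3) = ee (ι p) := rfl
    rw [h3, h2]
    have h4 : (ι p).1 = p.1 := by rw [hι]
    rw [h4]
  · filter_upwards [hxr, hγr] with t h1 h2
    rw [h1, hι]
    show Θ (t, r t) = Θ (t, (γ t, (r t).2))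
    rw [← h2]

end Pool.Agent.Lib.MP_28b8de_an.DD
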