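import Pool.Agent.Lib.MP_28b8de_an.D.DDefs

/-!
MP_28b8de_an, module DCh.

Charts.
PROOFS.  ch_of: Θ̂ (t,p) := (t, Θ (t,p)) : ℝ × P → ℝ × V is analytic at w₀ with derivative (τ,p) ↦ (τ, fderiv Θ w₀ (τ,p)), invertible since p ↦ fderiv Θ w₀ (0,p) = A p is.  Analytic inverse function theorem
(Mathlib: `HasStrictFDerivAt.toOpenPartialHomeomorph` + `OpenPartialHomeomorph.contDiffAt_symm` with n = ω, or `ContDiffAt.toOpenPartialHomeomorph` / `ContDiffAt.to_localInverse`, or the analytic implicit function theorem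
used in T/TOdeAn.lean applied to (z,p) ↦ Θ (z.1,p) - z.2): a local inverse (t,x) ↦ (t, Ξ (t,x)), analytic at (w₀.1, Θ w₀).  Fp w := fderiv ℝ Ξ (w.1, Θ w) (1, F (w.1, Θ w)), analytic at w₀.
F1: differentiate Θ (z.1, Ξ z) = z.2 (near (w₀.1, Θ w₀)): fderiv Θ (z.1, Ξ z) (α, fderiv Ξ z (α, y)) = y; with z = (w.1, Θ w), Ξ z = w.2, α = 1, y = F z.
ch_ev: every condition is open (`AnalyticAt.eventually_analyticAt`, eventually_eventually_nhds, continuity of w ↦ (w.1, Θ w) at w₀).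
-/

set_option linter.unusedSectionVars false

namespace Pool.Agent.Lib.MP_28b8de_an.DD

open Filter Topology Set MeasureTheory
open Pool.Agent.Lib.MP_28b8de_an.PT (Adm Perf)
open Pool.Agent.Lib.MP_28b8de_an.TT (Env Sol Jn Tr SmAt Goal W dx Dn V3 FF GG)

variable {V P : Type*} [NormedAddCommGroup V] [NormedSpace ℝ V] [FiniteDimensional ℝ V]
  [NormedAddCommGroup P] [NormedSpace ℝ P] [FiniteDimensional ℝ P]

private theorem DCh_app {E₀ E₁ E₂ : Type*} [NormedAddCommGroup E₀] [NormedSpace ℝ E₀]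
    [NormedAddCommGroup E₁] [NormedSpace ℝ E₁] [NormedAddCommGroup E₂] [NormedSpace ℝ E₂]
    {L : E₀ → E₁ →L[ℝ] E₂} {v : E₀ → E₁} {z : E₀}
    (hL : AnalyticAt ℝ L z) (hv : AnalyticAt ℝ v z) : AnalyticAt ℝ (fun z => L z (v z)) z := by
  have h1 := (ContinuousLinearMap.id ℝ (E₁ →L[ℝ] E₂)).analyticAt_bilinear (L z, v z)
  exact h1.comp_of_eq (hL.prod hv) rfl

private theorem DCh_pair {Θ : ℝ × P → V} {w₀ : ℝ × P} (hΘ : AnalyticAt ℝ Θ w₀) :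
    AnalyticAt ℝ (fun w : ℝ × P => (w.1, Θ w)) w₀ :=
  analyticAt_fst.prod hΘ

theorem ch_of {F G : ℝ × V → V} {Gp : ℝ × P → P} {Θ : ℝ × P → V} {w₀ : ℝ × P}
    (hΘ : AnalyticAt ℝ Θ w₀) (A : P ≃L[ℝ] V)
    (hA : (fderiv ℝ Θ w₀).comp (ContinuousLinearMap.inr ℝ ℝ P) = (A : P →L[ℝ] V))
    (hF : AnalyticAt ℝ F (w₀.1, Θ w₀)) (hGp : AnalyticAt ℝ Gp w₀)
    (hG1 : ∀ᶠ w in 𝓝 w₀, fderiv ℝ Θ w (0, Gp w) = G (w.1, Θ w)) :
    ∃ (Ξ : ℝ × V → P) (Fp : ℝ × P → P), Ch F G Fp Gp Θ Ξ w₀ := by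
  classical
  have : CompleteSpace V := FiniteDimensional.complete ℝ V
  have : CompleteSpace P := FiniteDimensional.complete ℝ P
  set T : ℝ × P → ℝ × V := fun w => (w.1, Θ w) with hT
  have hTa : AnalyticAt ℝ T w₀ := DCh_pair hΘ
  set B : ℝ →L[ℝ] V := (fderiv ℝ Θ w₀).comp (ContinuousLinearMap.inl ℝ ℝ P) with hB
  set i : (ℝ × P) ≃L[ℝ] (ℝ × V) := (ContinuousLinearEquiv.refl ℝ ℝ).skewProd A B with hi
  have hfd : HasFDerivAt T (i : (ℝ × P) →L[ℝ] (ℝ × V)) w₀ := by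
    have h1 : HasFDerivAt T ((ContinuousLinearMap.fst ℝ ℝ P).prod (fderiv ℝ Θ w₀)) w₀ :=
      hasFDerivAt_fst.prodMk hΘ.differentiableAt.hasFDerivAt
    have h2 : (ContinuousLinearMap.fst ℝ ℝ P).prod (fderiv ℝ Θ w₀) =
        (i : (ℝ × P) →L[ℝ] (ℝ × V)) := by
      refine ContinuousLinearMap.ext fun w => ?_
      have h3 : fderiv ℝ Θ w₀ w = A w.2 + B w.1 := by
        have h4 : A w.2 = fderiv ℝ Θ w₀ (0, w.2) := by
          have := congrArg (fun L : P →L[ℝ] V => L w.2) hA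
          simpa using this.symm
        have h5 : B w.1 = fderiv ℝ Θ w₀ (w.1, 0) := by simp [hB]
        rw [h4, h5, ← map_add]
        simp
      simp [hi, h3]
    rw [← h2]
    exact h1
  have hs : HasStrictFDerivAt T (i : (ℝ × P) →L[ℝ] (ℝ × V)) w₀ := by
    have h1 := hTa.hasStrictFDerivAt
    rwa [hfd.fderiv] at h1
  set R : ℝ × V → ℝ × P := hs.localInverse T i w₀ with hR
  have hl : ∀ᶠ w in 𝓝 w₀, R (T w) = w := hs.eventually_left_inverse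
  have hr : ∀ᶠ z in 𝓝 (T w₀), T (R z) = z := hs.eventually_right_inverse
  have hRa : AnalyticAt ℝ R (T w₀) := by
    have h1 := (hs.toOpenPartialHomeomorph T).analyticAt_symm' (i := i)
      hs.mem_toOpenPartialHomeomorph_source hTa hfd.fderiv
    exact h1
  set Ξ : ℝ × V → P := fun z => (R z).2 with hΞ
  have hΞa : AnalyticAt ℝ Ξ (T w₀) := by
    have h1 : AnalyticAt ℝ (fun w : ℝ × P => w.2) (R (T w₀)) := analyticAt_snd
    exact h1.comp_of_eq hRa rfl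
  have hli : ∀ᶠ z in 𝓝 (T w₀), Θ (z.1, Ξ z) = z.2 := by
    filter_upwards [hr] with z hz
    have h1 : (R z).1 = z.1 := congrArg Prod.fst hz
    have h2 : Θ (R z) = z.2 := congrArg Prod.snd hz
    have h3 : (z.1, Ξ z) = R z := by rw [← h1]
    rw [h3, h2]
  have hri : ∀ᶠ w in 𝓝 w₀, Ξ (w.1, Θ w) = w.2 := by
    filter_upwards [hl] with w hw
    exact congrArg Prod.snd hw
  have hTc : Tendsto T (𝓝 w₀) (𝓝 (T w₀)) := hTa.continuousAt
  refine ⟨Ξ, fun w => fderiv ℝ Ξ (T w) (1, F (T w)), hΘ, hΞa, hli, hri, ?_, hGp, ?_, hG1⟩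
  · have h1 : AnalyticAt ℝ (fun w => fderiv ℝ Ξ (T w)) w₀ := hΞa.fderiv.comp_of_eq hTa rfl
    have h2 : AnalyticAt ℝ (fun w => F (T w)) w₀ := AnalyticAt.comp_of_eq hF hTa rfl
    exact DCh_app h1 (analyticAt_const.prod h2)
  · have h1 : ∀ᶠ w in 𝓝 w₀, ∀ᶠ z in 𝓝 (T w), Θ (z.1, Ξ z) = z.2 :=
      hTc.eventually hli.eventually_nhds
    have h2 : ∀ᶠ w in 𝓝 w₀, AnalyticAt ℝ Ξ (T w) :=
      hTc.eventually hΞa.eventually_analyticAt
    have h3 : ∀ᶠ w in 𝓝 w₀, AnalyticAt ℝ Θ w := hΘ.eventually_analyticAt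
    filter_upwards [h1, h2, h3, hri] with w hw1 hw2 hw3 hw4
    have e1 : ((T w).1, Ξ (T w)) = w := by
      have : Ξ (T w) = w.2 := hw4
      rw [this]
    have d1 : HasFDerivAt (fun z : ℝ × V => (z.1, Ξ z))
        ((ContinuousLinearMap.fst ℝ ℝ V).prod (fderiv ℝ Ξ (T w))) (T w) :=
      hasFDerivAt_fst.prodMk hw2.differentiableAt.hasFDerivAt
    have d2 : HasFDerivAt Θ (fderiv ℝ Θ w) ((T w).1, Ξ (T w)) := by
      rw [e1]; exact hw3.differentiableAt.hasFDerivAt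
    have d3 : HasFDerivAt (fun z : ℝ × V => Θ (z.1, Ξ z))
        ((fderiv ℝ Θ w).comp ((ContinuousLinearMap.fst ℝ ℝ V).prod (fderiv ℝ Ξ (T w)))) (T w) :=
      HasFDerivAt.comp (T w) d2 d1
    have d4 : HasFDerivAt (fun z : ℝ × V => Θ (z.1, Ξ z)) (ContinuousLinearMap.snd ℝ ℝ V) (T w) :=
      (hasFDerivAt_snd : HasFDerivAt (fun z : ℝ × V => z.2) _ (T w)).congr_of_eventuallyEq hw1
    have d5 := d3.unique d4
    have d6 := congrArg (fun L : (ℝ × V) →L[ℝ] V => L (1, F (T w))) d5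
    simpa using d6

theorem ch_ev {F G : ℝ × V → V} {Fp Gp : ℝ × P → P} {Θ : ℝ × P → V} {Ξ : ℝ × V → P} {w₀ : ℝ × P}
    (h : Ch F G Fp Gp Θ Ξ w₀) : ∀ᶠ w in 𝓝 w₀, Ch F G Fp Gp Θ Ξ w := by
  have hTc : Tendsto (fun w : ℝ × P => (w.1, Θ w)) (𝓝 w₀) (𝓝 (w₀.1, Θ w₀)) :=
    (DCh_pair h.Θa).continuousAt
  filter_upwards [h.Θa.eventually_analyticAt, hTc.eventually h.Ξa.eventually_analyticAt,
    hTc.eventually h.li.eventually_nhds, h.ri.eventually_nhds, h.Fa.eventually_analyticAt,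
    h.Ga.eventually_analyticAt, h.F1.eventually_nhds, h.G1.eventually_nhds]
    with w h1 h2 h3 h4 h5 h6 h7 h8
  exact ⟨h1, h2, h3, h4, h5, h6, h7, h8⟩

end Pool.Agent.Lib.MP_28b8de_an.DD
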