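import Pool.Agent.Lib.MP_28b8de_an.T.TTri
import Pool.Agent.Lib.MP_28b8de_an.T.TDn
import Pool.Agent.Lib.MP_28b8de_an.T.TAux

/-!
MP_28b8de_an, module DDefs.

definitions for the reduction of systems with dependent brackets to triangular systems.
-/

set_option linter.unusedSectionVars false

namespace Pool.Agent.Lib.MP_28b8de_an.DD

open Filter Topology Set MeasureTheory
open Pool.Agent.Lib.MP_28b8de_an.PT (Adm Perf)
open Pool.Agent.Lib.MP_28b8de_an.TT (Env Sol Jn Tr SmAt Goal W dx Dn V3 FF GG)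

section general

variable {V P : Type*} [NormedAddCommGroup V] [NormedSpace ℝ V] [NormedAddCommGroup P]
  [NormedSpace ℝ P]

/-- the second bracket `[G, W]` -/
noncomputable def WW (F G : ℝ × V → V) (z : ℝ × V) : V := dx (W F G) z (G z) - dx G z (W F G z)

/-- the bracket of the fields `(α, a)` and `(β, b)` -/
noncomputable def Br (α : ℝ) (a : ℝ × V → V) (β : ℝ) (b : ℝ × V → V) (z : ℝ × V) : V :=
  fderiv ℝ b z (α, a z) - fderiv ℝ a z (β, b z)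

/-- `x` is a trajectory near `t₀` -/
def LTraj (F G : ℝ × V → V) (u : ℝ → ℝ) (x : ℝ → V) (t₀ : ℝ) : Prop :=
  ∃ ε > 0, ContinuousOn x (Ioo (t₀ - ε) (t₀ + ε)) ∧
    ∀ s ∈ Ioo (t₀ - ε) (t₀ + ε), ∀ t ∈ Ioo (t₀ - ε) (t₀ + ε),
      x t - x s = ∫ τ in s..t, (F (τ, x τ) + u τ • G (τ, x τ))

/-- `x` can be replaced near `t₀`, by trajectories close to `x t₀`, with a countable bad set -/
def LRep (F G : ℝ × V → V) (x : ℝ → V) (t₀ : ℝ) : Prop :=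
  ∀ κ : ℝ, 0 < κ → ∃ δ > 0, ∀ s s' : ℝ, s < s' → |s - t₀| < δ → |s' - t₀| < δ →
    ∃ (v : ℝ → ℝ) (r : ℝ → V), Adm v ∧ ContinuousOn r (Icc s s') ∧ r s = x s ∧ r s' = x s' ∧
      (∀ t ∈ Icc s s', ‖r t - x t₀‖ ≤ κ) ∧
      (∀ t ∈ Icc s s', r t = r s + ∫ τ in s..t, (F (τ, r τ) + v τ • G (τ, r τ))) ∧
      {t ∈ Ioo s s' | ¬ SmAt r t}.Countable

/-- `Θ(t,·)` is an analytic chart near `w₀`, with inverse `Ξ(t,·)`, which carries `(Fp, Gp)` to `(F, G)` -/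
structure Ch (F G : ℝ × V → V) (Fp Gp : ℝ × P → P) (Θ : ℝ × P → V) (Ξ : ℝ × V → P) (w₀ : ℝ × P) :
    Prop where
  Θa : AnalyticAt ℝ Θ w₀
  Ξa : AnalyticAt ℝ Ξ (w₀.1, Θ w₀)
  li : ∀ᶠ z in 𝓝 (w₀.1, Θ w₀), Θ (z.1, Ξ z) = z.2
  ri : ∀ᶠ w in 𝓝 w₀, Ξ (w.1, Θ w) = w.2
  Fa : AnalyticAt ℝ Fp w₀
  Ga : AnalyticAt ℝ Gp w₀
  F1 : ∀ᶠ w in 𝓝 w₀, fderiv ℝ Θ w (1, Fp w) = F (w.1, Θ w)
  G1 : ∀ᶠ w in 𝓝 w₀, fderiv ℝ Θ w (0, Gp w) = G (w.1, Θ w)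

/-- the three fields are dependent near `z₀` -/
def Dep (F G : ℝ × V → V) (z₀ : ℝ × V) : Prop :=
  ∀ᶠ z in 𝓝 z₀, ¬ LinearIndependent ℝ ![G z, W F G z, WW F G z]

end general

/-- determinant in the plane -/
def wd (a b : ℝ × ℝ) : ℝ := a.1 * b.2 - a.2 * b.1

/-- chart coordinates `(s, ξ)` -/
abbrev P3 := (ℝ × ℝ) × ℝ

/-- the constant field `∂/∂ξ` -/
def ee (_ : ℝ × P3) : P3 := (0, 1)

/-- the `s` component of a field on `ℝ × P3`, as a function of `((t, s), ξ)` -/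
def sc (Fp : ℝ × P3 → P3) (p : (ℝ × ℝ × ℝ) × ℝ) : ℝ × ℝ := (Fp (p.1.1, (p.1.2, p.2))).1

end Pool.Agent.Lib.MP_28b8de_an.DD
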