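import Pool.Agent.Lib.MP_28b8de_an.T.TCut
import Pool.Agent.Lib.MP_28b8de_an.D.DDefs

/-!
MP_28b8de_an, module DCut.

Cutting off analytic vector valued maps.
-/

set_option linter.unusedSectionVars false

namespace Pool.Agent.Lib.MP_28b8de_an.DD

open Filter Topology Set MeasureTheory
open Pool.Agent.Lib.MP_28b8de_an.PT (Adm Perf)
open Pool.Agent.Lib.MP_28b8de_an.TT (Env Sol Jn Tr SmAt Goal W dx Dn V3 FF GG)

open Pool.Agent.Lib.MP_28b8de_an.TT (Bd bd_of_compact) in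
/-- cut off of a map analytic everywhere -/
theorem cut_vec {X Y : Type*} [NormedAddCommGroup X] [NormedSpace ℝ X] [NormedAddCommGroup Y]
    [NormedSpace ℝ Y] [CompleteSpace Y] [FiniteDimensional ℝ X] {H : X → Y} (hH : AnalyticOnNhd ℝ H univ)
    {R : ℝ} (hR : 0 < R) :
    ∃ (H' : X → Y) (M : ℝ), Bd M H' ∧ ∀ z ∈ Metric.ball (0 : X) R, H' z = H z := by
  have : ProperSpace X := FiniteDimensional.proper ℝ X
  let χ : ContDiffBump (0 : X) := ⟨R, R + 1, hR, by linarith⟩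
  have hχs : ContDiff ℝ (⊤ : ℕ∞) χ := χ.contDiff
  have hχc : HasCompactSupport χ := χ.hasCompactSupport
  have hχ1 : ∀ z ∈ Metric.ball (0 : X) R, χ z = 1 := fun z hz =>
    χ.one_of_mem_closedBall (Metric.ball_subset_closedBall hz)
  have hHs : ContDiff ℝ (⊤ : ℕ∞) H := by
    rw [contDiff_iff_contDiffAt]
    exact fun z => (hH z (mem_univ _)).contDiffAt
  have e1 : ∀ z ∈ Metric.ball (0 : X) R, χ z • H z = H z := fun z hz => by rw [hχ1 z hz, one_smul]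
  obtain ⟨M, hM⟩ := bd_of_compact (H := fun z => χ z • H z) (hχs.smul hHs) (hχc.smul_right)
  exact ⟨fun z => χ z • H z, M, hM, e1⟩

open Pool.Agent.Lib.MP_28b8de_an.TT (Bd) in
/-- cutting off two fields -/
theorem cut_env {X : Type*} [NormedAddCommGroup X] [NormedSpace ℝ X] [FiniteDimensional ℝ X]
    {F G : ℝ × X → X} (hF : AnalyticOnNhd ℝ F univ) (hG : AnalyticOnNhd ℝ G univ) {R : ℝ}
    (hR : 0 < R) :
    ∃ (F' G' : ℝ × X → X) (M : ℝ), Env F' G' M ∧ (∀ z ∈ Metric.ball (0 : ℝ × X) R, F' z = F z) ∧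
      ∀ z ∈ Metric.ball (0 : ℝ × X) R, G' z = G z := by
  haveI : CompleteSpace X := FiniteDimensional.complete ℝ X
  obtain ⟨F', M₁, b1, e1⟩ := cut_vec hF hR
  obtain ⟨G', M₂, b2, e2⟩ := cut_vec hG hR
  have h1 := b1.1
  have h2 := b2.1
  have c1 : Bd (1 + M₁ + M₂) F' := b1.mono (by linarith)
  have c2 : Bd (1 + M₁ + M₂) G' := b2.mono (by linarith)
  exact ⟨F', G', 1 + M₁ + M₂, ⟨by linarith, c1.2.1, c2.2.1, c1.2.2.1, c2.2.2.1, c1.2.2.2.1,
    c2.2.2.2.1, c1.2.2.2.2, c2.2.2.2.2⟩, e1, e2⟩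

end Pool.Agent.Lib.MP_28b8de_an.DD
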