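import Pool.Agent.Lib.MP_28b8de_an.D.DBr

/-!
MP_28b8de_an, module DDepE.

Dependence of the brackets along the uncontrolled component.
-/

set_option linter.unusedSectionVars false

namespace Pool.Agent.Lib.MP_28b8de_an.DD

open Filter Topology Set MeasureTheory
open Pool.Agent.Lib.MP_28b8de_an.PT (Adm Perf)
open Pool.Agent.Lib.MP_28b8de_an.TT (Env Sol Jn Tr SmAt Goal W dx Dn V3 FF GG)

variable {E V : Type*} [NormedAddCommGroup E] [NormedSpace ℝ E] [FiniteDimensional ℝ E]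
  [NormedAddCommGroup V] [NormedSpace ℝ V] [FiniteDimensional ℝ V]

/-- the drift `(σ, F)` -/
def dr (σ : E → E) (F : E × V → V) (z : E × V) : E × V := (σ z.1, F z)

/-- the controlled field `(0, G)` -/
def cf (G : E × V → V) (z : E × V) : E × V := (0, G z)

/-- the three fields are dependent everywhere -/
def DepE (σ : E → E) (F G : E × V → V) : Prop :=
  ∀ z : E × V, ¬ LinearIndependent ℝ ![cf G z, VectorField.lieBracket ℝ (dr σ F) (cf G) z,
    VectorField.lieBracket ℝ (cf G) (VectorField.lieBracket ℝ (dr σ F) (cf G)) z]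

theorem clm_an {X Y Z : Type*} [NormedAddCommGroup X] [NormedSpace ℝ X] [NormedAddCommGroup Y]
    [NormedSpace ℝ Y] [NormedAddCommGroup Z] [NormedSpace ℝ Z] {f : X → Y →L[ℝ] Z} {g : X → Y} {z : X}
    (hf : AnalyticAt ℝ f z) (hg : AnalyticAt ℝ g z) : AnalyticAt ℝ (fun z => f z (g z)) z :=
  AnalyticAt.fun_comp (g := fun p : (Y →L[ℝ] Z) × Y => p.1 p.2) (f := fun z => (f z, g z))
    (ContinuousLinearMap.analyticAt_bilinear (ContinuousLinearMap.id ℝ (Y →L[ℝ] Z)) _) (hf.prod hg)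

private theorem lb_an {X : Type*} [NormedAddCommGroup X] [NormedSpace ℝ X] [CompleteSpace X]
    {a b : X → X} {z : X} (ha : AnalyticAt ℝ a z) (hb : AnalyticAt ℝ b z) :
    AnalyticAt ℝ (VectorField.lieBracket ℝ a b) z := by
  have h1 : AnalyticAt ℝ (fun z => fderiv ℝ b z (a z)) z := clm_an hb.fderiv ha
  have h2 : AnalyticAt ℝ (fun z => fderiv ℝ a z (b z)) z := clm_an ha.fderiv hb
  exact h1.sub h2

private theorem lift_fderiv {X : Type*} [NormedAddCommGroup X] [NormedSpace ℝ X]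
    {a : X → X} {z : ℝ × X} (ha : DifferentiableAt ℝ a z.2) (τ : ℝ) (y : X) :
    fderiv ℝ (fun z : ℝ × X => a z.2) z (τ, y) = fderiv ℝ a z.2 y := by
  have h1 : HasFDerivAt (fun z : ℝ × X => a z.2)
      ((fderiv ℝ a z.2).comp (ContinuousLinearMap.snd ℝ ℝ X)) z :=
    HasFDerivAt.comp (g := a) (f := fun z : ℝ × X => z.2) z ha.hasFDerivAt hasFDerivAt_snd
  rw [h1.fderiv]
  rfl

theorem dep_of {σ : E → E} {F G : E × V → V} {s : ℝ → E} {t₀ : ℝ} {x₀ : V}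
    (hs : AnalyticAt ℝ s t₀) (hs' : ∀ᶠ t in 𝓝 t₀, HasDerivAt s (σ (s t)) t)
    (hσ : AnalyticAt ℝ σ (s t₀)) (hF : AnalyticAt ℝ F (s t₀, x₀)) (hG : AnalyticAt ℝ G (s t₀, x₀))
    (hd : DepE σ F G) :
    Dep (fun z => F (s z.1, z.2)) (fun z => G (s z.1, z.2)) (t₀, x₀) := by
  haveI : CompleteSpace E := FiniteDimensional.complete ℝ E
  haveI : CompleteSpace V := FiniteDimensional.complete ℝ V
  haveI : CompleteSpace (E × V) := inferInstance
  set Θ : ℝ × V → E × V := fun w => (s w.1, w.2) with hΘ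
  set F₀ : ℝ × V → V := fun z => F (s z.1, z.2) with hF₀
  set G₀ : ℝ × V → V := fun z => G (s z.1, z.2) with hG₀
  have hs1 : AnalyticAt ℝ (fun w : ℝ × V => s w.1) (t₀, x₀) :=
    AnalyticAt.fun_comp (g := s) (f := fun w : ℝ × V => w.1) hs analyticAt_fst
  have hΘa : AnalyticAt ℝ Θ (t₀, x₀) := hs1.prod analyticAt_snd
  have hF₀a : AnalyticAt ℝ F₀ (t₀, x₀) := AnalyticAt.fun_comp (g := F) (f := Θ) hF hΘa
  have hG₀a : AnalyticAt ℝ G₀ (t₀, x₀) := AnalyticAt.fun_comp (g := G) (f := Θ) hG hΘa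
  have hdr : AnalyticAt ℝ (dr σ F) (s t₀, x₀) :=
    (AnalyticAt.fun_comp (g := σ) (f := fun z : E × V => z.1) hσ analyticAt_fst).prod hF
  have hcf : AnalyticAt ℝ (cf G) (s t₀, x₀) := analyticAt_const.prod hG
  have hlb : AnalyticAt ℝ (VectorField.lieBracket ℝ (dr σ F) (cf G)) (s t₀, x₀) := lb_an hdr hcf
  have hlift : ∀ {a : E × V → E × V}, AnalyticAt ℝ a (s t₀, x₀) →
      AnalyticAt ℝ (fun z : ℝ × (E × V) => a z.2) (t₀, Θ (t₀, x₀)) := by
    intro a ha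
    exact AnalyticAt.fun_comp (g := a) (f := fun z : ℝ × (E × V) => z.2) ha analyticAt_snd
  -- the derivative of `Θ`
  have hΘd : ∀ᶠ w in 𝓝 (t₀, x₀), ∀ (τ : ℝ) (y : V), fderiv ℝ Θ w (τ, y) = (τ • σ (s w.1), y) := by
    have h1 : Tendsto (fun w : ℝ × V => w.1) (𝓝 (t₀, x₀)) (𝓝 t₀) := continuous_fst.tendsto _
    filter_upwards [h1.eventually hs'] with w hw τ y
    have h2 : HasFDerivAt (fun w : ℝ × V => s w.1)
        ((ContinuousLinearMap.toSpanSingleton ℝ (σ (s w.1))).comp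
          (ContinuousLinearMap.fst ℝ ℝ V)) w :=
      HasFDerivAt.comp (g := s) (f := fun w : ℝ × V => w.1) w hw.hasFDerivAt hasFDerivAt_fst
    have h3 : HasFDerivAt Θ _ w := h2.prodMk hasFDerivAt_snd
    rw [h3.fderiv]
    simp
  have hΘc : ∀ {P : ℝ × (E × V) → Prop}, (∀ᶠ z in 𝓝 (t₀, Θ (t₀, x₀)), P z) →
      ∀ᶠ w in 𝓝 (t₀, x₀), P (w.1, Θ w) := by
    intro P hP
    exact (continuousAt_fst.prodMk hΘa.continuousAt).eventually hP
  -- first bracket
  have r1 : ∀ᶠ w in 𝓝 (t₀, x₀), fderiv ℝ Θ w (1, F₀ w) =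
      (fun z : ℝ × (E × V) => dr σ F z.2) (w.1, Θ w) := by
    filter_upwards [hΘd] with w hw
    rw [hw]
    simp [dr, hΘ, hF₀]
  have r2 : ∀ᶠ w in 𝓝 (t₀, x₀), fderiv ℝ Θ w (0, G₀ w) =
      (fun z : ℝ × (E × V) => cf G z.2) (w.1, Θ w) := by
    filter_upwards [hΘd] with w hw
    rw [hw]
    simp [cf, hΘ, hG₀]
  have b1 := br_rel (w := (t₀, x₀)) hΘa hF₀a hG₀a (hlift hdr) (hlift hcf) r1 r2
  have r3 : ∀ᶠ w in 𝓝 (t₀, x₀), fderiv ℝ Θ w (0, W F₀ G₀ w) =
      (fun z : ℝ × (E × V) => VectorField.lieBracket ℝ (dr σ F) (cf G) z.2) (w.1, Θ w) := by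
    filter_upwards [b1, hΘc (hlift hdr).eventually_analyticAt,
      hΘa.continuousAt.eventually hdr.eventually_analyticAt,
      hΘa.continuousAt.eventually hcf.eventually_analyticAt] with w hw _ h1 h2
    rw [W_eq, hw]
    show Br 1 (fun z : ℝ × (E × V) => dr σ F z.2) 0 (fun z : ℝ × (E × V) => cf G z.2) (w.1, Θ w) =
      VectorField.lieBracket ℝ (dr σ F) (cf G) (Θ w)
    rw [Br, lift_fderiv h2.differentiableAt, lift_fderiv h1.differentiableAt]
    rfl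
  have hWa : AnalyticAt ℝ (W F₀ G₀) (t₀, x₀) := by
    have h1 : AnalyticAt ℝ (fun z => fderiv ℝ G₀ z (1, F₀ z)) (t₀, x₀) :=
      clm_an hG₀a.fderiv (analyticAt_const.prod hF₀a)
    have h2 : AnalyticAt ℝ (fun z => fderiv ℝ F₀ z (0, G₀ z)) (t₀, x₀) :=
      clm_an hF₀a.fderiv (analyticAt_const.prod hG₀a)
    have h3 : W F₀ G₀ = fun z => fderiv ℝ G₀ z (1, F₀ z) - fderiv ℝ F₀ z (0, G₀ z) := by
      funext z
      rw [W_eq]
      rfl
    rw [h3]
    exact h1.sub h2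
  have b2 := br_rel (w := (t₀, x₀)) hΘa hG₀a hWa (hlift hcf) (hlift hlb) r2 r3
  show ∀ᶠ z in 𝓝 (t₀, x₀), ¬ LinearIndependent ℝ ![G₀ z, W F₀ G₀ z, WW F₀ G₀ z]
  filter_upwards [hΘd, r2, r3, b2, hΘa.continuousAt.eventually hcf.eventually_analyticAt,
    hΘa.continuousAt.eventually hlb.eventually_analyticAt] with w hw h2 h3 h4 a1 a2 hli
  apply hd (Θ w)
  have e2 : cf G (Θ w) = ContinuousLinearMap.inr ℝ E V (G₀ w) := by
    rw [hw] at h2
    simpa using h2.symm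
  have e3 : VectorField.lieBracket ℝ (dr σ F) (cf G) (Θ w) =
      ContinuousLinearMap.inr ℝ E V (W F₀ G₀ w) := by
    rw [hw] at h3
    simpa using h3.symm
  have e4 : VectorField.lieBracket ℝ (cf G) (VectorField.lieBracket ℝ (dr σ F) (cf G)) (Θ w) =
      ContinuousLinearMap.inr ℝ E V (WW F₀ G₀ w) := by
    rw [hw, ← WW_eq] at h4
    have h5 : Br 0 (fun z : ℝ × (E × V) => cf G z.2) 0
        (fun z : ℝ × (E × V) => VectorField.lieBracket ℝ (dr σ F) (cf G) z.2) (w.1, Θ w) =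
        VectorField.lieBracket ℝ (cf G) (VectorField.lieBracket ℝ (dr σ F) (cf G)) (Θ w) := by
      rw [Br, lift_fderiv a2.differentiableAt, lift_fderiv a1.differentiableAt]
      rfl
    rw [← h5, ← h4]
    simp
  rw [e2, e3, e4]
  have hinj : LinearMap.ker (LinearMap.inr ℝ E V) = ⊥ := LinearMap.ker_eq_bot.2 LinearMap.inr_injective
  have h6 := hli.map' (LinearMap.inr ℝ E V) hinj
  have h7 : (![(ContinuousLinearMap.inr ℝ E V) (G₀ w), (ContinuousLinearMap.inr ℝ E V) (W F₀ G₀ w),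
      (ContinuousLinearMap.inr ℝ E V) (WW F₀ G₀ w)] : Fin 3 → E × V) =
      (LinearMap.inr ℝ E V) ∘ ![G₀ w, W F₀ G₀ w, WW F₀ G₀ w] := by
    funext i
    fin_cases i <;> rfl
  rw [h7]
  exact h6

end Pool.Agent.Lib.MP_28b8de_an.DD
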