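import Pool.Agent.Lib.MP_28b8de_an.D.DDefs

/-!
MP_28b8de_an, module DDir.

The direction of the velocity.
PROOF.  e w := Dn^[j+1] f (w, ξ₀): analytic at w₀ (`TT.Dn_iter_an`), e w₀ ≠ 0.  Take a ball U about w₀ and an open interval J about ξ₀ such that f is analytic on U × J, hw holds there and e ≠ 0 on U.  Fix w ∈ U, c ξ := Dn f (w,ξ),
analytic on J, c' ξ = Dn (Dn f) (w,ξ) (`TT.Dn_slice`), wd (c ξ) (c' ξ) = 0 on J.
(1) If ξ₁ ∈ J and c ξ₁ ≠ 0 then wd (c ξ) (c ξ₁) = 0 for all ξ ∈ J: let k := c ξ₁ and a ξ := k.1 * (c ξ).1 + k.2 * (c ξ).2, b ξ := wd k (c ξ); near ξ₁ a > 0, and (b/a)' = (b' a - b a')/a² = |k|² wd (c ξ) (c' ξ) / a² = 0 (identity in the plane: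
wd k c' * a - wd k c * a' = (k.1²+k.2²) * wd c c'), so b/a is constant near ξ₁, = 0; b = 0 near ξ₁, and on J by the identity theorem.
(2) c is not identically 0 near ξ₀ since its j-th derivative at ξ₀ is e w ≠ 0 (see `TT.slice_zero`, or: if c = 0 near ξ₀ all Dn^[i+1] f (w,ξ₀) = 0, `Dn_slice` iterated); take ξ₁ ∈ J with c ξ₁ ≠ 0.  By (1), wd (c ξ) (c ξ₁) = 0 on J; differentiate j times
in ξ at ξ₀: wd (e w) (c ξ₁) = 0.  Both c ξ and e w are parallel to c ξ₁ ≠ 0, so wd (c ξ) (e w) = 0 for ξ ∈ J.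
(3) ξ ↦ wd (f (w,ξ) - f (w,ξ₀)) (e w) has derivative wd (c ξ) (e w) = 0 on J and vanishes at ξ₀: it is 0 on J.
-/

set_option linter.unusedSectionVars false

namespace Pool.Agent.Lib.MP_28b8de_an.DD

open Filter Topology Set MeasureTheory
open Pool.Agent.Lib.MP_28b8de_an.PT (Adm Perf)
open Pool.Agent.Lib.MP_28b8de_an.TT (Env Sol Jn Tr SmAt Goal W dx Dn V3 FF GG)

/-- `a ↦ wd a b` -/
private noncomputable def DDir_L (b : ℝ × ℝ) : (ℝ × ℝ) →L[ℝ] ℝ :=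
  b.2 • ContinuousLinearMap.fst ℝ ℝ ℝ - b.1 • ContinuousLinearMap.snd ℝ ℝ ℝ

private theorem DDir_L_apply (a b : ℝ × ℝ) : DDir_L b a = wd a b := by
  simp [DDir_L, wd]
  ring

private theorem DDir_par {a b k : ℝ × ℝ} (hk : k ≠ 0) (ha : wd a k = 0) (hb : wd b k = 0) :
    wd a b = 0 := by
  unfold wd at *
  have h1 : k.1 * (a.1 * b.2 - a.2 * b.1) = 0 := by linear_combination b.1 * ha - a.1 * hb
  have h2 : k.2 * (a.1 * b.2 - a.2 * b.1) = 0 := by linear_combination b.2 * ha - a.2 * hb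
  by_cases h : k.1 = 0
  · have h3 : k.2 ≠ 0 := fun h4 => hk (Prod.ext h h4)
    exact (mul_eq_zero.1 h2).resolve_left h3
  · exact (mul_eq_zero.1 h1).resolve_left h

private theorem DDir_const {a b : ℝ} {g g' : ℝ → ℝ} (hg : ∀ x ∈ Ioo a b, HasDerivAt g (g' x) x)
    (h0 : ∀ x ∈ Ioo a b, g' x = 0) {x y : ℝ} (hx : x ∈ Ioo a b) (hy : y ∈ Ioo a b) (hgx : g x = 0) :
    g y = 0 := by
  have h := (convex_Ioo a b).norm_image_sub_le_of_norm_hasDerivWithin_le (f := g) (f' := g') (C := 0)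
    (fun z hz => (hg z hz).hasDerivWithinAt) (fun z hz => by rw [h0 z hz, norm_zero]) hx hy
  rw [zero_mul, hgx, sub_zero] at h
  exact norm_le_zero_iff.1 h

/-- step (1) -/
private theorem DDir_one {a b : ℝ} {c c' : ℝ → ℝ × ℝ} (hc : AnalyticOnNhd ℝ c (Ioo a b))
    (hc' : ∀ x ∈ Ioo a b, HasDerivAt c (c' x) x) (hw : ∀ x ∈ Ioo a b, wd (c x) (c' x) = 0) {x₁ : ℝ}
    (hx₁ : x₁ ∈ Ioo a b) (h1 : c x₁ ≠ 0) : ∀ x ∈ Ioo a b, wd (c x) (c x₁) = 0 := by
  set k := c x₁ with hk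
  have hB : AnalyticOnNhd ℝ (fun x => DDir_L k (c x)) (Ioo a b) := fun x hx =>
    ((DDir_L k).analyticAt (c x)).comp (hc x hx)
  have hB' : ∀ x ∈ Ioo a b, HasDerivAt (fun x => DDir_L k (c x)) (DDir_L k (c' x)) x := fun x hx =>
    (DDir_L k).hasFDerivAt.comp_hasDerivAt x (hc' x hx)
  set A : (ℝ × ℝ) →L[ℝ] ℝ := k.1 • ContinuousLinearMap.fst ℝ ℝ ℝ + k.2 • ContinuousLinearMap.snd ℝ ℝ ℝ
    with hA
  have hA' : ∀ x ∈ Ioo a b, HasDerivAt (fun x => A (c x)) (A (c' x)) x := fun x hx =>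
    A.hasFDerivAt.comp_hasDerivAt x (hc' x hx)
  have hApos : 0 < A (c x₁) := by
    rw [← hk]
    simp only [hA, ContinuousLinearMap.add_apply, ContinuousLinearMap.smul_apply,
      ContinuousLinearMap.coe_fst', ContinuousLinearMap.coe_snd', smul_eq_mul]
    by_cases h : k.1 = 0
    · have h3 : k.2 ≠ 0 := fun h4 => h1 (Prod.ext h h4)
      have := mul_self_pos.2 h3
      nlinarith [mul_self_nonneg k.1]
    · have := mul_self_pos.2 h
      nlinarith [mul_self_nonneg k.2]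
  have hev : ∀ᶠ x in 𝓝 x₁, 0 < A (c x) ∧ x ∈ Ioo a b := by
    have h2 : ContinuousAt (fun x => A (c x)) x₁ := (hA' x₁ hx₁).continuousAt
    exact (h2.eventually (lt_mem_nhds hApos)).and (isOpen_Ioo.mem_nhds hx₁)
  obtain ⟨l, u, hlu, hsub⟩ := mem_nhds_iff_exists_Ioo_subset.1 hev
  have hzero : ∀ x ∈ Ioo l u, DDir_L k (c x) = 0 := by
    intro x hx
    have h3 : DDir_L k (c x) / A (c x) = 0 := by
      refine DDir_const (a := l) (b := u) (g := fun x => DDir_L k (c x) / A (c x))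
        (fun y hy => ((hB' y (hsub hy).2).fun_div (hA' y (hsub hy).2) (hsub hy).1.ne')) ?_ hlu hx ?_
      · intro y hy
        have h4 := hw y (hsub hy).2
        have h5 : DDir_L k (c' y) * A (c y) - DDir_L k (c y) * A (c' y) = 0 := by
          simp only [DDir_L_apply, hA, ContinuousLinearMap.add_apply, ContinuousLinearMap.smul_apply,
            ContinuousLinearMap.coe_fst', ContinuousLinearMap.coe_snd', smul_eq_mul]
          unfold wd at h4 ⊢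
          linear_combination (-(k.1 ^ 2 + k.2 ^ 2)) * h4
        rw [h5, zero_div]
      · show DDir_L k (c x₁) / A (c x₁) = 0
        rw [← hk, DDir_L_apply]
        have : wd k k = 0 := by unfold wd; ring
        rw [this, zero_div]
    rcases div_eq_zero_iff.1 h3 with h4 | h4
    · exact h4
    · exact absurd h4 (hsub hx).1.ne'
  have hall := hB.eqOn_zero_of_preconnected_of_eventuallyEq_zero isPreconnected_Ioo hx₁
    (by filter_upwards [Ioo_mem_nhds hlu.1 hlu.2] with x hx using hzero x hx)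
  intro x hx
  rw [← DDir_L_apply]
  exact hall hx

/-- a linear relation is preserved by derivatives -/
private theorem DDir_lin {W' : Type*} [NormedAddCommGroup W'] [NormedSpace ℝ W'] {g : W' × ℝ → ℝ × ℝ}
    {w : W'} {a b : ℝ} (hg : ∀ x ∈ Ioo a b, AnalyticAt ℝ g (w, x)) (L : (ℝ × ℝ) →L[ℝ] ℝ)
    (h0 : ∀ x ∈ Ioo a b, L (g (w, x)) = 0) (j : ℕ) : ∀ x ∈ Ioo a b, L (Dn^[j] g (w, x)) = 0 := by
  induction j with
  | zero => exact h0
  | succ j ih =>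
    intro x hx
    rw [Function.iterate_succ_apply']
    have h1 : HasDerivAt (fun x => L (Dn^[j] g (w, x))) (L (Dn (Dn^[j] g) (w, x))) x :=
      L.hasFDerivAt.comp_hasDerivAt x (TT.Dn_slice (TT.Dn_iter_an (hg x hx) j).differentiableAt)
    have h2 : (fun x => L (Dn^[j] g (w, x))) =ᶠ[𝓝 x] fun _ => 0 := by
      filter_upwards [isOpen_Ioo.mem_nhds hx] with y hy using ih y hy
    exact (h1.congr_of_eventuallyEq h2.symm).unique (hasDerivAt_const x (0 : ℝ))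

theorem direction {W' : Type*} [NormedAddCommGroup W'] [NormedSpace ℝ W'] {f : W' × ℝ → ℝ × ℝ}
    {w₀ : W'} {ξ₀ : ℝ} (hf : AnalyticAt ℝ f (w₀, ξ₀))
    (hw : ∀ᶠ p in 𝓝 (w₀, ξ₀), wd (Dn f p) (Dn (Dn f) p) = 0) {j : ℕ}
    (hj : Dn^[j + 1] f (w₀, ξ₀) ≠ 0) :
    ∃ e : W' → ℝ × ℝ, AnalyticAt ℝ e w₀ ∧ e w₀ ≠ 0 ∧
      ∀ᶠ p in 𝓝 (w₀, ξ₀), wd (f p - f (p.1, ξ₀)) (e p.1) = 0 := by
  have he : AnalyticAt ℝ (fun w => Dn^[j + 1] f (w, ξ₀)) w₀ := by
    have h1 : AnalyticAt ℝ (fun w : W' => (w, ξ₀)) w₀ := analyticAt_id.prod analyticAt_const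
    exact AnalyticAt.comp (g := Dn^[j + 1] f) (f := fun w : W' => ((w, ξ₀) : W' × ℝ))
      (TT.Dn_iter_an hf (j + 1)) h1
  refine ⟨fun w => Dn^[j + 1] f (w, ξ₀), he, hj, ?_⟩
  have hne : ∀ᶠ w in 𝓝 w₀, Dn^[j + 1] f (w, ξ₀) ≠ 0 := he.continuousAt.eventually_ne hj
  have hev := hf.eventually_analyticAt.and hw
  rw [nhds_prod_eq] at hev
  obtain ⟨pa, ha, pb, hb, hab⟩ := Filter.eventually_prod_iff.1 hev
  obtain ⟨l, u, hlu, hsub⟩ := mem_nhds_iff_exists_Ioo_subset.1 hb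
  rw [nhds_prod_eq, Filter.eventually_prod_iff]
  refine ⟨fun w => pa w ∧ Dn^[j + 1] f (w, ξ₀) ≠ 0, ha.and hne, fun x => x ∈ Ioo l u,
    Ioo_mem_nhds hlu.1 hlu.2, ?_⟩
  rintro w ⟨hwa, hew⟩ x hx
  have hfan : ∀ y ∈ Ioo l u, AnalyticAt ℝ f (w, y) := fun y hy => (hab hwa (hsub hy)).1
  have hDan : ∀ y ∈ Ioo l u, AnalyticAt ℝ (Dn f) (w, y) := fun y hy => TT.Dn_an (hfan y hy)
  have hcan : AnalyticOnNhd ℝ (fun y => Dn f (w, y)) (Ioo l u) := by
    intro y hy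
    have h2 : AnalyticAt ℝ (fun r : ℝ => (w, r)) y := analyticAt_const.prod analyticAt_id
    exact AnalyticAt.comp (g := Dn f) (f := fun r : ℝ => (w, r)) (hDan y hy) h2
  have hcd : ∀ y ∈ Ioo l u, HasDerivAt (fun y => Dn f (w, y)) (Dn (Dn f) (w, y)) y := fun y hy =>
    TT.Dn_slice (hDan y hy).differentiableAt
  have hwd : ∀ y ∈ Ioo l u, wd (Dn f (w, y)) (Dn (Dn f) (w, y)) = 0 := fun y hy =>
    (hab hwa (hsub hy)).2
  -- a point where the velocity is not zero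
  have hex : ∃ y ∈ Ioo l u, Dn f (w, y) ≠ 0 := by
    by_contra hcon
    push Not at hcon
    apply hew
    rw [Function.iterate_succ_apply]
    refine Prod.ext ?_ ?_
    · exact DDir_lin hDan (ContinuousLinearMap.fst ℝ ℝ ℝ) (fun y hy => by rw [hcon y hy]; simp) j ξ₀ hlu
    · exact DDir_lin hDan (ContinuousLinearMap.snd ℝ ℝ ℝ) (fun y hy => by rw [hcon y hy]; simp) j ξ₀ hlu
  obtain ⟨y₁, hy₁, hny⟩ := hex
  have h1 := DDir_one hcan hcd hwd hy₁ hny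
  have h2 : wd (Dn^[j + 1] f (w, ξ₀)) (Dn f (w, y₁)) = 0 := by
    rw [Function.iterate_succ_apply, ← DDir_L_apply]
    exact DDir_lin hDan (DDir_L (Dn f (w, y₁)))
      (fun y hy => by rw [DDir_L_apply]; exact h1 y hy) j ξ₀ hlu
  have h3 : ∀ y ∈ Ioo l u, wd (Dn f (w, y)) (Dn^[j + 1] f (w, ξ₀)) = 0 := fun y hy =>
    DDir_par hny (h1 y hy) h2
  show wd (f (w, x) - f (w, ξ₀)) (Dn^[j + 1] f (w, ξ₀)) = 0
  rw [← DDir_L_apply]
  refine DDir_const (a := l) (b := u) (g := fun y => DDir_L (Dn^[j + 1] f (w, ξ₀)) (f (w, y) - f (w, ξ₀)))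
    (g' := fun y => DDir_L (Dn^[j + 1] f (w, ξ₀)) (Dn f (w, y))) ?_ ?_ hlu hx ?_
  · intro y hy
    exact (DDir_L (Dn^[j + 1] f (w, ξ₀))).hasFDerivAt.comp_hasDerivAt y
      ((TT.Dn_slice (hfan y hy).differentiableAt).sub_const _)
  · intro y hy
    rw [DDir_L_apply]
    exact h3 y hy
  · simp

end Pool.Agent.Lib.MP_28b8de_an.DD
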