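import Pool.Agent.Lib.MP_28b8de_an.D.DZ
import Pool.Agent.Lib.MP_28b8de_an.D.DLt

/-!
MP_28b8de_an, module DFlat.

Flat velocities on C.
PROOF.  f := sc Fp, f ((t,s),ξ).  s t := (r t).1, ξ t := (r t).2, s₀ := s t₀, ξ₀ := ξ t₀.  Take ρ > 0 with Fp analytic on the ball of radius ρ about (t₀,(s₀,ξ₀)) (sup norm: a product), so f is analytic on U × J, U := ball of radius ρ about (t₀,s₀) in ℝ × (ℝ × ℝ),
J := (ξ₀-ρ, ξ₀+ρ).  By ltraj_hd (l = fst) s has derivative f ((t, s t), ξ t) at t near t₀.  For t ∈ C near t₀: (t,s t) ∈ U, ξ t ∈ J and all Dn^[j] (Dn f) ((t,s t), ξ t) vanish, so Dn f ((t,s t), x) = 0 for x ∈ J (`TT.slice_zero` for the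
components, file T/TDn.lean) and f ((t,s t), x) = f ((t,s t), ξ₀) for x ∈ J; in particular s has derivative H (t, s t), H (t,s) := f ((t,s), ξ₀), at such t.  ode_ex: γ with γ t₀ = s₀, γ' = H (t,γ); interval Ioo b c about t₀ with (t,γ t) ∈ U.
For each x ∈ J zcurve with a z := f (z,x) - f (z,ξ₀): f ((t,γ t),x) = f ((t,γ t),ξ₀) on Ioo b c.  Near t₀: ‖s' - γ'‖ = ‖f ((t,s),ξ) - f ((t,γ),ξ)‖ ≤ K ‖s - γ‖ (f is Lipschitz on a smaller ball), so s = γ near t₀ (Gronwall; `TT.zero_der2` for the two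
components or `TT.zero_near` for ‖s - γ‖).  Output: γ analytic, γ = s near t₀ and HasDerivAt γ (f ((t,γ t),x)) t for (t,x) near (t₀,ξ₀).
-/

set_option linter.unusedSectionVars false

namespace Pool.Agent.Lib.MP_28b8de_an.DD

open Filter Topology Set MeasureTheory
open Pool.Agent.Lib.MP_28b8de_an.PT (Adm Perf)
open Pool.Agent.Lib.MP_28b8de_an.TT (Env Sol Jn Tr SmAt Goal W dx Dn V3 FF GG)

private theorem dflat_iter {W' E E' : Type*} [NormedAddCommGroup W'] [NormedSpace ℝ W'] [NormedAddCommGroup E]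
    [NormedSpace ℝ E] [CompleteSpace E] [NormedAddCommGroup E'] [NormedSpace ℝ E'] (l : E →L[ℝ] E') {g : W' × ℝ → E} (j : ℕ) :
    ∀ p, AnalyticAt ℝ g p → Dn^[j] (fun q => l (g q)) p = l (Dn^[j] g p) := by
  induction j with
  | zero => intro p _; rfl
  | succ j ih =>
    intro p hp
    rw [Function.iterate_succ_apply', Function.iterate_succ_apply']
    have h1 : Dn^[j] (fun q => l (g q)) =ᶠ[𝓝 p] fun q => l (Dn^[j] g q) := by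
      filter_upwards [hp.eventually_analyticAt] with q hq
      exact ih q hq
    have h2 : HasFDerivAt (Dn^[j] g) (fderiv ℝ (Dn^[j] g) p) p :=
      (TT.Dn_iter_an hp j).differentiableAt.hasFDerivAt
    have h3 : HasFDerivAt (fun q => l (Dn^[j] g q)) (l.comp (fderiv ℝ (Dn^[j] g) p)) p :=
      l.hasFDerivAt.comp p h2
    show fderiv ℝ (Dn^[j] fun q => l (g q)) p (0, 1) = l (fderiv ℝ (Dn^[j] g) p (0, 1))
    rw [h1.fderiv_eq, h3.fderiv]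
    rfl

/-- if all derivatives in the last variable vanish at a point, `f` is constant on the segment -/
private theorem dflat_const {W' : Type*} [NormedAddCommGroup W'] [NormedSpace ℝ W'] {f : W' × ℝ → ℝ × ℝ} {v : W'}
    {x₀ ρ : ℝ} (hρ : 0 < ρ) (hf : ∀ x ∈ Ioo (x₀ - ρ) (x₀ + ρ), AnalyticAt ℝ f (v, x))
    (h : ∀ j : ℕ, Dn^[j + 1] f (v, x₀) = 0) :
    ∀ x ∈ Ioo (x₀ - ρ) (x₀ + ρ), ∀ y ∈ Ioo (x₀ - ρ) (x₀ + ρ), f (v, x) = f (v, y) := by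
  have hz : ∀ l : ℝ × ℝ →L[ℝ] ℝ, ∀ x ∈ Ioo (x₀ - ρ) (x₀ + ρ), l (Dn f (v, x)) = 0 := by
    intro l
    refine TT.slice_zero (f := fun q => l (Dn f q)) hρ ?_ ?_
    · intro x hx
      exact (l.analyticAt _).comp (TT.Dn_an (hf x hx))
    · intro j
      rw [dflat_iter l j _ (TT.Dn_an (hf x₀ ⟨by linarith, by linarith⟩)), ← Function.iterate_succ_apply, h j, map_zero]
  have hd : ∀ x ∈ Ioo (x₀ - ρ) (x₀ + ρ), HasDerivAt (fun x => f (v, x)) 0 x := by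
    intro x hx
    have h1 := TT.Dn_slice (hf x hx).differentiableAt
    have h2 : Dn f (v, x) = 0 := Prod.ext (hz (ContinuousLinearMap.fst ℝ ℝ ℝ) x hx) (hz (ContinuousLinearMap.snd ℝ ℝ ℝ) x hx)
    rwa [h2] at h1
  intro x hx y hy
  exact isOpen_Ioo.is_const_of_deriv_eq_zero isPreconnected_Ioo
    (fun z hz' => (hd z hz').differentiableAt.differentiableWithinAt) (fun z hz' => (hd z hz').deriv) hx hy

theorem flat {Fp : ℝ × P3 → P3} {u : ℝ → ℝ} (hu : Adm u) {r : ℝ → P3} {t₀ : ℝ}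
    (hF : AnalyticAt ℝ Fp (t₀, r t₀)) (hr : LTraj Fp ee u r t₀) {T : ℝ} {C : Set ℝ}
    (hC : Perf T C) (ht₀ : t₀ ∈ C)
    (hflat : ∀ᶠ t in 𝓝 t₀, t ∈ C → ∀ j : ℕ, Dn^[j + 1] (sc Fp) ((t, (r t).1), (r t).2) = 0) :
    ∃ γ : ℝ → ℝ × ℝ, AnalyticAt ℝ γ t₀ ∧ (∀ᶠ t in 𝓝 t₀, (r t).1 = γ t) ∧
      ∀ᶠ p in 𝓝 (t₀, (r t₀).2), HasDerivAt γ (Fp (p.1, (γ p.1, p.2))).1 p.1 := by
  -- analyticity of the field near the point
  obtain ⟨ρ₀, hρ₀, hρa⟩ := Metric.eventually_nhds_iff_ball.1 hF.eventually_analyticAt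
  set s₀ : ℝ × ℝ := (r t₀).1 with hs₀
  set ξ₀ : ℝ := (r t₀).2 with hξ₀
  have hFa : ∀ (t : ℝ) (s : ℝ × ℝ) (x : ℝ), |t - t₀| < ρ₀ → ‖s - s₀‖ < ρ₀ → |x - ξ₀| < ρ₀ →
      AnalyticAt ℝ Fp (t, (s, x)) := by
    intro t s x h1 h2 h3
    apply hρa
    rw [Metric.mem_ball, Prod.dist_eq, Prod.dist_eq]
    refine max_lt ?_ (max_lt ?_ ?_)
    · rw [Real.dist_eq]; exact h1
    · rw [dist_eq_norm]; exact h2
    · rw [Real.dist_eq]; exact h3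
  have hfa : ∀ (t : ℝ) (s : ℝ × ℝ) (x : ℝ), |t - t₀| < ρ₀ → ‖s - s₀‖ < ρ₀ → |x - ξ₀| < ρ₀ →
      AnalyticAt ℝ (sc Fp) ((t, s), x) := by
    intro t s x h1 h2 h3
    have e1 : AnalyticAt ℝ (fun p : (ℝ × ℝ × ℝ) × ℝ => ((p.1.1, (p.1.2, p.2)) : ℝ × P3)) ((t, s), x) := by
      have a1 : AnalyticAt ℝ (fun p : (ℝ × ℝ × ℝ) × ℝ => p.1) ((t, s), x) := analyticAt_fst
      have a2 : AnalyticAt ℝ (fun p : (ℝ × ℝ × ℝ) × ℝ => p.2) ((t, s), x) := analyticAt_snd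
      have a3 : AnalyticAt ℝ (fun p : (ℝ × ℝ × ℝ) × ℝ => p.1.1) ((t, s), x) := analyticAt_fst.comp a1
      have a4 : AnalyticAt ℝ (fun p : (ℝ × ℝ × ℝ) × ℝ => p.1.2) ((t, s), x) := analyticAt_snd.comp a1
      exact a3.prod (a4.prod a2)
    have e2 : AnalyticAt ℝ (fun p : (ℝ × ℝ × ℝ) × ℝ => Fp (p.1.1, (p.1.2, p.2))) ((t, s), x) :=
      AnalyticAt.comp (f := fun p : (ℝ × ℝ × ℝ) × ℝ => ((p.1.1, (p.1.2, p.2)) : ℝ × P3)) (hFa t s x h1 h2 h3) e1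
    exact ((ContinuousLinearMap.fst ℝ (ℝ × ℝ) ℝ).analyticAt _).comp e2
  obtain ⟨ρ, hρ, hρ3⟩ : ∃ ρ : ℝ, 0 < ρ ∧ 3 * ρ ≤ ρ₀ := ⟨ρ₀ / 3, by positivity, by linarith⟩
  -- the curve
  have hrc : ContinuousAt r t₀ := (ltraj_cont hr).self_of_nhds
  have hd := ltraj_hd hu hr (ContinuousLinearMap.fst ℝ (ℝ × ℝ) ℝ) hF analyticAt_const
    (Filter.Eventually.of_forall fun z => rfl)
  have hsc : ContinuousAt (fun t => (r t).1) t₀ := hrc.fst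
  have hxc : ContinuousAt (fun t => (r t).2) t₀ := hrc.snd
  have ev1 : ∀ᶠ t in 𝓝 t₀, ‖(r t).1 - s₀‖ < ρ := by
    have := hsc (Metric.ball_mem_nhds _ hρ)
    filter_upwards [this] with t ht
    rw [← dist_eq_norm]; exact ht
  have ev2 : ∀ᶠ t in 𝓝 t₀, |(r t).2 - ξ₀| < ρ := by
    have := hxc (Metric.ball_mem_nhds _ hρ)
    filter_upwards [this] with t ht
    rw [← Real.dist_eq]; exact ht
  have ev3 : ∀ᶠ t in 𝓝 t₀, |t - t₀| < ρ := by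
    filter_upwards [Metric.ball_mem_nhds t₀ hρ] with t ht
    rw [← Real.dist_eq]; exact ht
  obtain ⟨ε, hε, hεb⟩ := Metric.eventually_nhds_iff_ball.1 ((((hflat.and hd).and ev1).and ev2).and ev3)
  -- the field on the slice
  set H : ℝ × ℝ × ℝ → ℝ × ℝ := fun z => sc Fp (z, ξ₀) with hH
  set U : Set (ℝ × ℝ × ℝ) := Metric.ball (t₀, s₀) ρ₀ with hU
  have hUm : ∀ (t : ℝ) (s : ℝ × ℝ), (t, s) ∈ U ↔ |t - t₀| < ρ₀ ∧ ‖s - s₀‖ < ρ₀ := by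
    intro t s
    rw [hU, Metric.mem_ball, Prod.dist_eq, max_lt_iff, Real.dist_eq, dist_eq_norm]
  have hsl : ∀ x : ℝ, |x - ξ₀| < ρ₀ → AnalyticOnNhd ℝ (fun z : ℝ × ℝ × ℝ => sc Fp (z, x)) U := by
    rintro x hx ⟨t, s⟩ hz
    obtain ⟨h1, h2⟩ := (hUm t s).1 hz
    exact AnalyticAt.comp (f := fun z : ℝ × ℝ × ℝ => (z, x)) (hfa t s x h1 h2 hx)
      (analyticAt_id.prod analyticAt_const)
  have hx0 : |ξ₀ - ξ₀| < ρ₀ := by rw [sub_self, abs_zero]; exact hρ₀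
  have hHa : AnalyticOnNhd ℝ H U := hsl ξ₀ hx0
  have hU0 : (t₀, s₀) ∈ U := (hUm _ _).2 ⟨by simpa using hρ₀, by simpa using hρ₀⟩
  obtain ⟨γ, hγa, hγ0, hγd⟩ := ode_ex (hHa _ hU0)
  -- constancy on the slices over C
  have hconst : ∀ t ∈ C, |t - t₀| < ε → ∀ x, |x - ξ₀| < ρ →
      sc Fp ((t, (r t).1), x) = H (t, (r t).1) ∧ sc Fp ((t, (r t).1), (r t).2) = H (t, (r t).1) := by
    intro t ht hte x hx
    obtain ⟨⟨⟨⟨h1, -⟩, h2⟩, h3⟩, h4⟩ := hεb t (by rw [Metric.mem_ball, Real.dist_eq]; exact hte)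
    have key := dflat_const (f := sc Fp) (v := (t, (r t).1)) (x₀ := (r t).2) (ρ := 2 * ρ) (by linarith) (by
      intro y hy
      apply hfa t _ y (by linarith) (by linarith)
      obtain ⟨a1, a2⟩ := abs_lt.1 h3
      rw [abs_lt]
      exact ⟨by linarith [hy.1], by linarith [hy.2]⟩) (h1 ht)
    obtain ⟨a1, a2⟩ := abs_lt.1 h3
    obtain ⟨b1, b2⟩ := abs_lt.1 hx
    have m0 : ξ₀ ∈ Ioo ((r t).2 - 2 * ρ) ((r t).2 + 2 * ρ) := ⟨by linarith, by linarith⟩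
    exact ⟨key x ⟨by linarith, by linarith⟩ ξ₀ m0, key _ ⟨by linarith, by linarith⟩ ξ₀ m0⟩
  -- the interval for γ
  have hγc : ContinuousAt γ t₀ := hγa.continuousAt
  have ev4 : ∀ᶠ t in 𝓝 t₀, ‖γ t - s₀‖ < ρ := by
    have := hγc (Metric.ball_mem_nhds _ hρ)
    filter_upwards [this] with t ht
    rw [← dist_eq_norm, ← hγ0]; exact ht
  obtain ⟨δ, hδ, hδb⟩ := Metric.eventually_nhds_iff_ball.1 ((hγd.and ev4).and ev3)
  have hball : ∀ t, t ∈ Ioo (t₀ - δ) (t₀ + δ) ↔ t ∈ Metric.ball t₀ δ := by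
    intro t
    rw [Real.ball_eq_Ioo]
  have hγU : ∀ t ∈ Ioo (t₀ - δ) (t₀ + δ), (t, γ t) ∈ U ∧ HasDerivAt γ (H (t, γ t)) t := by
    intro t ht
    obtain ⟨⟨h1, h2⟩, h3⟩ := hδb t ((hball t).1 ht)
    exact ⟨(hUm _ _).2 ⟨by linarith, by linarith⟩, h1⟩
  -- constancy along γ
  have hγx : ∀ x, |x - ξ₀| < ρ → ∀ t ∈ Ioo (t₀ - δ) (t₀ + δ), sc Fp ((t, γ t), x) = H (t, γ t) := by
    intro x hx t ht
    have key := zcurve (U := U) Metric.isOpen_ball (H := H) (a := fun z => sc Fp (z, x) - H z) hHa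
      ((hsl x (by linarith)).sub hHa) hC ht₀ hε (y := fun t => (r t).1) (by
        intro t ht hte
        obtain ⟨⟨⟨⟨-, h1⟩, h2⟩, h3⟩, h4⟩ := hεb t (by rw [Metric.mem_ball, Real.dist_eq]; exact hte)
        obtain ⟨c1, c2⟩ := hconst t ht hte x hx
        refine ⟨(hUm _ _).2 ⟨by linarith, by linarith⟩, ?_, ?_⟩
        · rw [← c2]; exact h1
        · show sc Fp ((t, (r t).1), x) - H (t, (r t).1) = 0
          rw [c1, sub_self]) (b := t₀ - δ) (c := t₀ + δ) ⟨by linarith, by linarith⟩ hγU hγ0 t ht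
    exact sub_eq_zero.1 key
  -- uniqueness
  have hLip : ∃ K : NNReal, ∃ N ∈ 𝓝 (((t₀, s₀), ξ₀) : (ℝ × ℝ × ℝ) × ℝ), LipschitzOnWith K (sc Fp) N := by
    have h1 : AnalyticAt ℝ (sc Fp) ((t₀, s₀), ξ₀) := hfa t₀ s₀ ξ₀ (by simpa using hρ₀) (by simpa using hρ₀) hx0
    exact h1.contDiffAt.exists_lipschitzOnWith
  obtain ⟨K, N, hN, hKN⟩ := hLip
  have ct1 : ContinuousAt (fun t : ℝ => (((t, (r t).1), (r t).2) : (ℝ × ℝ × ℝ) × ℝ)) t₀ :=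
    (continuousAt_id.prodMk hsc).prodMk hxc
  have ct2 : ContinuousAt (fun t : ℝ => (((t, γ t), (r t).2) : (ℝ × ℝ × ℝ) × ℝ)) t₀ :=
    (continuousAt_id.prodMk hγc).prodMk hxc
  have ev5 : ∀ᶠ t in 𝓝 t₀, (((t, (r t).1), (r t).2) : (ℝ × ℝ × ℝ) × ℝ) ∈ N := ct1 hN
  have ev6 : ∀ᶠ t in 𝓝 t₀, (((t, γ t), (r t).2) : (ℝ × ℝ × ℝ) × ℝ) ∈ N := by
    refine ct2 ?_
    show N ∈ 𝓝 (((t₀, γ t₀), (r t₀).2) : (ℝ × ℝ × ℝ) × ℝ)
    rw [hγ0]; exact hN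
  have hev : ∀ᶠ t in 𝓝 t₀, HasDerivAt (fun t => (r t).1.1 - (γ t).1)
        ((sc Fp ((t, (r t).1), (r t).2)).1 - (sc Fp ((t, γ t), (r t).2)).1) t ∧
      HasDerivAt (fun t => (r t).1.2 - (γ t).2)
        ((sc Fp ((t, (r t).1), (r t).2)).2 - (sc Fp ((t, γ t), (r t).2)).2) t ∧
      |(sc Fp ((t, (r t).1), (r t).2)).1 - (sc Fp ((t, γ t), (r t).2)).1| ≤
        K * (|(r t).1.1 - (γ t).1| + |(r t).1.2 - (γ t).2|) ∧
      |(sc Fp ((t, (r t).1), (r t).2)).2 - (sc Fp ((t, γ t), (r t).2)).2| ≤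
        K * (|(r t).1.1 - (γ t).1| + |(r t).1.2 - (γ t).2|) := by
    filter_upwards [hd, ev2, ev5, ev6, Ioo_mem_nhds (show t₀ - δ < t₀ by linarith) (show t₀ < t₀ + δ by linarith)]
      with t h1 h2 h5 h6 h7
    have h8 : HasDerivAt γ (sc Fp ((t, γ t), (r t).2)) t := by
      rw [hγx _ h2 t h7]; exact (hγU t h7).2
    have h1' : HasDerivAt (fun t => (r t).1) (sc Fp ((t, (r t).1), (r t).2)) t := h1
    have f1 := (ContinuousLinearMap.fst ℝ ℝ ℝ).hasFDerivAt.comp_hasDerivAt t (h1'.sub h8)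
    have f2 := (ContinuousLinearMap.snd ℝ ℝ ℝ).hasFDerivAt.comp_hasDerivAt t (h1'.sub h8)
    have hL := hKN.dist_le_mul _ h5 _ h6
    have hD : dist (((t, (r t).1), (r t).2) : (ℝ × ℝ × ℝ) × ℝ) ((t, γ t), (r t).2) ≤
        |(r t).1.1 - (γ t).1| + |(r t).1.2 - (γ t).2| := by
      rw [Prod.dist_eq, Prod.dist_eq, Prod.dist_eq, dist_self, dist_self, Real.dist_eq, Real.dist_eq]
      have p1 := abs_nonneg ((r t).1.1 - (γ t).1)
      have p2 := abs_nonneg ((r t).1.2 - (γ t).2)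
      refine max_le (max_le (by linarith) (max_le (by linarith) (by linarith))) (by linarith)
    have hL2 : dist (sc Fp ((t, (r t).1), (r t).2)) (sc Fp ((t, γ t), (r t).2)) ≤
        K * (|(r t).1.1 - (γ t).1| + |(r t).1.2 - (γ t).2|) :=
      hL.trans (mul_le_mul_of_nonneg_left hD K.2)
    rw [Prod.dist_eq, Real.dist_eq, Real.dist_eq] at hL2
    exact ⟨f1, f2, (le_max_left _ _).trans hL2, (le_max_right _ _).trans hL2⟩
  have hz := TT.zero_der2 (by rw [hγ0, ← hs₀, sub_self]) (by rw [hγ0, ← hs₀, sub_self]) hev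
  refine ⟨γ, hγa, ?_, ?_⟩
  · filter_upwards [hz] with t ht
    exact Prod.ext (sub_eq_zero.1 ht.1) (sub_eq_zero.1 ht.2)
  · have e1 : ∀ᶠ p : ℝ × ℝ in 𝓝 (t₀, ξ₀), p.1 ∈ Ioo (t₀ - δ) (t₀ + δ) :=
      continuousAt_fst.eventually (Ioo_mem_nhds (show t₀ - δ < t₀ by linarith) (show t₀ < t₀ + δ by linarith))
    have e2 : ∀ᶠ p : ℝ × ℝ in 𝓝 (t₀, ξ₀), p.2 ∈ Ioo (ξ₀ - ρ) (ξ₀ + ρ) :=
      continuousAt_snd.eventually (Ioo_mem_nhds (show ξ₀ - ρ < ξ₀ by linarith) (show ξ₀ < ξ₀ + ρ by linarith))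
    filter_upwards [e1, e2] with p h1 h2
    have h3 := hγx p.2 (by rw [abs_lt]; exact ⟨by linarith [h2.1], by linarith [h2.2]⟩) p.1 h1
    have h4 : (Fp (p.1, (γ p.1, p.2))).1 = H (p.1, γ p.1) := h3
    rw [h4]
    exact (hγU p.1 h1).2

end Pool.Agent.Lib.MP_28b8de_an.DD
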