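import Pool.Agent.Lib.MP_28b8de_an.D.DDefs
import Pool.Agent.Lib.MP_28b8de_an.T.TOdeAn
import Pool.Agent.Lib.MP_28b8de_an.T.TNem

/-!
MP_28b8de_an, module DFlow.

Analytic flows.
PROOF.  (See T/TOdeAn.lean, `ode_an`, for the same technique, with `nemytskii` of T/TNem.lean and the analytic implicit function theorem of Mathlib.)  C := C([0,1],X), I : C →L C integration from 0 (define it as in
TOdeAn), N₀ k := N (0, k) with N from nemytskii for (t,x) ↦ v x at (0,x₀): analytic at 0, N₀ k τ = v (x₀ + k τ) for small k.  Ψ ((ε,x),k) := k - const (x - x₀) - ε • I (N₀ k) : (ℝ × X) × C → C analytic at ((0,x₀),0),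
= 0 there, derivative in k = identity.  Implicit function K (ε,x), analytic at (0,x₀), K = 0 there, with Ψ = 0 near, and uniqueness near.  Φ (ε,x) := x₀ + K (ε,x) 1.
For small (ε,x): K (0,x) = const (x - x₀), so Φ (0,x) = x.  For σ ∈ [0,1] the function τ ↦ K (ε,x) (σ τ) solves the equation of (σ ε, x) (substitution in the integral), so by uniqueness Φ (σ ε, x) = x₀ + K (ε,x) σ
= x + ε ∫_0^σ v (x₀ + K (ε,x) ρ) dρ = x + ε ∫_0^σ v (Φ (ρ ε, x)) dρ, uniformly for (ε,x) in a neighbourhood of (0,x₀).  Differentiate in σ for 0 < σ < 1: Φ (·,x) has derivative v (Φ (τ,x)) at τ = σ ε ≠ 0;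
at τ = 0 by continuity of the derivative (Φ is analytic) or directly.
-/

set_option linter.unusedSectionVars false

namespace Pool.Agent.Lib.MP_28b8de_an.DD

open Filter Topology Set MeasureTheory
open Pool.Agent.Lib.MP_28b8de_an.PT (Adm Perf)
open Pool.Agent.Lib.MP_28b8de_an.TT (Env Sol Jn Tr SmAt Goal W dx Dn V3 FF GG)

/-- the integration operator -/
private noncomputable def DFlow_int (E : Type*) [NormedAddCommGroup E] [NormedSpace ℝ E] :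
    C(Icc (0 : ℝ) 1, E) →L[ℝ] C(Icc (0 : ℝ) 1, E) :=
  LinearMap.mkContinuous
    { toFun := fun g => ⟨fun τ => ∫ σ in (0 : ℝ)..τ, IccExtend zero_le_one g σ, by
        have h1 : Continuous (IccExtend (zero_le_one (α := ℝ)) g) := g.continuous.Icc_extend'
        exact (intervalIntegral.continuous_primitive (fun a b => h1.intervalIntegrable a b) 0).comp
          continuous_subtype_val⟩
      map_add' := by
        intro f g
        ext τ
        have hf : Continuous (IccExtend (zero_le_one (α := ℝ)) f) := f.continuous.Icc_extend'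
        have hg : Continuous (IccExtend (zero_le_one (α := ℝ)) g) := g.continuous.Icc_extend'
        change (∫ σ in (0 : ℝ)..τ, IccExtend zero_le_one (f + g) σ) =
          (∫ σ in (0 : ℝ)..τ, IccExtend zero_le_one f σ) + ∫ σ in (0 : ℝ)..τ, IccExtend zero_le_one g σ
        rw [← intervalIntegral.integral_add (hf.intervalIntegrable _ _) (hg.intervalIntegrable _ _)]
        rfl
      map_smul' := by
        intro c f
        ext τ
        change (∫ σ in (0 : ℝ)..τ, IccExtend zero_le_one (c • f) σ) =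
          c • ∫ σ in (0 : ℝ)..τ, IccExtend zero_le_one f σ
        rw [← intervalIntegral.integral_smul]
        rfl }
    1 (by
      intro g
      rw [one_mul, ContinuousMap.norm_le _ (norm_nonneg g)]
      intro τ
      have h1 := intervalIntegral.norm_integral_le_of_norm_le_const (a := (0 : ℝ)) (b := (τ : ℝ)) (C := ‖g‖)
        (f := IccExtend (zero_le_one (α := ℝ)) g) (fun x _ => g.norm_coe_le_norm _)
      refine h1.trans ?_
      have h2 : |(τ : ℝ) - 0| ≤ 1 := by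
        rw [sub_zero, abs_of_nonneg τ.2.1]
        exact τ.2.2
      calc ‖g‖ * |(τ : ℝ) - 0| ≤ ‖g‖ * 1 := mul_le_mul_of_nonneg_left h2 (norm_nonneg g)
        _ = ‖g‖ := mul_one _)

private theorem DFlow_int_apply {E : Type*} [NormedAddCommGroup E] [NormedSpace ℝ E]
    (g : C(Icc (0 : ℝ) 1, E)) (τ : Icc (0 : ℝ) 1) :
    DFlow_int E g τ = ∫ σ in (0 : ℝ)..τ, IccExtend zero_le_one g σ := rfl

/-- constant functions -/
private noncomputable def DFlow_cst (E : Type*) [NormedAddCommGroup E] [NormedSpace ℝ E] :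
    E →L[ℝ] C(Icc (0 : ℝ) 1, E) :=
  LinearMap.mkContinuous
    { toFun := fun x => ContinuousMap.const _ x
      map_add' := by
        intro x y
        ext τ
        rfl
      map_smul' := by
        intro c x
        ext τ
        rfl }
    1 (by
      intro x
      rw [one_mul, ContinuousMap.norm_le _ (norm_nonneg x)]
      intro τ
      exact le_refl _)

private theorem DFlow_cst_apply {E : Type*} [NormedAddCommGroup E] [NormedSpace ℝ E] (x : E) (τ : Icc (0 : ℝ) 1) :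
    DFlow_cst E x τ = x := rfl

/-- the scaled function -/
private noncomputable def DFlow_sc {E : Type*} [NormedAddCommGroup E] [NormedSpace ℝ E]
    (k : C(Icc (0 : ℝ) 1, E)) (σ : Icc (0 : ℝ) 1) : C(Icc (0 : ℝ) 1, E) :=
  ⟨fun τ => k ⟨(σ : ℝ) * (τ : ℝ), mul_nonneg σ.2.1 τ.2.1, mul_le_one₀ σ.2.2 τ.2.1 τ.2.2⟩,
    k.continuous.comp (Continuous.subtype_mk (continuous_const.mul continuous_subtype_val) _)⟩

private theorem DFlow_sc_norm {E : Type*} [NormedAddCommGroup E] [NormedSpace ℝ E]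
    (k : C(Icc (0 : ℝ) 1, E)) (σ : Icc (0 : ℝ) 1) : ‖DFlow_sc k σ‖ ≤ ‖k‖ := by
  rw [ContinuousMap.norm_le _ (norm_nonneg k)]
  intro τ
  exact k.norm_coe_le_norm _

/-- the scaled solution solves the scaled equation -/
private theorem DFlow_scale {X : Type*} [NormedAddCommGroup X] [NormedSpace ℝ X] [CompleteSpace X] {v : X → X}
    {x₀ x : X} {ε : ℝ} {k M Mσ : C(Icc (0 : ℝ) 1, X)} {σ : Icc (0 : ℝ) 1}
    (hk : ∀ τ : Icc (0 : ℝ) 1, k τ = (x - x₀) + ε • ∫ ρ in (0 : ℝ)..τ, IccExtend zero_le_one M ρ)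
    (hM : ∀ τ, M τ = v (x₀ + k τ)) (hMσ : ∀ τ, Mσ τ = v (x₀ + DFlow_sc k σ τ)) (τ : Icc (0 : ℝ) 1) :
    DFlow_sc k σ τ = (x - x₀) + ((σ : ℝ) * ε) • ∫ ρ in (0 : ℝ)..τ, IccExtend zero_le_one Mσ ρ := by
  have h1 : DFlow_sc k σ τ = (x - x₀) + ε • ∫ ρ in (0 : ℝ)..((σ : ℝ) * (τ : ℝ)), IccExtend zero_le_one M ρ :=
    hk ⟨(σ : ℝ) * (τ : ℝ), mul_nonneg σ.2.1 τ.2.1, mul_le_one₀ σ.2.2 τ.2.1 τ.2.2⟩
  rw [h1]
  congr 1
  have h2 : (∫ ρ in (0 : ℝ)..τ, IccExtend zero_le_one Mσ ρ) = ∫ ρ in (0 : ℝ)..τ, IccExtend zero_le_one M ((σ : ℝ) * ρ) := by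
    refine intervalIntegral.integral_congr ?_
    intro ρ hρ
    rw [uIcc_of_le τ.2.1] at hρ
    have hρ1 : ρ ∈ Icc (0 : ℝ) 1 := ⟨hρ.1, hρ.2.trans τ.2.2⟩
    have hρ2 : (σ : ℝ) * ρ ∈ Icc (0 : ℝ) 1 := ⟨mul_nonneg σ.2.1 hρ1.1, mul_le_one₀ σ.2.2 hρ1.1 hρ1.2⟩
    show IccExtend zero_le_one Mσ ρ = IccExtend zero_le_one M ((σ : ℝ) * ρ)
    rw [IccExtend_of_mem _ _ hρ1, IccExtend_of_mem _ _ hρ2, hM, hMσ]
    rfl
  have h3 := intervalIntegral.smul_integral_comp_mul_left (a := (0 : ℝ)) (b := (τ : ℝ)) (IccExtend (zero_le_one (α := ℝ)) M) (σ : ℝ)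
  rw [mul_zero] at h3
  rw [h2, ← h3, smul_smul, mul_comm]

theorem flow_an {X : Type*} [NormedAddCommGroup X] [NormedSpace ℝ X] [CompleteSpace X] {v : X → X}
    {x₀ : X} (hv : AnalyticAt ℝ v x₀) :
    ∃ Φ : ℝ × X → X, AnalyticAt ℝ Φ (0, x₀) ∧ (∀ᶠ x in 𝓝 x₀, Φ (0, x) = x) ∧
      ∀ᶠ p in 𝓝 ((0 : ℝ), x₀), fderiv ℝ Φ p (1, 0) = v (Φ p) := by
  classical
  have hv2 : AnalyticAt ℝ (fun p : ℝ × X => v p.2) ((0 : ℝ), x₀) :=
    AnalyticAt.comp (f := fun p : ℝ × X => p.2) hv analyticAt_snd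
  obtain ⟨N, hN, hNe⟩ := TT.nemytskii hv2
  obtain ⟨I, hI⟩ : ∃ I, I = DFlow_int X := ⟨_, rfl⟩
  obtain ⟨J, hJ⟩ : ∃ J : C(Icc (0 : ℝ) 1, X) → C(Icc (0 : ℝ) 1, X), J = fun k => N (0, k) := ⟨_, rfl⟩
  have hJa : AnalyticAt ℝ J 0 := by
    rw [hJ]
    have h1 : AnalyticAt ℝ (fun k : C(Icc (0 : ℝ) 1, X) => ((0 : ℝ), k)) 0 := analyticAt_const.prod analyticAt_id
    exact AnalyticAt.comp (f := fun k : C(Icc (0 : ℝ) 1, X) => ((0 : ℝ), k)) hN h1
  have hJe : ∀ᶠ k in 𝓝 (0 : C(Icc (0 : ℝ) 1, X)), ∀ τ : Icc (0 : ℝ) 1, J k τ = v (x₀ + k τ) := by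
    have h1 : Tendsto (fun k : C(Icc (0 : ℝ) 1, X) => ((0 : ℝ), k)) (𝓝 0) (𝓝 (0 : ℝ × C(Icc (0 : ℝ) 1, X))) := by
      have : Continuous (fun k : C(Icc (0 : ℝ) 1, X) => ((0 : ℝ), k)) := by fun_prop
      exact this.tendsto 0
    filter_upwards [h1.eventually hNe] with k hk τ
    rw [hJ]
    exact hk τ
  obtain ⟨Ψ, hΨ⟩ : ∃ Ψ : (ℝ × X) × C(Icc (0 : ℝ) 1, X) → C(Icc (0 : ℝ) 1, X),
      Ψ = fun p => p.2 - DFlow_cst X (p.1.2 - x₀) - p.1.1 • I (J p.2) := ⟨_, rfl⟩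
  have hIJ : AnalyticAt ℝ (fun p : (ℝ × X) × C(Icc (0 : ℝ) 1, X) => I (J p.2)) (((0 : ℝ), x₀), (0 : C(Icc (0 : ℝ) 1, X))) := by
    have h1 : AnalyticAt ℝ (fun p : (ℝ × X) × C(Icc (0 : ℝ) 1, X) => J p.2) (((0 : ℝ), x₀), (0 : C(Icc (0 : ℝ) 1, X))) :=
      AnalyticAt.comp (f := fun p : (ℝ × X) × C(Icc (0 : ℝ) 1, X) => p.2) hJa analyticAt_snd
    exact (I.analyticAt _).comp h1
  have h11 : AnalyticAt ℝ (fun p : (ℝ × X) × C(Icc (0 : ℝ) 1, X) => p.1.1) (((0 : ℝ), x₀), (0 : C(Icc (0 : ℝ) 1, X))) :=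
    AnalyticAt.comp (f := fun p : (ℝ × X) × C(Icc (0 : ℝ) 1, X) => p.1) (g := fun q : ℝ × X => q.1) analyticAt_fst analyticAt_fst
  have h12 : AnalyticAt ℝ (fun p : (ℝ × X) × C(Icc (0 : ℝ) 1, X) => p.1.2) (((0 : ℝ), x₀), (0 : C(Icc (0 : ℝ) 1, X))) :=
    AnalyticAt.comp (f := fun p : (ℝ × X) × C(Icc (0 : ℝ) 1, X) => p.1) (g := fun q : ℝ × X => q.2) analyticAt_snd analyticAt_fst
  have hΨa : AnalyticAt ℝ Ψ (((0 : ℝ), x₀), (0 : C(Icc (0 : ℝ) 1, X))) := by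
    rw [hΨ]
    have h2 : AnalyticAt ℝ (fun p : (ℝ × X) × C(Icc (0 : ℝ) 1, X) => DFlow_cst X (p.1.2 - x₀)) (((0 : ℝ), x₀), (0 : C(Icc (0 : ℝ) 1, X))) :=
      ((DFlow_cst X).analyticAt _).comp (h12.sub analyticAt_const)
    exact (analyticAt_snd.sub h2).sub (h11.smul hIJ)
  have hΨ0 : Ψ (((0 : ℝ), x₀), 0) = 0 := by
    rw [hΨ]
    simp
  have hΨd : HasFDerivAt Ψ (ContinuousLinearMap.snd ℝ (ℝ × X) C(Icc (0 : ℝ) 1, X) -
      (DFlow_cst X) ∘L ((ContinuousLinearMap.snd ℝ ℝ X) ∘L (ContinuousLinearMap.fst ℝ (ℝ × X) C(Icc (0 : ℝ) 1, X))) -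
      ((ContinuousLinearMap.fst ℝ ℝ X) ∘L (ContinuousLinearMap.fst ℝ (ℝ × X) C(Icc (0 : ℝ) 1, X))).smulRight (I (J 0)))
      (((0 : ℝ), x₀), (0 : C(Icc (0 : ℝ) 1, X))) := by
    rw [hΨ]
    have h1 : HasFDerivAt (fun p : (ℝ × X) × C(Icc (0 : ℝ) 1, X) => p.1.1)
        ((ContinuousLinearMap.fst ℝ ℝ X) ∘L (ContinuousLinearMap.fst ℝ (ℝ × X) C(Icc (0 : ℝ) 1, X)))
        (((0 : ℝ), x₀), (0 : C(Icc (0 : ℝ) 1, X))) :=
      ((ContinuousLinearMap.fst ℝ ℝ X) ∘L (ContinuousLinearMap.fst ℝ (ℝ × X) C(Icc (0 : ℝ) 1, X))).hasFDerivAt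
    have h2 := hIJ.differentiableAt.hasFDerivAt
    have h3 : HasFDerivAt (fun p : (ℝ × X) × C(Icc (0 : ℝ) 1, X) => DFlow_cst X (p.1.2 - x₀))
        ((DFlow_cst X) ∘L ((ContinuousLinearMap.snd ℝ ℝ X) ∘L (ContinuousLinearMap.fst ℝ (ℝ × X) C(Icc (0 : ℝ) 1, X))))
        (((0 : ℝ), x₀), (0 : C(Icc (0 : ℝ) 1, X))) := by
      have h4 : HasFDerivAt (fun p : (ℝ × X) × C(Icc (0 : ℝ) 1, X) => p.1.2 - x₀)
          ((ContinuousLinearMap.snd ℝ ℝ X) ∘L (ContinuousLinearMap.fst ℝ (ℝ × X) C(Icc (0 : ℝ) 1, X)))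
          (((0 : ℝ), x₀), (0 : C(Icc (0 : ℝ) 1, X))) :=
        (((ContinuousLinearMap.snd ℝ ℝ X) ∘L (ContinuousLinearMap.fst ℝ (ℝ × X) C(Icc (0 : ℝ) 1, X))).hasFDerivAt).sub_const x₀
      exact (DFlow_cst X).hasFDerivAt.comp _ h4
    have h5 := ((hasFDerivAt_snd (𝕜 := ℝ) (p := (((0 : ℝ), x₀), (0 : C(Icc (0 : ℝ) 1, X))))).sub h3).sub (h1.smul h2)
    refine h5.congr_fderiv ?_
    simp
  have hc : ContDiffAt ℝ (⊤ : WithTop ℕ∞) Ψ (((0 : ℝ), x₀), (0 : C(Icc (0 : ℝ) 1, X))) := hΨa.contDiffAt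
  have pn : (⊤ : WithTop ℕ∞) ≠ 0 := by simp
  have hinv : (fderiv ℝ Ψ (((0 : ℝ), x₀), (0 : C(Icc (0 : ℝ) 1, X))) ∘L .inr ℝ (ℝ × X) C(Icc (0 : ℝ) 1, X)).IsInvertible := by
    refine ⟨ContinuousLinearEquiv.refl ℝ _, ?_⟩
    rw [hΨd.fderiv]
    ext k τ
    simp
  obtain ⟨K, hK⟩ : ∃ K, K = hc.implicitFunction pn hinv := ⟨_, rfl⟩
  have hKa : AnalyticAt ℝ K ((0 : ℝ), x₀) := by
    rw [hK]
    exact (hc.contDiffAt_implicitFunction pn hinv).analyticAt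
  have hKu : ∀ᶠ p : (ℝ × X) × C(Icc (0 : ℝ) 1, X) in 𝓝 (((0 : ℝ), x₀), 0), Ψ p = 0 → K p.1 = p.2 := by
    have h := hc.eventually_apply_eq_iff_implicitFunction pn hinv
    filter_upwards [h] with p hp hp0
    rw [hK]
    exact hp.1 (by rw [hp0, hΨ0])
  have hKs : ∀ᶠ q : ℝ × X in 𝓝 ((0 : ℝ), x₀), Ψ (q, K q) = 0 := by
    have h := hc.eventually_apply_implicitFunction pn hinv
    filter_upwards [h] with q hq
    rw [hK, hq, hΨ0]
  have hK0 : K ((0 : ℝ), x₀) = 0 := by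
    rw [hK]
    exact hc.implicitFunction_apply_self pn hinv
  have hΨe : ∀ (ε : ℝ) (x : X) (k : C(Icc (0 : ℝ) 1, X)), Ψ ((ε, x), k) = 0 ↔
      ∀ τ : Icc (0 : ℝ) 1, k τ = (x - x₀) + ε • ∫ ρ in (0 : ℝ)..τ, IccExtend zero_le_one (J k) ρ := by
    intro ε x k
    have h1 : ∀ τ : Icc (0 : ℝ) 1, Ψ ((ε, x), k) τ = k τ - (x - x₀) - ε • ∫ ρ in (0 : ℝ)..τ, IccExtend zero_le_one (J k) ρ := by
      intro τ
      rw [hΨ]
      show k τ - DFlow_cst X (x - x₀) τ - ε • (I (J k) τ) = _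
      rw [hI, DFlow_int_apply, DFlow_cst_apply]
    constructor
    · intro h τ
      have h2 := h1 τ
      rw [h] at h2
      have h3 : (0 : C(Icc (0 : ℝ) 1, X)) τ = 0 := rfl
      rw [h3, sub_sub] at h2
      exact (sub_eq_zero.1 h2.symm)
    · intro h
      ext τ
      rw [h1 τ, h τ]
      show _ = (0 : X)
      abel
  -- radii
  obtain ⟨r1, hr1, hKu'⟩ := Metric.eventually_nhds_iff.1 hKu
  obtain ⟨r2, hr2, hJe'⟩ := Metric.eventually_nhds_iff.1 hJe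
  obtain ⟨r4, hr4, hKs'⟩ := Metric.eventually_nhds_iff.1 hKs
  obtain ⟨r5, hr5, hKa'⟩ := Metric.eventually_nhds_iff.1 hKa.eventually_analyticAt
  obtain ⟨r3, hr3, hKc⟩ := Metric.continuousAt_iff.1 hKa.continuousAt (min r1 r2) (lt_min hr1 hr2)
  obtain ⟨r, hr⟩ : ∃ r, r = min (min r1 r3) (min r4 r5) := ⟨_, rfl⟩
  have hr0 : 0 < r := by
    rw [hr]
    exact lt_min (lt_min hr1 hr3) (lt_min hr4 hr5)
  have hrr1 : r ≤ r1 := by rw [hr]; exact (min_le_left _ _).trans (min_le_left _ _)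
  have hrr3 : r ≤ r3 := by rw [hr]; exact (min_le_left _ _).trans (min_le_right _ _)
  have hrr4 : r ≤ r4 := by rw [hr]; exact (min_le_right _ _).trans (min_le_left _ _)
  have hrr5 : r ≤ r5 := by rw [hr]; exact (min_le_right _ _).trans (min_le_right _ _)
  have hone : (1 : ℝ) ∈ Icc (0 : ℝ) 1 := ⟨zero_le_one, le_refl _⟩
  obtain ⟨Φ, hΦ⟩ : ∃ Φ : ℝ × X → X, Φ = fun q => x₀ + K q ⟨1, hone⟩ := ⟨_, rfl⟩
  have hΦa : ∀ q : ℝ × X, AnalyticAt ℝ K q → AnalyticAt ℝ Φ q := by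
    intro q hq
    rw [hΦ]
    have h1 := (ContinuousMap.evalCLM (M := X) ℝ (⟨1, hone⟩ : Icc (0 : ℝ) 1)).analyticAt (K q)
    exact analyticAt_const.add (AnalyticAt.comp (f := K) h1 hq)
  have hmain : ∀ (ε : ℝ) (x : X), |ε| < r → dist x x₀ < r → ∀ σ : Icc (0 : ℝ) 1,
      Φ ((σ : ℝ) * ε, x) = x + ε • (∫ ρ in (0 : ℝ)..σ, IccExtend zero_le_one (J (K (ε, x))) ρ) ∧
        J (K (ε, x)) σ = v (Φ ((σ : ℝ) * ε, x)) := by
    intro ε x hε hx σ
    have hq : dist ((ε, x) : ℝ × X) ((0 : ℝ), x₀) < r := by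
      rw [Prod.dist_eq, Real.dist_eq, sub_zero]
      exact max_lt hε hx
    have hk1 : ‖K (ε, x)‖ < min r1 r2 := by
      have := hKc (hq.trans_le hrr3)
      rwa [hK0, dist_zero_right] at this
    have hks := (hΨe ε x (K (ε, x))).1 (hKs' (hq.trans_le hrr4))
    have hJk : ∀ τ : Icc (0 : ℝ) 1, J (K (ε, x)) τ = v (x₀ + K (ε, x) τ) :=
      hJe' (by rw [dist_zero_right]; exact hk1.trans_le (min_le_right _ _))
    have hn := DFlow_sc_norm (K (ε, x)) σ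
    have hJs : ∀ τ : Icc (0 : ℝ) 1, J (DFlow_sc (K (ε, x)) σ) τ = v (x₀ + DFlow_sc (K (ε, x)) σ τ) :=
      hJe' (by rw [dist_zero_right]; exact (hn.trans_lt hk1).trans_le (min_le_right _ _))
    have hsc := DFlow_scale hks hJk hJs
    have hz : Ψ (((σ : ℝ) * ε, x), DFlow_sc (K (ε, x)) σ) = 0 := (hΨe _ _ _).2 hsc
    have hd : dist (((((σ : ℝ) * ε), x), DFlow_sc (K (ε, x)) σ) : (ℝ × X) × C(Icc (0 : ℝ) 1, X)) (((0 : ℝ), x₀), 0) < r1 := by
      rw [Prod.dist_eq, Prod.dist_eq]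
      refine max_lt (max_lt ?_ ?_) ?_
      · show dist ((σ : ℝ) * ε) 0 < r1
        rw [Real.dist_eq, sub_zero, abs_mul, abs_of_nonneg σ.2.1]
        calc (σ : ℝ) * |ε| ≤ 1 * |ε| := mul_le_mul_of_nonneg_right σ.2.2 (abs_nonneg _)
          _ < r1 := by rw [one_mul]; exact hε.trans_le hrr1
      · exact hx.trans_le hrr1
      · show dist (DFlow_sc (K (ε, x)) σ) 0 < r1
        rw [dist_zero_right]
        exact (hn.trans_lt hk1).trans_le (min_le_left _ _)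
    have hKsc := hKu' hd hz
    have hval : Φ ((σ : ℝ) * ε, x) = x₀ + K (ε, x) σ := by
      rw [hΦ]
      show x₀ + K ((σ : ℝ) * ε, x) ⟨1, hone⟩ = _
      have h1 : K ((σ : ℝ) * ε, x) = DFlow_sc (K (ε, x)) σ := hKsc
      rw [h1]
      show x₀ + K (ε, x) ⟨(σ : ℝ) * 1, _⟩ = _
      congr 2
      exact Subtype.ext (mul_one _)
    refine ⟨?_, ?_⟩
    · rw [hval, hks σ]
      abel
    · rw [hval, hJk σ]
  refine ⟨Φ, hΦa _ hKa, ?_, ?_⟩
  · rw [Metric.eventually_nhds_iff]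
    refine ⟨r, hr0, fun x hx => ?_⟩
    have h1 := (hmain 0 x (by rwa [abs_zero]) hx ⟨1, hone⟩).1
    rw [zero_smul, add_zero] at h1
    rw [← h1]
    congr 2
    show (0 : ℝ) = 1 * 0
    rw [mul_zero]
  · have hd1 : ∀ (t : ℝ) (x : X), t ≠ 0 → |t| < r / 2 → dist x x₀ < r → fderiv ℝ Φ (t, x) (1, 0) = v (Φ (t, x)) := by
      intro t x ht0 ht hx
      have hε : |2 * t| < r := by
        rw [abs_mul, abs_two]
        linarith
      have hm := hmain (2 * t) x hε hx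
      have htr : |t| < r := by linarith [abs_nonneg t]
      have hq : dist ((t, x) : ℝ × X) ((0 : ℝ), x₀) < r5 := by
        rw [Prod.dist_eq, Real.dist_eq, sub_zero]
        exact (max_lt htr hx).trans_le hrr5
      have hdif : DifferentiableAt ℝ Φ (t, x) := (hΦa _ (hKa' hq)).differentiableAt
      obtain ⟨g, hg⟩ : ∃ g : ℝ → X, g = IccExtend (zero_le_one (α := ℝ)) (J (K (2 * t, x))) := ⟨_, rfl⟩
      have hgc : Continuous g := by
        rw [hg]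
        exact (J (K (2 * t, x))).continuous.Icc_extend'
      have h1 : HasDerivAt (fun σ : ℝ => Φ (σ * (2 * t), x)) (fderiv ℝ Φ (t, x) (2 * t, 0)) (1 / 2) := by
        have h2 : HasDerivAt (fun σ : ℝ => ((σ * (2 * t), x) : ℝ × X)) (2 * t, 0) (1 / 2) := by
          have h3 : HasDerivAt (fun σ : ℝ => σ * (2 * t)) (2 * t) (1 / 2) := by
            have := (hasDerivAt_id (1 / 2 : ℝ)).mul_const (2 * t)
            simpa using this
          exact h3.prodMk (hasDerivAt_const _ _)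
        have e1 : ((1 / 2 : ℝ) * (2 * t), x) = (t, x) := by
          congr 1
          ring
        have h4 : HasFDerivAt Φ (fderiv ℝ Φ (t, x)) ((1 / 2 : ℝ) * (2 * t), x) := by
          rw [e1]
          exact hdif.hasFDerivAt
        exact h4.comp_hasDerivAt (1 / 2 : ℝ) h2
      have h5 : HasDerivAt (fun σ : ℝ => x + (2 * t) • ∫ ρ in (0 : ℝ)..σ, g ρ) ((2 * t) • g (1 / 2)) (1 / 2) := by
        have h6 := intervalIntegral.integral_hasDerivAt_right (hgc.intervalIntegrable 0 (1 / 2))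
          (hgc.stronglyMeasurableAtFilter _ _) hgc.continuousAt
        have h7 := (h6.const_smul (2 * t)).const_add x
        exact h7
      have h8 : (fun σ : ℝ => Φ (σ * (2 * t), x)) =ᶠ[𝓝 (1 / 2)] fun σ : ℝ => x + (2 * t) • ∫ ρ in (0 : ℝ)..σ, g ρ := by
        have h9 : Ioo (0 : ℝ) 1 ∈ 𝓝 (1 / 2 : ℝ) := Ioo_mem_nhds (by norm_num) (by norm_num)
        filter_upwards [h9] with σ hσ
        rw [hg]
        exact (hm ⟨σ, hσ.1.le, hσ.2.le⟩).1
      have h10 := h1.unique (h5.congr_of_eventuallyEq h8)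
      have hhalf : (1 / 2 : ℝ) ∈ Icc (0 : ℝ) 1 := ⟨by norm_num, by norm_num⟩
      have h11 : g (1 / 2) = v (Φ (t, x)) := by
        rw [hg, IccExtend_of_mem _ _ hhalf, (hm ⟨1 / 2, hhalf⟩).2]
        congr 3
        show (1 / 2 : ℝ) * (2 * t) = t
        ring
      have h12 : fderiv ℝ Φ (t, x) (2 * t, 0) = (2 * t) • fderiv ℝ Φ (t, x) (1, 0) := by
        rw [← map_smul]
        congr 1
        simp
      rw [h12, h11] at h10
      have h13 : (2 * t) ≠ 0 := mul_ne_zero two_ne_zero ht0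
      exact smul_right_injective X h13 h10
    have hvc : ∀ᶠ p in 𝓝 ((0 : ℝ), x₀), ContinuousAt v (Φ p) := by
      have h1 : Tendsto Φ (𝓝 ((0 : ℝ), x₀)) (𝓝 x₀) := by
        have h2 := (hΦa _ hKa).continuousAt
        have h3 : Φ ((0 : ℝ), x₀) = x₀ := by
          rw [hΦ]
          show x₀ + K ((0 : ℝ), x₀) ⟨1, hone⟩ = x₀
          rw [hK0]
          exact add_zero _
        have h4 : Tendsto Φ (𝓝 ((0 : ℝ), x₀)) (𝓝 (Φ ((0 : ℝ), x₀))) := h2
        rwa [h3] at h4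
      exact h1.eventually (hv.eventually_analyticAt.mono fun y hy => hy.continuousAt)
    have hball : ∀ᶠ p in 𝓝 ((0 : ℝ), x₀), dist p ((0 : ℝ), x₀) < r / 2 := Metric.ball_mem_nhds _ (by linarith)
    filter_upwards [hvc, hball] with p hp1 hp2
    obtain ⟨t, x⟩ := p
    rw [Prod.dist_eq, max_lt_iff, Real.dist_eq, sub_zero] at hp2
    obtain ⟨ht, hx⟩ := hp2
    have hxr : dist x x₀ < r := by
      have : dist x x₀ < r / 2 := hx
      linarith
    by_cases ht0 : t = 0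
    · subst ht0
      have hq : dist (((0 : ℝ), x) : ℝ × X) ((0 : ℝ), x₀) < r5 := by
        rw [Prod.dist_eq, dist_self]
        exact (max_lt hr0 hxr).trans_le hrr5
      have han := hΦa _ (hKa' hq)
      have hmap : Tendsto (fun s : ℝ => ((s, x) : ℝ × X)) (𝓝[≠] 0) (𝓝 ((0 : ℝ), x)) := by
        have : Continuous (fun s : ℝ => ((s, x) : ℝ × X)) := by fun_prop
        exact (this.tendsto 0).mono_left nhdsWithin_le_nhds
      have hA : Tendsto (fun s : ℝ => fderiv ℝ Φ (s, x) (1, 0)) (𝓝[≠] 0) (𝓝 (fderiv ℝ Φ (0, x) (1, 0))) := by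
        have h1 : ContinuousAt (fderiv ℝ Φ) ((0 : ℝ), x) := han.fderiv.continuousAt
        have h2 : Tendsto (fun s : ℝ => fderiv ℝ Φ (s, x)) (𝓝[≠] 0) (𝓝 (fderiv ℝ Φ (0, x))) := h1.tendsto.comp hmap
        exact ((ContinuousLinearMap.apply ℝ X ((1 : ℝ), (0 : X))).continuous.tendsto _).comp h2
      have hB : Tendsto (fun s : ℝ => v (Φ (s, x))) (𝓝[≠] 0) (𝓝 (v (Φ (0, x)))) := by
        have h1 : Tendsto (fun s : ℝ => Φ (s, x)) (𝓝[≠] 0) (𝓝 (Φ (0, x))) := han.continuousAt.tendsto.comp hmap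
        exact (show Tendsto v (𝓝 (Φ (0, x))) (𝓝 (v (Φ (0, x)))) from hp1).comp h1
      have hAB : (fun s : ℝ => fderiv ℝ Φ (s, x) (1, 0)) =ᶠ[𝓝[≠] 0] fun s : ℝ => v (Φ (s, x)) := by
        have h1 : ∀ᶠ s : ℝ in 𝓝[≠] 0, |s| < r / 2 := by
          have h2 : ∀ᶠ s : ℝ in 𝓝 0, |s| < r / 2 := by
            filter_upwards [Metric.ball_mem_nhds (0 : ℝ) (by linarith : (0 : ℝ) < r / 2)] with s hs
            rwa [Metric.mem_ball, Real.dist_eq, sub_zero] at hs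
          exact h2.filter_mono nhdsWithin_le_nhds
        filter_upwards [h1, self_mem_nhdsWithin] with s hs hs0
        exact hd1 s x hs0 hs hxr
      exact tendsto_nhds_unique (hA.congr' hAB) hB
    · exact hd1 t x ht0 ht hxr

end Pool.Agent.Lib.MP_28b8de_an.DD
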