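import Pool.Agent.Lib.MP_28b8de_an.D.DDefs

/-!
MP_28b8de_an, module DLin.

Linear algebra.
PROOFS.  lin3: extend g to a basis (b₀, b₁, g) of V (`finrank = 3`): A ((a,b),ξ) := a b₀ + b b₁ + ξ g (e.g. complement of the line ℝ g: `Submodule.exists_isCompl`, finrank 2, `LinearEquiv.ofFinrankEq`, `Submodule.prodEquivOfIsCompl`,
then `LinearEquiv.toContinuousLinearEquiv`).  lin2: the same in ℝ × ℝ (or explicitly A (a,b) = (a * e.2 + b * e.1, - a * e.1 + b * e.2)).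
-/

set_option linter.unusedSectionVars false

namespace Pool.Agent.Lib.MP_28b8de_an.DD

open Filter Topology Set MeasureTheory
open Pool.Agent.Lib.MP_28b8de_an.PT (Adm Perf)
open Pool.Agent.Lib.MP_28b8de_an.TT (Env Sol Jn Tr SmAt Goal W dx Dn V3 FF GG)

private theorem DLin_gen {V Q : Type*} [NormedAddCommGroup V] [NormedSpace ℝ V] [FiniteDimensional ℝ V]
    [NormedAddCommGroup Q] [NormedSpace ℝ Q] [FiniteDimensional ℝ Q]
    (h : Module.finrank ℝ V = Module.finrank ℝ Q + 1) {g : V} (hg : g ≠ 0) :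
    ∃ A : (Q × ℝ) ≃L[ℝ] V, A (0, 1) = g := by
  obtain ⟨q, hq⟩ := Submodule.exists_isCompl (Submodule.span ℝ {g})
  have h1 : Module.finrank ℝ (Submodule.span ℝ {g}) = 1 := finrank_span_singleton hg
  have h2 := Submodule.finrank_add_eq_of_isCompl hq
  have h4 : Module.finrank ℝ Q = Module.finrank ℝ q := by omega
  let e1 : Q ≃ₗ[ℝ] q := LinearEquiv.ofFinrankEq _ _ h4
  let e2 : ℝ ≃ₗ[ℝ] Submodule.span ℝ {g} := LinearEquiv.toSpanNonzeroSingleton ℝ V g hg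
  let A : (Q × ℝ) ≃ₗ[ℝ] V :=
    (e1.prodCongr e2).trans (Submodule.prodEquivOfIsCompl q (Submodule.span ℝ {g}) hq.symm)
  refine ⟨A.toContinuousLinearEquiv, ?_⟩
  show A (0, 1) = g
  simp [A, e1, e2]

theorem lin3 {V : Type*} [NormedAddCommGroup V] [NormedSpace ℝ V] [FiniteDimensional ℝ V]
    (h3 : Module.finrank ℝ V = 3) {g : V} (hg : g ≠ 0) : ∃ A : P3 ≃L[ℝ] V, A (0, 1) = g :=
  DLin_gen (Q := ℝ × ℝ) (by rw [h3, Module.finrank_prod, Module.finrank_self]) hg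

theorem lin2 {e : ℝ × ℝ} (he : e ≠ 0) : ∃ A : (ℝ × ℝ) ≃L[ℝ] (ℝ × ℝ), A (0, 1) = e :=
  DLin_gen (Q := ℝ) (by rw [Module.finrank_prod, Module.finrank_self]) he

end Pool.Agent.Lib.MP_28b8de_an.DD
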