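import Pool.Agent.Lib.MP_28b8de_an.D.DDefs
import Pool.Agent.Lib.MP_28b8de_an.T.TSol

/-!
MP_28b8de_an, module DPull.

Trajectories in a chart.
PROOF.  Let ε, the ball of radius ρ about (t₀, x t₀) and the ball about (t₀,p₀) be small.  F, G are bounded near (t₀, x t₀), x is continuous, so x is Lipschitz near t₀ with x' = F (t, x t) + u G (t, x t) a.e.
(as in T/TEmb.lean, `intervalIntegral` + `ae_hasDerivAt_integral`).  r t := Ξ (t, x t): Lipschitz, r t₀ = p₀ by ri, x t = Θ (t, r t) near t₀ by li.  Differentiate ri at w: fderiv Ξ (w.1, Θ w) (α, fderiv Θ w (α, p)) = p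
for all (α, p) (chain rule; the identity holds near w), so with F1: fderiv Ξ (w.1, Θ w) (1, F (w.1, Θ w)) = Fp w, and with G1: fderiv Ξ (w.1, Θ w) (0, G (w.1, Θ w)) = Gp w.  With w = (t, r t), Θ w = x t:
r' = Fp (t, r t) + u Gp (t, r t) a.e. near t₀, and r is Lipschitz: integrate.
-/

set_option linter.unusedSectionVars false

namespace Pool.Agent.Lib.MP_28b8de_an.DD

open Filter Topology Set MeasureTheory
open Pool.Agent.Lib.MP_28b8de_an.PT (Adm Perf)
open Pool.Agent.Lib.MP_28b8de_an.TT (Env Sol Jn Tr SmAt Goal W dx Dn V3 FF GG)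

variable {V P : Type*} [NormedAddCommGroup V] [NormedSpace ℝ V] [FiniteDimensional ℝ V]
  [NormedAddCommGroup P] [NormedSpace ℝ P] [FiniteDimensional ℝ P]

private theorem DPull_bdd {X Y : Type*} [TopologicalSpace X] [SeminormedAddCommGroup Y] {f : X → Y}
    {x : X} (hf : ContinuousAt f x) : ∃ B : ℝ, 0 ≤ B ∧ ∀ᶠ w in 𝓝 x, ‖f w‖ ≤ B := by
  refine ⟨‖f x‖ + 1, by positivity, ?_⟩
  have h1 : Tendsto (fun w => ‖f w‖) (𝓝 x) (𝓝 ‖f x‖) := hf.norm
  filter_upwards [h1.eventually (gt_mem_nhds (show ‖f x‖ < ‖f x‖ + 1 by linarith))] with w hw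
  exact le_of_lt hw

private theorem DPull_inv {V P : Type*} [NormedAddCommGroup V] [NormedSpace ℝ V]
    [NormedAddCommGroup P] [NormedSpace ℝ P] {Θ : ℝ × P → V} {Ξ : ℝ × V → P} {w : ℝ × P}
    (hΘ : DifferentiableAt ℝ Θ w) (hΞ : DifferentiableAt ℝ Ξ (w.1, Θ w))
    (hri : ∀ᶠ w' in 𝓝 w, Ξ (w'.1, Θ w') = w'.2) (α : ℝ) (p : P) :
    fderiv ℝ Ξ (w.1, Θ w) (α, fderiv ℝ Θ w (α, p)) = p := by
  have h1 : HasFDerivAt (fun w' : ℝ × P => (w'.1, Θ w'))
      ((ContinuousLinearMap.fst ℝ ℝ P).prod (fderiv ℝ Θ w)) w :=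
    hasFDerivAt_fst.prodMk hΘ.hasFDerivAt
  have h2 : HasFDerivAt (fun w' : ℝ × P => Ξ (w'.1, Θ w'))
      ((fderiv ℝ Ξ (w.1, Θ w)).comp ((ContinuousLinearMap.fst ℝ ℝ P).prod (fderiv ℝ Θ w))) w :=
    HasFDerivAt.comp (g := Ξ) w hΞ.hasFDerivAt h1
  have h3 : HasFDerivAt (fun w' : ℝ × P => Ξ (w'.1, Θ w')) (ContinuousLinearMap.snd ℝ ℝ P) w :=
    hasFDerivAt_snd.congr_of_eventuallyEq hri
  have h4 := congrArg (fun L : ℝ × P →L[ℝ] P => L (α, p)) (h2.unique h3)
  simpa using h4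

theorem ltraj_pull {F G : ℝ × V → V} {Fp Gp : ℝ × P → P} {Θ : ℝ × P → V} {Ξ : ℝ × V → P} {t₀ : ℝ}
    {p₀ : P} (h : Ch F G Fp Gp Θ Ξ (t₀, p₀)) {u : ℝ → ℝ} (hu : Adm u) {x : ℝ → V}
    (hx0 : x t₀ = Θ (t₀, p₀)) (hF : AnalyticAt ℝ F (t₀, x t₀)) (hG : AnalyticAt ℝ G (t₀, x t₀))
    (hx : LTraj F G u x t₀) :
    LTraj Fp Gp u (fun t => Ξ (t, x t)) t₀ ∧ Ξ (t₀, x t₀) = p₀ ∧
      ∀ᶠ t in 𝓝 t₀, x t = Θ (t, Ξ (t, x t)) := by
  have : CompleteSpace V := FiniteDimensional.complete ℝ V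
  have : CompleteSpace P := FiniteDimensional.complete ℝ P
  obtain ⟨ε, hε, hxc, hxs⟩ := hx
  have hxt : ContinuousAt x t₀ := hxc.continuousAt (Ioo_mem_nhds (by linarith) (by linarith))
  have hΞa : AnalyticAt ℝ Ξ (t₀, x t₀) := by
    have := h.Ξa
    rw [hx0]
    exact this
  have hli : ∀ᶠ z in 𝓝 (t₀, x t₀), Θ (z.1, Ξ z) = z.2 := by
    have := h.li
    rw [hx0]
    exact this
  have hΞ0 : Ξ (t₀, x t₀) = p₀ := by
    have := h.ri.self_of_nhds
    rw [hx0]
    exact this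
  have hzc : ContinuousAt (fun t => (t, x t)) t₀ := continuousAt_id.prodMk hxt
  have hrc : ContinuousAt (fun t => Ξ (t, x t)) t₀ :=
    ContinuousAt.comp (g := Ξ) (f := fun t => (t, x t)) hΞa.continuousAt hzc
  have hwc : Tendsto (fun t => (t, Ξ (t, x t))) (𝓝 t₀) (𝓝 (t₀, p₀)) := by
    have := continuousAt_id.prodMk hrc
    unfold ContinuousAt at this
    simpa [hΞ0] using this
  have hlix : ∀ᶠ t in 𝓝 t₀, x t = Θ (t, Ξ (t, x t)) :=
    (hzc.eventually hli).mono fun t ht => ht.symm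
  refine ⟨?_, hΞ0, hlix⟩
  -- the neighbourhood of `(t₀, x t₀)`
  obtain ⟨B, hB0, hB⟩ := DPull_bdd hF.continuousAt
  obtain ⟨B', hB'0, hB'⟩ := DPull_bdd hG.continuousAt
  obtain ⟨K, hK0, hK⟩ := DPull_bdd hΞa.fderiv.continuousAt
  have hall := (((hF.eventually_analyticAt.and hG.eventually_analyticAt).and
    hΞa.eventually_analyticAt).and (hB.and hB')).and hK
  obtain ⟨ρ, hρ, hball⟩ := Metric.eventually_nhds_iff_ball.1 hall
  -- conditions at `(t, r t)`
  have hC := ((h.Θa.eventually_analyticAt.and h.ri.eventually_nhds).and (h.F1.and h.G1))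
  have hT := ((hwc.eventually hC).and hlix).and (hzc.eventually (Metric.ball_mem_nhds _ hρ))
  obtain ⟨δ', hδ', hδT⟩ := Metric.eventually_nhds_iff.1 hT
  obtain ⟨δ, hδ, hδ1, hδ2⟩ : ∃ δ > 0, δ < δ' ∧ δ < ε :=
    ⟨min (δ' / 2) (ε / 2), by positivity, (min_le_left _ _).trans_lt (by linarith),
      (min_le_right _ _).trans_lt (by linarith)⟩
  set a := t₀ - δ with ha
  set b := t₀ + δ with hb
  have hab : a ≤ b := by rw [ha, hb]; linarith
  have hJ : ∀ t ∈ Icc a b, dist t t₀ < δ' := by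
    intro t ht
    rw [Real.dist_eq, abs_lt]
    constructor
    · have := ht.1; rw [ha] at this; linarith
    · have := ht.2; rw [hb] at this; linarith
  have hJI : ∀ t ∈ Icc a b, t ∈ Ioo (t₀ - ε) (t₀ + ε) := by
    intro t ht
    constructor
    · have := ht.1; rw [ha] at this; linarith
    · have := ht.2; rw [hb] at this; linarith
  have hz : ∀ t ∈ Icc a b, (t, x t) ∈ Metric.ball (t₀, x t₀) ρ := fun t ht => (hδT (hJ t ht)).2
  have ha0 : a ∈ Icc a b := left_mem_Icc.2 hab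
  have hb0 : b ∈ Icc a b := right_mem_Icc.2 hab
  set f : ℝ → V := fun τ => F (τ, x τ) + u τ • G (τ, x τ) with hf
  have hxcJ : ContinuousOn x (Icc a b) := hxc.mono hJI
  have hpair : ContinuousOn (fun t => (t, x t)) (Icc a b) := continuousOn_id.prodMk hxcJ
  have hFc : ContinuousOn (fun τ => F (τ, x τ)) (Icc a b) := by
    intro t ht
    have h3 : ContinuousAt F (t, x t) := (hball _ (hz t ht)).1.1.1.1.continuousAt
    exact h3.comp_continuousWithinAt (f := fun t => (t, x t)) (hpair t ht)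
  have hGc : ContinuousOn (fun τ => G (τ, x τ)) (Icc a b) := by
    intro t ht
    have h3 : ContinuousAt G (t, x t) := (hball _ (hz t ht)).1.1.1.2.continuousAt
    exact h3.comp_continuousWithinAt (f := fun t => (t, x t)) (hpair t ht)
  have hfb : ∀ t ∈ Icc a b, ‖f t‖ ≤ B + B' := by
    intro t ht
    have h3 := (hball _ (hz t ht)).1.2
    calc ‖f t‖ ≤ ‖F (t, x t)‖ + ‖u t • G (t, x t)‖ := norm_add_le _ _
      _ ≤ B + 1 * B' := by
          refine add_le_add h3.1 ?_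
          rw [norm_smul]
          exact mul_le_mul (by simpa using hu.2 t) h3.2 (norm_nonneg _) zero_le_one
      _ = B + B' := by ring
  have hfi : IntegrableOn f (Icc a b) := by
    refine IntegrableOn.of_bound (by simp) ?_ (B + B') ?_
    · exact (hFc.aestronglyMeasurable measurableSet_Icc).add
        (hu.1.aestronglyMeasurable.smul (hGc.aestronglyMeasurable measurableSet_Icc))
    · rw [ae_restrict_iff' measurableSet_Icc]
      exact ae_of_all _ hfb
  have hfii : ∀ s ∈ Icc a b, ∀ t ∈ Icc a b, IntervalIntegrable f volume s t := by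
    intro s hs t ht
    rw [intervalIntegrable_iff]
    exact hfi.mono_set ((uIoc_subset_uIcc).trans (uIcc_subset_Icc hs ht))
  have hxsub : ∀ s ∈ Icc a b, ∀ t ∈ Icc a b, x t - x s = ∫ τ in s..t, f τ := fun s hs t ht =>
    hxs s (hJI s hs) t (hJI t ht)
  have hxlip : ∀ s ∈ Icc a b, ∀ t ∈ Icc a b, ‖x t - x s‖ ≤ (B + B') * |t - s| := by
    intro s hs t ht
    rw [hxsub s hs t ht]
    refine intervalIntegral.norm_integral_le_of_norm_le_const fun y hy => ?_
    exact hfb y ((uIcc_subset_Icc hs ht) (uIoc_subset_uIcc hy))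
  have hxae : ∀ᵐ t : ℝ, t ∈ Ioo a b → HasDerivAt x (f t) t := by
    have h3 := (hfii a ha0 b hb0).ae_hasDerivAt_integral
    filter_upwards [h3] with t ht htab
    have htI : t ∈ uIcc a b := by
      rw [uIcc_of_le hab]; exact Ioo_subset_Icc_self htab
    have h4 := (ht htI a left_mem_uIcc).const_add (x a)
    refine h4.congr_of_eventuallyEq ?_
    filter_upwards [Ioo_mem_nhds htab.1 htab.2] with y hy
    have h5 := hxsub a ha0 y (Ioo_subset_Icc_self hy)
    rw [← h5]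
    abel
  -- the pulled back trajectory
  have hΞL : ∀ w ∈ Metric.ball (t₀, x t₀) ρ, ∀ w' ∈ Metric.ball (t₀, x t₀) ρ,
      ‖Ξ w - Ξ w'‖ ≤ K * ‖w - w'‖ := by
    intro w hw w' hw'
    exact Convex.norm_image_sub_le_of_norm_fderiv_le (𝕜 := ℝ)
      (fun y hy => (hball y hy).1.1.2.differentiableAt)
      (fun y hy => (hball y hy).2) (convex_ball _ _) hw' hw
  have hLip : LipschitzOnWith (K * (1 + (B + B'))).toNNReal (fun t => Ξ (t, x t)) (Icc a b) := by
    refine LipschitzOnWith.of_dist_le_mul fun y hy t ht => ?_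
    rw [dist_eq_norm, Real.coe_toNNReal _ (by positivity), Real.dist_eq]
    refine (hΞL _ (hz y hy) _ (hz t ht)).trans ?_
    rw [mul_assoc]
    refine mul_le_mul_of_nonneg_left ?_ hK0
    rw [Prod.mk_sub_mk, Prod.norm_def]
    have h3 := hxlip t ht y hy
    have h4 : 0 ≤ |y - t| := abs_nonneg _
    refine max_le ?_ ?_
    · simp only [Real.norm_eq_abs]
      nlinarith
    · simp only
      nlinarith
  have hrae : ∀ᵐ t : ℝ, t ∈ Ioo a b → HasDerivAt (fun t => Ξ (t, x t))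
      (Fp (t, Ξ (t, x t)) + u t • Gp (t, Ξ (t, x t))) t := by
    filter_upwards [hxae] with t ht htI
    have htIcc := Ioo_subset_Icc_self htI
    have h3 := ht htI
    have hΞd : DifferentiableAt ℝ Ξ (t, x t) := (hball _ (hz t htIcc)).1.1.2.differentiableAt
    have h4 : HasDerivAt (fun t => (t, x t)) ((1 : ℝ), f t) t := (hasDerivAt_id t).prodMk h3
    have h5 := (hΞd.hasFDerivAt).comp_hasDerivAt t h4
    have hc := (hδT (hJ t htIcc)).1.1
    have hxe : x t = Θ (t, Ξ (t, x t)) := (hδT (hJ t htIcc)).1.2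
    have hinv := DPull_inv (Θ := Θ) (Ξ := Ξ) (w := (t, Ξ (t, x t))) hc.1.1.differentiableAt
      (by rw [← hxe]; exact hΞd) hc.1.2
    have h6 : fderiv ℝ Ξ (t, x t) ((1 : ℝ), f t) =
        Fp (t, Ξ (t, x t)) + u t • Gp (t, Ξ (t, x t)) := by
      have e : ((1 : ℝ), f t) = ((1 : ℝ), F (t, x t)) + u t • ((0 : ℝ), G (t, x t)) := by
        rw [hf]
        simp
      rw [e, map_add, map_smul]
      have h7 := hinv 1 (Fp (t, Ξ (t, x t)))
      have h8 := hinv 0 (Gp (t, Ξ (t, x t)))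
      rw [hc.2.1] at h7
      rw [hc.2.2] at h8
      simp only [← hxe] at h7 h8
      rw [h7, h8]
    rw [h6] at h5
    exact h5
  refine ⟨δ, hδ, (hLip.continuousOn).mono Ioo_subset_Icc_self, ?_⟩
  have key : ∀ s ∈ Icc a b, ∀ t ∈ Icc a b, s ≤ t → Ξ (t, x t) - Ξ (s, x s) =
      ∫ τ in s..t, (Fp (τ, Ξ (τ, x τ)) + u τ • Gp (τ, Ξ (τ, x τ))) := by
    intro s hs t ht hst
    have hsub : Icc s t ⊆ Icc a b := Icc_subset_Icc hs.1 ht.2
    have hS : Sol Fp Gp u (fun t => Ξ (t, x t)) s t := by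
      refine Pool.Agent.Lib.MP_28b8de_an.TT.sol_of_ae (hLip.mono hsub) ?_
      filter_upwards [hrae] with y hy hyI
      exact hy ⟨hs.1.trans_lt hyI.1, hyI.2.trans_le ht.2⟩
    have := hS.eq t (right_mem_Icc.2 hst)
    rw [this]
    abel
  intro s hs t ht
  have hs' := Ioo_subset_Icc_self hs
  have ht' := Ioo_subset_Icc_self ht
  rcases le_total s t with hst | hst
  · exact key s hs' t ht' hst
  · have := key t ht' s hs' hst
    rw [intervalIntegral.integral_symm, ← this]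
    abel

end Pool.Agent.Lib.MP_28b8de_an.DD
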