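import Pool.Agent.Lib.MP_28b8de_an.D.DBox
import Pool.Agent.Lib.MP_28b8de_an.D.DCh
import Pool.Agent.Lib.MP_28b8de_an.D.DLin

/-!
MP_28b8de_an, module DTri.

Triangular coordinates.
PROOF.  A₂ from lin2 for e (t₀,s₀); `box` with S = ℝ, V = ℝ × ℝ for the field e on ℝ × (ℝ × ℝ) at (t₀,s₀): Ψ : ℝ × (ℝ × ℝ) → ℝ × ℝ, analytic at (t₀,0), Ψ (t₀,0) = s₀, fderiv Ψ w (0,(0,1)) = e (w.1, Ψ w) near, derivative in the second variable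
at (t₀,0) = A₂.  `ch_of` (with F = 0, G = e, Gp = const (0,1)) or directly the inverse function theorem: χ : ℝ × (ℝ × ℝ) → ℝ × ℝ analytic at (t₀,s₀), Ψ (t, χ (t,s)) = s and χ (t, Ψ (t,a)) = a near; differentiate: fderiv χ (t, Ψ w) (0, e (t, Ψ w)) = (0,1) and
fderiv Ψ w (α, fderiv χ (t,Ψ w) (α, y)) = y for w = (t,a) near (t₀,0).
Write f := sc Fp, h (p) := (Fp p).2.  c := (0, 0, ξ₀).  Θ' (t,(z,y,x)) := (Ψ (t,(z,y)), x); Ξ' (t,(s,ξ)) := ((χ (t,s)).1, (χ (t,s)).2, ξ).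
K (t,(z,y,x)) := fderiv χ (t, Ψ (t,(z,y))) (1, f ((t, Ψ (t,(z,y))), x)) ∈ ℝ × ℝ.  L (t,z,y) := (K (t,(z,y,ξ₀))).1, B := (K ·).2, F' (t,(z,y,x)) := h (t,(Ψ (t,(z,y)), x)).  All analytic at the points.
(K (t,(z,y,x))).1 = L (t,z,y) near: the difference is (fderiv χ (..) (0, f ((t,Ψ),x) - f ((t,Ψ),ξ₀))).1; by h and e ≠ 0, f ((t,Ψ),x) - f ((t,Ψ),ξ₀) = λ e (t,Ψ), so it is λ (0,1).1 = 0.
So near (t₀,c): FF L B F' (t,(z,y,x)) = (K.1, K.2, F') and fderiv Θ' w (1, FF L B F' w) = (fderiv Ψ (t,(z,y)) (1, K w), F' w) = (f ((t,Ψ),x), h) = Fp (t, Θ' w); fderiv Θ' w (0, GG 1 w) = (0, 1) = ee.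
-/

set_option linter.unusedSectionVars false

namespace Pool.Agent.Lib.MP_28b8de_an.DD

open Filter Topology Set MeasureTheory
open Pool.Agent.Lib.MP_28b8de_an.PT (Adm Perf)
open Pool.Agent.Lib.MP_28b8de_an.TT (Env Sol Jn Tr SmAt Goal W dx Dn V3 FF GG)

/-- application of an analytic family of linear maps -/
private theorem tri_app {Z A B : Type*} [NormedAddCommGroup Z] [NormedSpace ℝ Z]
    [NormedAddCommGroup A] [NormedSpace ℝ A] [NormedAddCommGroup B] [NormedSpace ℝ B]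
    {T : Z → A →L[ℝ] B} {a : Z → A} {z : Z} (hT : AnalyticAt ℝ T z) (ha : AnalyticAt ℝ a z) :
    AnalyticAt ℝ (fun w => T w (a w)) z := by
  have h1 := (ContinuousLinearMap.id ℝ (A →L[ℝ] B)).analyticAt_bilinear (T z, a z)
  have h2 : AnalyticAt ℝ (fun w => (T w, a w)) z := hT.prod ha
  exact AnalyticAt.fun_comp (g := fun q : (A →L[ℝ] B) × A => (ContinuousLinearMap.id ℝ (A →L[ℝ] B)) q.1 q.2)
    (f := fun w => (T w, a w)) h1 h2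

/-- the dependent part -/
private theorem tri_wd {a b : ℝ × ℝ} (h : wd a b = 0) (hb : b ≠ 0) : ∃ r : ℝ, a = r • b := by
  have hb' : b.1 ^ 2 + b.2 ^ 2 ≠ 0 := by
    intro h0
    have h1 : b.1 = 0 := by nlinarith [sq_nonneg b.1, sq_nonneg b.2]
    have h2 : b.2 = 0 := by nlinarith [sq_nonneg b.1, sq_nonneg b.2]
    exact hb (Prod.ext h1 h2)
  unfold wd at h
  refine ⟨(a.1 * b.1 + a.2 * b.2) / (b.1 ^ 2 + b.2 ^ 2), ?_⟩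
  refine Prod.ext ?_ ?_
  · simp only [Prod.smul_fst, smul_eq_mul]
    rw [div_mul_eq_mul_div, eq_div_iff hb']
    linear_combination b.2 * h
  · simp only [Prod.smul_snd, smul_eq_mul]
    rw [div_mul_eq_mul_div, eq_div_iff hb']
    linear_combination (-b.1) * h

/-- the projection `(t,(z,y,x)) ↦ (t,(z,y))` -/
private def tri_pr : (ℝ × V3) →L[ℝ] ℝ × (ℝ × ℝ) :=
  (ContinuousLinearMap.fst ℝ ℝ V3).prod
    (((ContinuousLinearMap.fst ℝ ℝ (ℝ × ℝ)).comp (ContinuousLinearMap.snd ℝ ℝ V3)).prod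
      ((ContinuousLinearMap.fst ℝ ℝ ℝ).comp
        ((ContinuousLinearMap.snd ℝ ℝ (ℝ × ℝ)).comp (ContinuousLinearMap.snd ℝ ℝ V3))))

private theorem tri_pr_apply (w : ℝ × V3) : tri_pr w = (w.1, (w.2.1, w.2.2.1)) := rfl

/-- the last coordinate -/
private def tri_x : (ℝ × V3) →L[ℝ] ℝ :=
  (ContinuousLinearMap.snd ℝ ℝ ℝ).comp
    ((ContinuousLinearMap.snd ℝ ℝ (ℝ × ℝ)).comp (ContinuousLinearMap.snd ℝ ℝ V3))

private theorem tri_x_apply (w : ℝ × V3) : tri_x w = w.2.2.2 := rfl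

/-- derivatives of a chart and of its inverse -/
private theorem tri_der {Ψ : ℝ × (ℝ × ℝ) → ℝ × ℝ} {χ : ℝ × (ℝ × ℝ) → ℝ × ℝ} {w₀ : ℝ × (ℝ × ℝ)}
    (hΨ : AnalyticAt ℝ Ψ w₀) (hχ : AnalyticAt ℝ χ (w₀.1, Ψ w₀))
    (li : ∀ᶠ z in 𝓝 (w₀.1, Ψ w₀), Ψ (z.1, χ z) = z.2) (ri : ∀ᶠ w in 𝓝 w₀, χ (w.1, Ψ w) = w.2) :
    (∀ᶠ w in 𝓝 w₀, ∀ (α : ℝ) (y : ℝ × ℝ),
      fderiv ℝ Ψ w (α, fderiv ℝ χ (w.1, Ψ w) (α, y)) = y) ∧
    (∀ᶠ w in 𝓝 w₀, ∀ (α : ℝ) (b : ℝ × ℝ),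
      fderiv ℝ χ (w.1, Ψ w) (α, fderiv ℝ Ψ w (α, b)) = b) := by
  have hc : ContinuousAt (fun w : ℝ × (ℝ × ℝ) => (w.1, Ψ w)) w₀ :=
    continuousAt_fst.prodMk hΨ.continuousAt
  have hχe : ∀ᶠ w in 𝓝 w₀, AnalyticAt ℝ χ (w.1, Ψ w) := hc.eventually hχ.eventually_analyticAt
  have hΨe := hΨ.eventually_analyticAt
  have li' : ∀ᶠ w in 𝓝 w₀, ∀ᶠ z in 𝓝 (w.1, Ψ w), Ψ (z.1, χ z) = z.2 :=
    hc.eventually (eventually_eventually_nhds.2 li)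
  have ri' : ∀ᶠ w in 𝓝 w₀, ∀ᶠ v in 𝓝 w, χ (v.1, Ψ v) = v.2 := eventually_eventually_nhds.2 ri
  constructor
  · filter_upwards [hχe, hΨe, li', ri] with w h1 h2 h3 h4 α y
    have hz : ((w.1, Ψ w) : ℝ × (ℝ × ℝ)).1 = w.1 := rfl
    have hin : HasFDerivAt (fun z : ℝ × (ℝ × ℝ) => (z.1, χ z))
        ((ContinuousLinearMap.fst ℝ ℝ (ℝ × ℝ)).prod (fderiv ℝ χ (w.1, Ψ w))) (w.1, Ψ w) :=
      hasFDerivAt_fst.prodMk h1.differentiableAt.hasFDerivAt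
    have hpt : (fun z : ℝ × (ℝ × ℝ) => (z.1, χ z)) (w.1, Ψ w) = w := by
      show (w.1, χ (w.1, Ψ w)) = w
      rw [h4]
    have hout : HasFDerivAt Ψ (fderiv ℝ Ψ w)
        ((fun z : ℝ × (ℝ × ℝ) => (z.1, χ z)) (w.1, Ψ w)) := by
      rw [hpt]; exact h2.differentiableAt.hasFDerivAt
    have hcomp := hout.comp (w.1, Ψ w) hin
    have hsnd : HasFDerivAt (Ψ ∘ fun z : ℝ × (ℝ × ℝ) => (z.1, χ z))
        (ContinuousLinearMap.snd ℝ ℝ (ℝ × ℝ)) (w.1, Ψ w) :=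
      hasFDerivAt_snd.congr_of_eventuallyEq h3
    have := hcomp.unique hsnd
    have h5 := DFunLike.congr_fun this (α, y)
    simpa using h5
  · filter_upwards [hχe, hΨe, ri'] with w h1 h2 h3 α b
    have hin : HasFDerivAt (fun v : ℝ × (ℝ × ℝ) => (v.1, Ψ v))
        ((ContinuousLinearMap.fst ℝ ℝ (ℝ × ℝ)).prod (fderiv ℝ Ψ w)) w :=
      hasFDerivAt_fst.prodMk h2.differentiableAt.hasFDerivAt
    have hout : HasFDerivAt χ (fderiv ℝ χ (w.1, Ψ w))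
        ((fun v : ℝ × (ℝ × ℝ) => (v.1, Ψ v)) w) := h1.differentiableAt.hasFDerivAt
    have hcomp := hout.comp w hin
    have hsnd : HasFDerivAt (χ ∘ fun v : ℝ × (ℝ × ℝ) => (v.1, Ψ v))
        (ContinuousLinearMap.snd ℝ ℝ (ℝ × ℝ)) w :=
      hasFDerivAt_snd.congr_of_eventuallyEq h3
    have := hcomp.unique hsnd
    have h5 := DFunLike.congr_fun this (α, b)
    simpa using h5

theorem tri_chart {Fp : ℝ × P3 → P3} {t₀ : ℝ} {s₀ : ℝ × ℝ} {ξ₀ : ℝ}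
    (hF : AnalyticAt ℝ Fp (t₀, (s₀, ξ₀))) {e : ℝ × ℝ × ℝ → ℝ × ℝ} (he : AnalyticAt ℝ e (t₀, s₀))
    (he0 : e (t₀, s₀) ≠ 0)
    (h : ∀ᶠ p in 𝓝 (((t₀, s₀), ξ₀) : (ℝ × ℝ × ℝ) × ℝ),
      wd (sc Fp p - sc Fp (p.1, ξ₀)) (e p.1) = 0) :
    ∃ (L : ℝ × ℝ × ℝ → ℝ) (B F' : ℝ × V3 → ℝ) (Θ' : ℝ × V3 → P3) (Ξ' : ℝ × P3 → V3) (c : V3),
      Θ' (t₀, c) = (s₀, ξ₀) ∧ AnalyticAt ℝ L (t₀, c.1, c.2.1) ∧ AnalyticAt ℝ B (t₀, c) ∧
      AnalyticAt ℝ F' (t₀, c) ∧ Ch Fp ee (FF L B F') (GG fun _ => 1) Θ' Ξ' (t₀, c) := by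
  obtain ⟨A, hA⟩ := lin2 he0
  obtain ⟨Ψ, hΨa, hΨ0, hΨe, hΨA⟩ := box (S := ℝ) (V := ℝ × ℝ) he A hA
  obtain ⟨χ, Fq, hch⟩ := ch_of (F := fun _ => (0 : ℝ × ℝ)) (G := e)
    (Gp := fun _ => ((0, 1) : ℝ × ℝ)) (Θ := Ψ) (w₀ := (t₀, (0 : ℝ × ℝ))) hΨa A hΨA
    analyticAt_const analyticAt_const hΨe
  have hχa : AnalyticAt ℝ χ (t₀, s₀) := by
    have := hch.Ξa
    rwa [hΨ0] at this
  obtain ⟨D1, D2⟩ := tri_der hΨa hch.Ξa hch.li hch.ri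
  -- the new coordinates
  set c : V3 := (0, 0, ξ₀) with hc
  have hprc : tri_pr (t₀, c) = (t₀, (0 : ℝ × ℝ)) := rfl
  have hprca : AnalyticAt ℝ (fun w : ℝ × V3 => tri_pr w) (t₀, c) := tri_pr.analyticAt _
  have hxa : AnalyticAt ℝ (fun w : ℝ × V3 => w.2.2.2) (t₀, c) := tri_x.analyticAt _
  have hΨpr : AnalyticAt ℝ (fun w : ℝ × V3 => Ψ (tri_pr w)) (t₀, c) :=
    AnalyticAt.fun_comp (g := Ψ) (f := fun w : ℝ × V3 => tri_pr w) hΨa hprca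
  set Θ' : ℝ × V3 → P3 := fun w => (Ψ (tri_pr w), w.2.2.2) with hΘ'
  have hΘ'a : AnalyticAt ℝ Θ' (t₀, c) := hΨpr.prod hxa
  have hΘ'0 : Θ' (t₀, c) = (s₀, ξ₀) := by
    show (Ψ (t₀, (0 : ℝ × ℝ)), ξ₀) = (s₀, ξ₀)
    rw [hΨ0]
  have hfsta : AnalyticAt ℝ (fun w : ℝ × V3 => w.1) (t₀, c) := analyticAt_fst
  have hFpw : AnalyticAt ℝ (fun w : ℝ × V3 => Fp (w.1, Θ' w)) (t₀, c) := by
    refine AnalyticAt.fun_comp (g := Fp) (f := fun w : ℝ × V3 => (w.1, Θ' w)) ?_ (hfsta.prod hΘ'a)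
    show AnalyticAt ℝ Fp (t₀, Θ' (t₀, c))
    rw [hΘ'0]; exact hF
  have hF1 : AnalyticAt ℝ (fun w : ℝ × V3 => (Fp (w.1, Θ' w)).1) (t₀, c) :=
    AnalyticAt.fun_comp (g := Prod.fst) (f := fun w : ℝ × V3 => Fp (w.1, Θ' w)) analyticAt_fst hFpw
  have hF2 : AnalyticAt ℝ (fun w : ℝ × V3 => (Fp (w.1, Θ' w)).2) (t₀, c) :=
    AnalyticAt.fun_comp (g := Prod.snd) (f := fun w : ℝ × V3 => Fp (w.1, Θ' w)) analyticAt_snd hFpw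
  set K : ℝ × V3 → ℝ × ℝ := fun w =>
    fderiv ℝ χ (w.1, Ψ (tri_pr w)) (1, (Fp (w.1, Θ' w)).1) with hK
  have hDχ : AnalyticAt ℝ (fun w : ℝ × V3 => fderiv ℝ χ (w.1, Ψ (tri_pr w))) (t₀, c) := by
    refine AnalyticAt.fun_comp (g := fderiv ℝ χ) (f := fun w : ℝ × V3 => (w.1, Ψ (tri_pr w))) ?_
      (hfsta.prod hΨpr)
    show AnalyticAt ℝ (fderiv ℝ χ) (t₀, Ψ (t₀, (0 : ℝ × ℝ)))
    rw [hΨ0]; exact hχa.fderiv
  have hKa : AnalyticAt ℝ K (t₀, c) := tri_app hDχ (analyticAt_const.prod hF1)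
  have hK1 : AnalyticAt ℝ (fun w : ℝ × V3 => (K w).1) (t₀, c) :=
    AnalyticAt.fun_comp (g := Prod.fst) (f := K) analyticAt_fst hKa
  have hK2 : AnalyticAt ℝ (fun w : ℝ × V3 => (K w).2) (t₀, c) :=
    AnalyticAt.fun_comp (g := Prod.snd) (f := K) analyticAt_snd hKa
  set L : ℝ × ℝ × ℝ → ℝ := fun q => (K (q.1, (q.2.1, q.2.2, ξ₀))).1 with hL
  have hLa : AnalyticAt ℝ L (t₀, c.1, c.2.1) := by
    refine AnalyticAt.fun_comp (g := fun w : ℝ × V3 => (K w).1)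
      (f := fun q : ℝ × ℝ × ℝ => ((q.1, (q.2.1, q.2.2, ξ₀)) : ℝ × V3)) hK1 ?_
    have h1 : AnalyticAt ℝ (fun q : ℝ × ℝ × ℝ => q.1) (t₀, c.1, c.2.1) := analyticAt_fst
    have h2 : AnalyticAt ℝ (fun q : ℝ × ℝ × ℝ => q.2.1) (t₀, c.1, c.2.1) :=
      ((ContinuousLinearMap.fst ℝ ℝ ℝ).comp (ContinuousLinearMap.snd ℝ ℝ (ℝ × ℝ))).analyticAt _
    have h3 : AnalyticAt ℝ (fun q : ℝ × ℝ × ℝ => q.2.2) (t₀, c.1, c.2.1) :=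
      ((ContinuousLinearMap.snd ℝ ℝ ℝ).comp (ContinuousLinearMap.snd ℝ ℝ (ℝ × ℝ))).analyticAt _
    exact h1.prod (h2.prod (h3.prod analyticAt_const))
  set B : ℝ × V3 → ℝ := fun w => (K w).2 with hB
  set F' : ℝ × V3 → ℝ := fun w => (Fp (w.1, Θ' w)).2 with hF'
  set Ξ' : ℝ × P3 → V3 := fun z => ((χ (z.1, z.2.1)).1, (χ (z.1, z.2.1)).2, z.2.2) with hΞ'
  -- continuity of the projections
  have hprT : Tendsto (fun w : ℝ × V3 => tri_pr w) (𝓝 (t₀, c)) (𝓝 (t₀, (0 : ℝ × ℝ))) := by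
    have := tri_pr.continuous.continuousAt (x := (t₀, c))
    rwa [ContinuousAt, hprc] at this
  -- `K.1` does not depend on `x`
  have hKL : ∀ᶠ w in 𝓝 ((t₀, c) : ℝ × V3), (K w).1 = L (w.1, w.2.1, w.2.2.1) := by
    have hT : Tendsto (fun w : ℝ × V3 => (((w.1, Ψ (tri_pr w)), w.2.2.2) : (ℝ × ℝ × ℝ) × ℝ))
        (𝓝 (t₀, c)) (𝓝 ((t₀, s₀), ξ₀)) := by
      have h1 : ContinuousAt
          (fun w : ℝ × V3 => (((w.1, Ψ (tri_pr w)), w.2.2.2) : (ℝ × ℝ × ℝ) × ℝ)) (t₀, c) :=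
        (hfsta.continuousAt.prodMk hΨpr.continuousAt).prodMk hxa.continuousAt
      have h2 : (((t₀, Ψ (tri_pr (t₀, c))), ξ₀) : (ℝ × ℝ × ℝ) × ℝ) = ((t₀, s₀), ξ₀) := by
        rw [hprc, hΨ0]
      have h3 : Tendsto (fun w : ℝ × V3 => (((w.1, Ψ (tri_pr w)), w.2.2.2) : (ℝ × ℝ × ℝ) × ℝ))
          (𝓝 (t₀, c)) (𝓝 (((t₀, Ψ (tri_pr (t₀, c))), ξ₀) : (ℝ × ℝ × ℝ) × ℝ)) := h1.tendsto
      rwa [h2] at h3
    have hT1 : Tendsto (fun w : ℝ × V3 => ((w.1, Ψ (tri_pr w)) : ℝ × ℝ × ℝ))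
        (𝓝 (t₀, c)) (𝓝 (t₀, s₀)) := (continuous_fst.tendsto _).comp hT
    have hene : ∀ᶠ q in 𝓝 ((t₀, s₀) : ℝ × ℝ × ℝ), e q ≠ 0 := he.continuousAt.eventually_ne he0
    have g1 := hT.eventually h
    have g2 := hT1.eventually hene
    have g3 := hprT.eventually D2
    have g4 := hprT.eventually hΨe
    filter_upwards [g1, g2, g3, g4] with w k1 k2 k3 k4
    obtain ⟨r, hr⟩ := tri_wd k1 k2
    have hr' : (Fp (w.1, (Ψ (tri_pr w), w.2.2.2))).1 - (Fp (w.1, (Ψ (tri_pr w), ξ₀))).1 =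
        r • e (w.1, Ψ (tri_pr w)) := hr
    have hpr2 : tri_pr (w.1, (w.2.1, w.2.2.1, ξ₀)) = tri_pr w := rfl
    have e1 : L (w.1, w.2.1, w.2.2.1) =
        (fderiv ℝ χ (w.1, Ψ (tri_pr w)) (1, (Fp (w.1, (Ψ (tri_pr w), ξ₀))).1)).1 := rfl
    have e2 : (K w).1 =
        (fderiv ℝ χ (w.1, Ψ (tri_pr w)) (1, (Fp (w.1, (Ψ (tri_pr w), w.2.2.2))).1)).1 := rfl
    have k5 : fderiv ℝ χ (w.1, Ψ (tri_pr w)) (0, e (w.1, Ψ (tri_pr w))) = (0, 1) := by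
      have := k3 0 (0, 1)
      rw [k4] at this
      exact this
    have e3 : fderiv ℝ χ (w.1, Ψ (tri_pr w)) (1, (Fp (w.1, (Ψ (tri_pr w), w.2.2.2))).1) -
        fderiv ℝ χ (w.1, Ψ (tri_pr w)) (1, (Fp (w.1, (Ψ (tri_pr w), ξ₀))).1) = r • (0, 1) := by
      have e5 : ((0 : ℝ), r • e (w.1, Ψ (tri_pr w))) = r • ((0 : ℝ), e (w.1, Ψ (tri_pr w))) := by
        refine Prod.ext ?_ ?_
        · show (0 : ℝ) = r • (0 : ℝ)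
          rw [smul_zero]
        · rfl
      rw [← map_sub, Prod.mk_sub_mk, sub_self, hr', ← k5, ← map_smul, e5]
    have e4 := congrArg Prod.fst e3
    simp only [Prod.fst_sub, Prod.smul_fst, smul_zero] at e4
    rw [e1, e2]
    linarith
  -- the derivative of `Θ'`
  have hDΘ : ∀ᶠ w in 𝓝 ((t₀, c) : ℝ × V3), ∀ v : ℝ × V3,
      fderiv ℝ Θ' w v = (fderiv ℝ Ψ (tri_pr w) (tri_pr v), v.2.2.2) := by
    filter_upwards [hprT.eventually hΨa.eventually_analyticAt] with w hw v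
    have h1 : HasFDerivAt (fun w : ℝ × V3 => Ψ (tri_pr w)) ((fderiv ℝ Ψ (tri_pr w)).comp tri_pr) w :=
      hw.differentiableAt.hasFDerivAt.comp w tri_pr.hasFDerivAt
    have h2 : HasFDerivAt Θ' (((fderiv ℝ Ψ (tri_pr w)).comp tri_pr).prod tri_x) w :=
      h1.prodMk tri_x.hasFDerivAt
    rw [h2.fderiv]
    rfl
  refine ⟨L, B, F', Θ', Ξ', c, hΘ'0, hLa, hK2, hF2, ?_⟩
  have hpt : ((t₀, c) : ℝ × V3).1 = t₀ := rfl
  have hpp : (((t₀, c) : ℝ × V3).1, Θ' (t₀, c)) = ((t₀, (s₀, ξ₀)) : ℝ × P3) := by rw [hΘ'0]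
  have hzT : Tendsto (fun z : ℝ × P3 => ((z.1, z.2.1) : ℝ × (ℝ × ℝ))) (𝓝 (t₀, (s₀, ξ₀)))
      (𝓝 (t₀, s₀)) := by
    have : Continuous (fun z : ℝ × P3 => ((z.1, z.2.1) : ℝ × (ℝ × ℝ))) := by fun_prop
    exact this.tendsto _
  refine ⟨hΘ'a, ?_, ?_, ?_, ?_, ?_, ?_, ?_⟩
  · rw [hpp]
    have h1 : AnalyticAt ℝ (fun z : ℝ × P3 => χ (z.1, z.2.1)) (t₀, (s₀, ξ₀)) := by
      refine AnalyticAt.fun_comp (g := χ) (f := fun z : ℝ × P3 => (z.1, z.2.1)) hχa ?_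
      exact ((ContinuousLinearMap.fst ℝ ℝ P3).prod
        ((ContinuousLinearMap.fst ℝ (ℝ × ℝ) ℝ).comp (ContinuousLinearMap.snd ℝ ℝ P3))).analyticAt _
    have h2 : AnalyticAt ℝ (fun z : ℝ × P3 => (χ (z.1, z.2.1)).1) (t₀, (s₀, ξ₀)) :=
      AnalyticAt.fun_comp (g := Prod.fst) (f := fun z : ℝ × P3 => χ (z.1, z.2.1)) analyticAt_fst h1
    have h3 : AnalyticAt ℝ (fun z : ℝ × P3 => (χ (z.1, z.2.1)).2) (t₀, (s₀, ξ₀)) :=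
      AnalyticAt.fun_comp (g := Prod.snd) (f := fun z : ℝ × P3 => χ (z.1, z.2.1)) analyticAt_snd h1
    have h4 : AnalyticAt ℝ (fun z : ℝ × P3 => z.2.2) (t₀, (s₀, ξ₀)) :=
      ((ContinuousLinearMap.snd ℝ (ℝ × ℝ) ℝ).comp (ContinuousLinearMap.snd ℝ ℝ P3)).analyticAt _
    exact h2.prod (h3.prod h4)
  · rw [hpp]
    have g := hch.li
    rw [show (((t₀, (0 : ℝ × ℝ)) : ℝ × (ℝ × ℝ)).1, Ψ (t₀, (0 : ℝ × ℝ))) = (t₀, s₀) from by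
      rw [hΨ0]] at g
    filter_upwards [hzT.eventually g] with z hz
    have hz' : Ψ (z.1, χ (z.1, z.2.1)) = z.2.1 := hz
    show (Ψ (tri_pr (z.1, Ξ' z)), z.2.2) = z.2
    have : tri_pr (z.1, Ξ' z) = (z.1, χ (z.1, z.2.1)) := rfl
    rw [this, hz']
  · filter_upwards [hprT.eventually hch.ri] with w hw
    have hw' : χ (w.1, Ψ (tri_pr w)) = (w.2.1, w.2.2.1) := hw
    show ((χ (w.1, Ψ (tri_pr w))).1, (χ (w.1, Ψ (tri_pr w))).2, w.2.2.2) = w.2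
    rw [hw']
  · have hLw : AnalyticAt ℝ (fun w : ℝ × V3 => L (w.1, w.2.1, w.2.2.1)) (t₀, c) := by
      refine AnalyticAt.fun_comp (g := L) (f := fun w : ℝ × V3 => tri_pr w) hLa hprca
    exact hLw.prod (hK2.prod hF2)
  · exact analyticAt_const
  · filter_upwards [hDΘ, hKL, hprT.eventually D1] with w h1 h2 h3
    rw [h1]
    have e1 : tri_pr (1, FF L B F' w) = (1, K w) := by
      show (1, (L (w.1, w.2.1, w.2.2.1), (K w).2)) = (1, K w)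
      rw [← h2]
    rw [e1]
    have e2 : fderiv ℝ Ψ (tri_pr w) (1, K w) = (Fp (w.1, Θ' w)).1 := h3 1 (Fp (w.1, Θ' w)).1
    rw [e2]
    rfl
  · filter_upwards [hDΘ] with w h1
    rw [h1]
    have e1 : tri_pr (0, GG (fun _ => 1) w) = 0 := rfl
    rw [e1, map_zero]
    rfl

end Pool.Agent.Lib.MP_28b8de_an.DD
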