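import Pool.Agent.Lib.MP_28b8de_an.D.DDefs

/-!
MP_28b8de_an, module DWd.

Dependence in a flow box.
PROOF.  ee is constant: W Fp ee z = - fderiv Fp z (0,(0,1)) and WW Fp ee z = dx (W Fp ee) z (0,1) = - fderiv (fun z => fderiv Fp z (0,(0,1))) z (0,(0,1)) (near the point, all analytic).  With p = ((t,s),ξ), z = (t,(s,ξ)):
Dn (sc Fp) p = (fderiv Fp z (0,(0,1))).1 and Dn (Dn (sc Fp)) p = (second derivative).1 (chain rule with the linear isomorphism p ↦ z).  If a, b ∈ P3 have wd a.1 b.1 ≠ 0 then (0,1), a, b are independent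
(write α (0,1) + β a + γ b = 0: first components give β = γ = 0 by the determinant, then α = 0).  So Dep gives wd = 0.
-/

set_option linter.unusedSectionVars false

namespace Pool.Agent.Lib.MP_28b8de_an.DD

open Filter Topology Set MeasureTheory
open Pool.Agent.Lib.MP_28b8de_an.PT (Adm Perf)
open Pool.Agent.Lib.MP_28b8de_an.TT (Env Sol Jn Tr SmAt Goal W dx Dn V3 FF GG)

theorem li_of_wd {a b : P3} (h : wd a.1 b.1 ≠ 0) :
    LinearIndependent ℝ ![((0, 1) : P3), a, b] := by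
  rw [Fintype.linearIndependent_iff]
  intro g hg
  rw [Fin.sum_univ_three] at hg
  simp only [Matrix.cons_val_zero, Matrix.cons_val_one, Matrix.cons_val_two, Matrix.head_cons,
    Matrix.tail_cons] at hg
  have e1 : g 1 * a.1.1 + g 2 * b.1.1 = 0 := by
    have := congrArg (fun z : P3 => z.1.1) hg
    simpa using this
  have e2 : g 1 * a.1.2 + g 2 * b.1.2 = 0 := by
    have := congrArg (fun z : P3 => z.1.2) hg
    simpa using this
  have e3 : g 0 + g 1 * a.2 + g 2 * b.2 = 0 := by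
    have := congrArg (fun z : P3 => z.2) hg
    simpa using this
  unfold wd at h
  have h1 : g 1 = 0 := by
    have h4 : g 1 * (a.1.1 * b.1.2 - a.1.2 * b.1.1) = 0 := by linear_combination b.1.2 * e1 - b.1.1 * e2
    exact (mul_eq_zero.1 h4).resolve_right h
  have h2 : g 2 = 0 := by
    have h4 : g 2 * (a.1.1 * b.1.2 - a.1.2 * b.1.1) = 0 := by linear_combination a.1.1 * e2 - a.1.2 * e1
    exact (mul_eq_zero.1 h4).resolve_right h
  have h0 : g 0 = 0 := by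
    rw [h1, h2] at e3
    simpa using e3
  intro i
  fin_cases i
  · exact h0
  · exact h1
  · exact h2

/-- the change of coordinates -/
private noncomputable def DWdφ : ((ℝ × ℝ × ℝ) × ℝ) →L[ℝ] ℝ × P3 :=
  ((ContinuousLinearMap.fst ℝ ℝ (ℝ × ℝ)).comp (ContinuousLinearMap.fst ℝ (ℝ × ℝ × ℝ) ℝ)).prod
    (((ContinuousLinearMap.snd ℝ ℝ (ℝ × ℝ)).comp (ContinuousLinearMap.fst ℝ (ℝ × ℝ × ℝ) ℝ)).prod
      (ContinuousLinearMap.snd ℝ (ℝ × ℝ × ℝ) ℝ))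

private theorem DWd_φ (p : (ℝ × ℝ × ℝ) × ℝ) : DWdφ p = (p.1.1, (p.1.2, p.2)) := rfl

private theorem DWd_φ1 : DWdφ ((0, 1) : (ℝ × ℝ × ℝ) × ℝ) = (0, (0, 1)) := rfl

private theorem DWd_Dn (K : ℝ × P3 → P3) (p : (ℝ × ℝ × ℝ) × ℝ) (hK : DifferentiableAt ℝ K (DWdφ p)) :
    Dn (fun p => (K (DWdφ p)).1) p = (fderiv ℝ K (DWdφ p) (0, (0, 1))).1 := by
  have h1 : HasFDerivAt (fun p => (K (DWdφ p)).1)
      ((ContinuousLinearMap.fst ℝ (ℝ × ℝ) ℝ).comp ((fderiv ℝ K (DWdφ p)).comp DWdφ)) p :=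
    (ContinuousLinearMap.fst ℝ (ℝ × ℝ) ℝ).hasFDerivAt.comp p (hK.hasFDerivAt.comp p DWdφ.hasFDerivAt)
  unfold Dn
  rw [h1.fderiv]
  rfl

private theorem DWd_W (Fp : ℝ × P3 → P3) (z : ℝ × P3) : W Fp ee z = -fderiv ℝ Fp z (0, (0, 1)) := by
  have h0 : fderiv ℝ (ee : ℝ × P3 → P3) z = 0 := fderiv_const_apply _
  unfold W dx
  rw [h0]
  simp [ee]

private theorem DWd_WW (Fp : ℝ × P3 → P3) (z : ℝ × P3) :
    WW Fp ee z = -fderiv ℝ (fun z => fderiv ℝ Fp z (0, (0, 1))) z (0, (0, 1)) := by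
  have h0 : fderiv ℝ (ee : ℝ × P3 → P3) z = 0 := fderiv_const_apply _
  have h1 : W Fp ee = fun z => -fderiv ℝ Fp z (0, (0, 1)) := funext (DWd_W Fp)
  unfold WW dx
  rw [h0, h1, fderiv_fun_neg]
  simp [ee]

theorem dep_wd {Fp : ℝ × P3 → P3} {t₀ : ℝ} {s₀ : ℝ × ℝ} {ξ₀ : ℝ}
    (hF : AnalyticAt ℝ Fp (t₀, (s₀, ξ₀))) (hd : Dep Fp ee (t₀, (s₀, ξ₀))) :
    ∀ᶠ p in 𝓝 (((t₀, s₀), ξ₀) : (ℝ × ℝ × ℝ) × ℝ),
      wd (Dn (sc Fp) p) (Dn (Dn (sc Fp)) p) = 0 := by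
  have hz0 : DWdφ ((t₀, s₀), ξ₀) = (t₀, (s₀, ξ₀)) := rfl
  have hc : Tendsto (fun p => DWdφ p) (𝓝 (((t₀, s₀), ξ₀) : (ℝ × ℝ × ℝ) × ℝ)) (𝓝 (t₀, (s₀, ξ₀))) := by
    rw [← hz0]
    exact DWdφ.continuous.tendsto _
  have hFa := hc.eventually hF.eventually_analyticAt
  have hd' := hc.eventually hd
  filter_upwards [hFa.eventually_nhds, hd'] with p hp hdp
  have hp0 : AnalyticAt ℝ Fp (DWdφ p) := hp.self_of_nhds
  have hH : AnalyticAt ℝ (fun z => fderiv ℝ Fp z (0, (0, 1))) (DWdφ p) :=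
    ((ContinuousLinearMap.apply ℝ P3 ((0, (0, 1)) : ℝ × P3)).analyticAt _).comp hp0.fderiv
  have e1 : ∀ p' : (ℝ × ℝ × ℝ) × ℝ, AnalyticAt ℝ Fp (DWdφ p') →
      Dn (sc Fp) p' = (fderiv ℝ Fp (DWdφ p') (0, (0, 1))).1 := by
    intro p' h'
    exact DWd_Dn Fp p' h'.differentiableAt
  have e2 : Dn (Dn (sc Fp)) p = (fderiv ℝ (fun z => fderiv ℝ Fp z (0, (0, 1))) (DWdφ p) (0, (0, 1))).1 := by
    have h1 : Dn (sc Fp) =ᶠ[𝓝 p] fun p' => ((fun z => fderiv ℝ Fp z (0, (0, 1))) (DWdφ p')).1 := by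
      filter_upwards [hp] with p' hp'
      exact e1 p' hp'
    have h2 := DWd_Dn (fun z => fderiv ℝ Fp z (0, (0, 1))) p hH.differentiableAt
    rw [← h2]
    have h3 := Filter.EventuallyEq.fderiv_eq (𝕜 := ℝ) h1
    exact congrArg (fun T => T ((0, 1) : (ℝ × ℝ × ℝ) × ℝ)) h3
  rw [e1 p hp0, e2]
  by_contra hne
  apply hdp
  have h3 : wd (W Fp ee (DWdφ p)).1 (WW Fp ee (DWdφ p)).1 ≠ 0 := by
    rw [DWd_W, DWd_WW]
    intro h4
    apply hne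
    unfold wd at h4 ⊢
    simpa using h4
  exact li_of_wd h3

end Pool.Agent.Lib.MP_28b8de_an.DD
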