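import Pool.Agent.Lib.MP_28b8de_an.D.DCaseB
import Pool.Agent.Lib.MP_28b8de_an.D.DCaseC
import Pool.Agent.Lib.MP_28b8de_an.D.DDir
import Pool.Agent.Lib.MP_28b8de_an.D.DTri
import Pool.Agent.Lib.MP_28b8de_an.D.DWd
import Pool.Agent.Lib.MP_28b8de_an.D.DBr
import Pool.Agent.Lib.MP_28b8de_an.D.DPull

/-!
MP_28b8de_an, module DLocal.

Every perfect set contains a point near which the trajectory can be replaced.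
-/

set_option linter.unusedSectionVars false

namespace Pool.Agent.Lib.MP_28b8de_an.DD

open Filter Topology Set MeasureTheory
open Pool.Agent.Lib.MP_28b8de_an.PT (Adm Perf)
open Pool.Agent.Lib.MP_28b8de_an.TT (Env Sol Jn Tr SmAt Goal W dx Dn V3 FF GG)

variable {V : Type*} [NormedAddCommGroup V] [NormedSpace ℝ V] [FiniteDimensional ℝ V]

/-- replacement at a point where the velocity is not flat -/
theorem caseA {F G : ℝ × V → V} {Fp : ℝ × P3 → P3} {Θ : ℝ × P3 → V} {Ξ : ℝ × V → P3} {t₀ : ℝ}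
    {r : ℝ → P3} (h : Ch F G Fp ee Θ Ξ (t₀, r t₀)) {u : ℝ → ℝ} (hu : Adm u) {x : ℝ → V}
    (hF : AnalyticAt ℝ F (t₀, x t₀)) (hG : AnalyticAt ℝ G (t₀, x t₀))
    (hr : LTraj Fp ee u r t₀) (hxr : ∀ᶠ t in 𝓝 t₀, x t = Θ (t, r t)) (hd : Dep F G (t₀, x t₀))
    {j : ℕ} (hj : Dn^[j + 1] (sc Fp) ((t₀, (r t₀).1), (r t₀).2) ≠ 0) : LRep F G x t₀ := by
  have hx0 : x t₀ = Θ (t₀, r t₀) := hxr.self_of_nhds
  rw [hx0] at hF hG hd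
  have hd' : Dep Fp ee (t₀, r t₀) := ch_dep h hF hG hd
  have hsa : AnalyticAt ℝ (sc Fp) (((t₀, (r t₀).1), (r t₀).2) : (ℝ × ℝ × ℝ) × ℝ) := by
    have h1 : AnalyticAt ℝ (fun p : (ℝ × ℝ × ℝ) × ℝ => ((p.1.1, (p.1.2, p.2)) : ℝ × P3))
        ((t₀, (r t₀).1), (r t₀).2) :=
      (analyticAt_fst.fun_comp analyticAt_fst).prod
        ((analyticAt_snd.fun_comp analyticAt_fst).prod analyticAt_snd)
    have h2 : AnalyticAt ℝ (fun p : (ℝ × ℝ × ℝ) × ℝ => Fp (p.1.1, (p.1.2, p.2)))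
        ((t₀, (r t₀).1), (r t₀).2) :=
      AnalyticAt.fun_comp (g := Fp) (f := fun p : (ℝ × ℝ × ℝ) × ℝ => ((p.1.1, (p.1.2, p.2)) : ℝ × P3))
        h.Fa h1
    exact analyticAt_fst.fun_comp h2
  have hw := dep_wd (t₀ := t₀) (s₀ := (r t₀).1) (ξ₀ := (r t₀).2) h.Fa hd'
  obtain ⟨e, he, he0, hwd⟩ := direction hsa hw hj
  obtain ⟨L, B, F', Θ', Ξ', c, hc, hL, hB, hF', hCh⟩ := tri_chart h.Fa he he0 hwd
  have h0 : r t₀ = Θ' (t₀, c) := hc.symm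
  have hFa : AnalyticAt ℝ Fp (t₀, r t₀) := h.Fa
  have hea : AnalyticAt ℝ ee (t₀, r t₀) := h.Ga
  obtain ⟨h1, h2, h3⟩ := ltraj_pull hCh hu h0 hFa hea hr
  have hr' : (fun t => Ξ' (t, r t)) t₀ = c := h2
  have hT : LRep (FF L B F') (GG fun _ => 1) (fun t => Ξ' (t, r t)) t₀ := by
    apply tri_lrep hu
    · show AnalyticAt ℝ L (t₀, (Ξ' (t₀, r t₀)).1, (Ξ' (t₀, r t₀)).2.1)
      rw [h2]
      exact hL
    · show AnalyticAt ℝ B (t₀, Ξ' (t₀, r t₀))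
      rw [h2]
      exact hB
    · show AnalyticAt ℝ F' (t₀, Ξ' (t₀, r t₀))
      rw [h2]
      exact hF'
    · exact analyticAt_const
    · exact h1
  have hP : LRep Fp ee r t₀ := by
    apply lrep_push (Fp := FF L B F') (Gp := GG fun _ => 1) (Θ := Θ') (r := fun t => Ξ' (t, r t))
    · show AnalyticAt ℝ (FF L B F') (t₀, Ξ' (t₀, r t₀))
      rw [h2]
      exact hCh.Fa
    · show AnalyticAt ℝ (GG fun _ => 1) (t₀, Ξ' (t₀, r t₀))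
      rw [h2]
      exact hCh.Ga
    · show AnalyticAt ℝ Θ' (t₀, Ξ' (t₀, r t₀))
      rw [h2]
      exact hCh.Θa
    · show ∀ᶠ w in 𝓝 (t₀, Ξ' (t₀, r t₀)), _
      rw [h2]
      exact hCh.F1
    · show ∀ᶠ w in 𝓝 (t₀, Ξ' (t₀, r t₀)), _
      rw [h2]
      exact hCh.G1
    · exact h3
    · exact hT
  exact lrep_push h.Fa h.Ga h.Θa h.F1 h.G1 hxr hP

/-- the local theorem -/
theorem local_main (h3 : Module.finrank ℝ V = 3) {F G : ℝ × V → V} {u : ℝ → ℝ} (hu : Adm u)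
    {x : ℝ → V} {T : ℝ} (hT : 0 < T) {C : Set ℝ} (hC : Perf T C)
    (hF : ∀ t ∈ Ioo 0 T, AnalyticAt ℝ F (t, x t)) (hG : ∀ t ∈ Ioo 0 T, AnalyticAt ℝ G (t, x t))
    (hx : ∀ t ∈ Ioo 0 T, LTraj F G u x t) (hd : ∀ t ∈ Ioo 0 T, Dep F G (t, x t)) :
    ∃ t₀ ∈ C, t₀ ∈ Ioo 0 T ∧ LRep F G x t₀ := by
  obtain ⟨c₀, hc₀⟩ := hC.ne
  obtain ⟨t₀, ht₀C, -, ht₀⟩ := Pool.Agent.Lib.MP_28b8de_an.PT.perf_inner hT hC (α := c₀ - 1) (β := c₀ + 1)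
    ⟨c₀, hc₀, by linarith, by linarith⟩
  by_cases hne : ∃ t ∈ C, t ∈ Ioo 0 T ∧ G (t, x t) ≠ 0
  swap
  · push Not at hne
    refine ⟨t₀, ht₀C, ht₀, caseB hu hC ht₀C (hF t₀ ht₀) (hG t₀ ht₀) (hx t₀ ht₀) ?_⟩
    filter_upwards [isOpen_Ioo.mem_nhds ht₀] with t ht htC
    exact hne t htC ht
  obtain ⟨t₁, ht₁C, ht₁, hG1⟩ := hne
  obtain ⟨A, hA⟩ := lin3 h3 hG1
  obtain ⟨Θ, hΘa, hΘ0, hΘ1, hΘ2⟩ := box (hG t₁ ht₁) A hA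
  have hF1 : AnalyticAt ℝ F (((t₁, 0) : ℝ × P3).1, Θ (t₁, 0)) := by
    show AnalyticAt ℝ F (t₁, Θ (t₁, 0))
    rw [hΘ0]
    exact hF t₁ ht₁
  obtain ⟨Ξ, Fp, hch⟩ := ch_of (F := F) (G := G) (Gp := ee) hΘa A hΘ2 hF1 analyticAt_const hΘ1
  obtain ⟨hr, hr0, hxr⟩ := ltraj_pull hch hu hΘ0.symm (hF t₁ ht₁) (hG t₁ ht₁) (hx t₁ ht₁)
  set r : ℝ → P3 := fun t => Ξ (t, x t) with hrd
  have hrt : r t₁ = 0 := hr0
  have hch1 : Ch F G Fp ee Θ Ξ (t₁, r t₁) := by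
    rw [hrt]
    exact hch
  by_cases hflat : ∀ᶠ t in 𝓝 t₁, t ∈ C → ∀ j : ℕ, Dn^[j + 1] (sc Fp) ((t, (r t).1), (r t).2) = 0
  · exact ⟨t₁, ht₁C, ht₁, caseC hch1 hu hr hxr hC ht₁C hflat⟩
  have hrc : ContinuousAt r t₁ := (ltraj_cont hr).self_of_nhds
  have hch2 : ∀ᶠ t in 𝓝 t₁, Ch F G Fp ee Θ Ξ (t, r t) :=
    (continuousAt_id.prodMk hrc).eventually (ch_ev hch1)
  have hr2 : ∀ᶠ t in 𝓝 t₁, LTraj Fp ee u r t := ltraj_ev hr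
  have hx2 : ∀ᶠ t in 𝓝 t₁, ∀ᶠ t' in 𝓝 t, x t' = Θ (t', r t') := hxr.eventually_nhds
  have hT2 : ∀ᶠ t in 𝓝 t₁, t ∈ Ioo 0 T := isOpen_Ioo.mem_nhds ht₁
  have hfr : ∃ᶠ t in 𝓝 t₁, ¬ (t ∈ C → ∀ j : ℕ, Dn^[j + 1] (sc Fp) ((t, (r t).1), (r t).2) = 0) :=
    Filter.not_eventually.1 hflat
  obtain ⟨t₂, hn, ⟨⟨h4, h5⟩, h6⟩, h7⟩ :=
    (hfr.and_eventually (((hch2.and hr2).and hx2).and hT2)).exists
  push Not at hn
  obtain ⟨ht₂C, j, hj⟩ := hn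
  exact ⟨t₂, ht₂C, h7, caseA h4 hu (hF t₂ h7) (hG t₂ h7) h5 h6 (hd t₂ h7) hj⟩

end Pool.Agent.Lib.MP_28b8de_an.DD
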