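import Pool.Agent.Lib.MP_28b8de_an.D.DDepE
import Pool.Agent.Lib.MP_28b8de_an.D.DLocal
import Pool.Agent.Lib.MP_28b8de_an.T.TEmb
import Pool.Agent.Lib.MP_28b8de_an.T.TOdeAn

/-!
MP_28b8de_an, module DMain.

The replacement theorem for cut off systems with dependent brackets.
-/

set_option linter.unusedSectionVars false

namespace Pool.Agent.Lib.MP_28b8de_an.DD

open Filter Topology Set MeasureTheory
open Pool.Agent.Lib.MP_28b8de_an.PT (Adm Perf)
open Pool.Agent.Lib.MP_28b8de_an.TT (Env Sol Jn Tr SmAt Goal W dx Dn V3 FF GG)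

variable {E V : Type*} [NormedAddCommGroup E] [NormedSpace ℝ E] [FiniteDimensional ℝ E]
  [NormedAddCommGroup V] [NormedSpace ℝ V] [FiniteDimensional ℝ V]

theorem dd_main (h3 : Module.finrank ℝ V = 3) {σ : E → E} {F G : E × V → V}
    {F' G' : ℝ × (E × V) → E × V} {M T : ℝ} {u : ℝ → ℝ} {q : ℝ → E × V} (h : Tr F' G' M T u q)
    (hσ : AnalyticOnNhd ℝ σ univ) (hF : AnalyticOnNhd ℝ F univ) (hG : AnalyticOnNhd ℝ G univ)
    (e1 : ∀ t ∈ Ioo 0 T, ∀ᶠ z in 𝓝 (t, q t), F' z = dr σ F z.2)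
    (e2 : ∀ t ∈ Ioo 0 T, ∀ᶠ z in 𝓝 (t, q t), G' z = cf G z.2) (hd : DepE σ F G) :
    Jn F' G' q 0 T := by
  haveI : CompleteSpace E := FiniteDimensional.complete ℝ E
  haveI : CompleteSpace V := FiniteDimensional.complete ℝ V
  have hFa : ∀ t ∈ Ioo 0 T, AnalyticAt ℝ F' (t, q t) := by
    intro t ht
    have h1 : AnalyticAt ℝ (dr σ F) (q t) :=
      (AnalyticAt.fun_comp (g := σ) (f := fun z : E × V => z.1) (hσ _ (mem_univ _))
        analyticAt_fst).prod (hF _ (mem_univ _))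
    have h2 : AnalyticAt ℝ (fun z : ℝ × (E × V) => dr σ F z.2) (t, q t) :=
      AnalyticAt.fun_comp (g := dr σ F) (f := fun z : ℝ × (E × V) => z.2) h1 analyticAt_snd
    refine h2.congr ?_
    filter_upwards [e1 t ht] with z hz
    exact hz.symm
  have hGa : ∀ t ∈ Ioo 0 T, AnalyticAt ℝ G' (t, q t) := by
    intro t ht
    have h1 : AnalyticAt ℝ (cf G) (q t) := analyticAt_const.prod (hG _ (mem_univ _))
    have h2 : AnalyticAt ℝ (fun z : ℝ × (E × V) => cf G z.2) (t, q t) :=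
      AnalyticAt.fun_comp (g := cf G) (f := fun z : ℝ × (E × V) => z.2) h1 analyticAt_snd
    refine h2.congr ?_
    filter_upwards [e2 t ht] with z hz
    exact hz.symm
  set s : ℝ → E := fun t => (q t).1 with hs
  set x : ℝ → V := fun t => (q t).2 with hx
  have hqc : ∀ t ∈ Ioo 0 T, ContinuousAt q t := fun t ht =>
    h.sol.cont.continuousAt (Icc_mem_nhds ht.1 ht.2)
  have hgr : ∀ {P : ℝ × (E × V) → Prop} {t : ℝ}, t ∈ Ioo 0 T → (∀ᶠ z in 𝓝 (t, q t), P z) →
      ∀ᶠ τ in 𝓝 t, P (τ, q τ) := by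
    intro P t ht hP
    exact (continuousAt_id.prodMk (hqc t ht)).eventually hP
  have hsd : ∀ t ∈ Ioo 0 T, ∀ᶠ τ in 𝓝 t, HasDerivAt s (σ (s τ)) τ := by
    intro t ht
    have h1 := ltraj_hd h.adm (ltraj_tr h ht) (ContinuousLinearMap.fst ℝ E V) (hFa t ht) (hGa t ht) (by
      filter_upwards [e2 t ht] with z hz
      rw [hz]
      rfl)
    filter_upwards [h1, hgr ht (e1 t ht)] with τ hτ hτ2
    have h2 : (ContinuousLinearMap.fst ℝ E V) (F' (τ, q τ)) = σ (s τ) := by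
      rw [hτ2]
      rfl
    rw [h2] at hτ
    exact hτ
  have hsa : ∀ t ∈ Ioo 0 T, AnalyticAt ℝ s t := by
    intro t ht
    exact TT.ode_an (Φ := fun z : ℝ × E => σ z.2)
      (AnalyticAt.fun_comp (g := σ) (f := fun z : ℝ × E => z.2) (hσ _ (mem_univ _)) analyticAt_snd)
      (hsd t ht)
  have hΘa : ∀ t ∈ Ioo 0 T, AnalyticAt ℝ (fun w : ℝ × V => ((s w.1, w.2) : E × V)) (t, x t) :=
    fun t ht => (AnalyticAt.fun_comp (g := s) (f := fun w : ℝ × V => w.1) (hsa t ht)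
      analyticAt_fst).prod analyticAt_snd
  have hF₀ : ∀ t ∈ Ioo 0 T, AnalyticAt ℝ (fun z : ℝ × V => F (s z.1, z.2)) (t, x t) := fun t ht =>
    AnalyticAt.fun_comp (g := F) (f := fun w : ℝ × V => ((s w.1, w.2) : E × V))
      (hF _ (mem_univ _)) (hΘa t ht)
  have hG₀ : ∀ t ∈ Ioo 0 T, AnalyticAt ℝ (fun z : ℝ × V => G (s z.1, z.2)) (t, x t) := fun t ht =>
    AnalyticAt.fun_comp (g := G) (f := fun w : ℝ × V => ((s w.1, w.2) : E × V))
      (hG _ (mem_univ _)) (hΘa t ht)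
  have hxL : ∀ t ∈ Ioo 0 T, LTraj (fun z : ℝ × V => F (s z.1, z.2))
      (fun z : ℝ × V => G (s z.1, z.2)) u x t := by
    intro t ht
    obtain ⟨ε, hε, hball⟩ := Metric.eventually_nhds_iff_ball.1
      ((hgr ht (e1 t ht)).and (hgr ht (e2 t ht)))
    obtain ⟨ε', hε', h4, h5⟩ := ltraj_tr h ht
    obtain ⟨δ, hδ, hδ1, hδ2, hδ3, hδ4⟩ : ∃ δ > 0, δ ≤ ε ∧ δ ≤ ε' ∧ 0 ≤ t - δ ∧ t + δ ≤ T := by
      refine ⟨min (min ε ε') (min t (T - t)), lt_min (lt_min hε hε') (lt_min ht.1 (by linarith [ht.2])),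
        (min_le_left _ _).trans (min_le_left _ _), (min_le_left _ _).trans (min_le_right _ _), ?_, ?_⟩
      · have := (min_le_right (min ε ε') (min t (T - t))).trans (min_le_left _ _)
        linarith
      · have := (min_le_right (min ε ε') (min t (T - t))).trans (min_le_right _ _)
        linarith
    refine ⟨δ, hδ, ?_, ?_⟩
    · have h6 : ContinuousOn q (Ioo (t - δ) (t + δ)) :=
        h4.mono (Ioo_subset_Ioo (by linarith) (by linarith))
      exact continuous_snd.comp_continuousOn h6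
    · intro a ha b hb
      have ha' : a ∈ Icc 0 T := ⟨by linarith [ha.1], by linarith [ha.2]⟩
      have hb' : b ∈ Icc 0 T := ⟨by linarith [hb.1], by linarith [hb.2]⟩
      have h7 := TT.sol_sub h.env h.adm h.sol ha' hb'
      have h8 := TT.rhs_int h.env h.adm h.sol.cont ha' hb'
      have h9 := (ContinuousLinearMap.snd ℝ E V).intervalIntegral_comp_comm h8
      have h10 : x b - x a = (ContinuousLinearMap.snd ℝ E V) (q b - q a) := rfl
      rw [h10, h7, ← h9]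
      apply intervalIntegral.integral_congr
      intro τ hτ
      have hτ' : τ ∈ Metric.ball t ε := by
        rw [Metric.mem_ball, Real.dist_eq, abs_lt]
        rcases le_total a b with hab | hab
        · rw [uIcc_of_le hab] at hτ
          exact ⟨by linarith [ha.1, hτ.1], by linarith [hb.2, hτ.2]⟩
        · rw [uIcc_of_ge hab] at hτ
          exact ⟨by linarith [hb.1, hτ.1], by linarith [ha.2, hτ.2]⟩
      obtain ⟨k1, k2⟩ := hball τ hτ'
      show (ContinuousLinearMap.snd ℝ E V) (F' (τ, q τ) + u τ • G' (τ, q τ)) =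
        F (s τ, x τ) + u τ • G (s τ, x τ)
      rw [k1, k2]
      rfl
  have hdep : ∀ t ∈ Ioo 0 T, Dep (fun z : ℝ × V => F (s z.1, z.2))
      (fun z : ℝ × V => G (s z.1, z.2)) (t, x t) := fun t ht =>
    dep_of (hsa t ht) (hsd t ht) (hσ _ (mem_univ _)) (hF _ (mem_univ _)) (hG _ (mem_univ _)) hd
  apply TT.principle h.env h.hT h.sol.cont
  intro C hC _
  obtain ⟨t₀, ht₀C, ht₀, hrep⟩ := local_main h3 h.adm h.hT hC hF₀ hG₀ hxL hdep
  have hpush : LRep F' G' q t₀ := by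
    apply lrep_push (Θ := fun w : ℝ × V => ((s w.1, w.2) : E × V)) (r := x) (hF₀ t₀ ht₀)
      (hG₀ t₀ ht₀) (hΘa t₀ ht₀) ?_ ?_ ?_ hrep
    · have h1 : ∀ᶠ w in 𝓝 (t₀, x t₀), F' (w.1, (s w.1, w.2)) = dr σ F (s w.1, w.2) :=
        (continuousAt_fst.prodMk (hΘa t₀ ht₀).continuousAt).eventually (e1 t₀ ht₀)
      have h2 : Tendsto (fun w : ℝ × V => w.1) (𝓝 (t₀, x t₀)) (𝓝 t₀) := continuous_fst.tendsto _
      filter_upwards [h1, h2.eventually (hsd t₀ ht₀)] with w hw hw2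
      have h4 : HasFDerivAt (fun w : ℝ × V => s w.1)
          ((ContinuousLinearMap.toSpanSingleton ℝ (σ (s w.1))).comp
            (ContinuousLinearMap.fst ℝ ℝ V)) w :=
        HasFDerivAt.comp (g := s) (f := fun w : ℝ × V => w.1) w hw2.hasFDerivAt hasFDerivAt_fst
      have h5 : HasFDerivAt (fun w : ℝ × V => ((s w.1, w.2) : E × V)) _ w :=
        h4.prodMk hasFDerivAt_snd
      rw [h5.fderiv, hw]
      simp [dr]
    · have h1 : ∀ᶠ w in 𝓝 (t₀, x t₀), G' (w.1, (s w.1, w.2)) = cf G (s w.1, w.2) :=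
        (continuousAt_fst.prodMk (hΘa t₀ ht₀).continuousAt).eventually (e2 t₀ ht₀)
      have h2 : Tendsto (fun w : ℝ × V => w.1) (𝓝 (t₀, x t₀)) (𝓝 t₀) := continuous_fst.tendsto _
      filter_upwards [h1, h2.eventually (hsd t₀ ht₀)] with w hw hw2
      have h4 : HasFDerivAt (fun w : ℝ × V => s w.1)
          ((ContinuousLinearMap.toSpanSingleton ℝ (σ (s w.1))).comp
            (ContinuousLinearMap.fst ℝ ℝ V)) w :=
        HasFDerivAt.comp (g := s) (f := fun w : ℝ × V => w.1) w hw2.hasFDerivAt hasFDerivAt_fst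
      have h5 : HasFDerivAt (fun w : ℝ × V => ((s w.1, w.2) : E × V)) _ w :=
        h4.prodMk hasFDerivAt_snd
      rw [h5.fderiv, hw]
      simp [cf]
    · exact Eventually.of_forall fun t => rfl
  obtain ⟨δ, hδ, hjn⟩ := lrep_jn h ht₀ hpush
  exact TT.emb_goal ht₀C hδ hjn

end Pool.Agent.Lib.MP_28b8de_an.DD
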