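import Pool.Agent.Lib.MP_28b8de_an.D.DDefs
import Pool.Agent.Lib.MP_28b8de_an.T.TRescale
import Pool.Agent.Lib.MP_28b8de_an.T.TMain
import Pool.Agent.Lib.MP_28b8de_an.T.TCut

/-!
MP_28b8de_an, module DTriLoc.

Local replacement for triangular systems analytic near a point.
PROOF.  Same argument as `TT.planar_local` (file T/TRescale.lean, please adapt it), with `TT.replace` (file T/TMain.lean, structure TS) instead of `PT.replace`.
Given κ: c := r t₀, ρ > 0 such that L is analytic on the ball of radius ρ about (t₀, c.1, c.2.1) and B, F, G on the ball of radius ρ about (t₀, c); ε := min (κ/2) (ρ/16).  Choose δ ≤ ε with ‖r t - c‖ ≤ ε for |t - t₀| < δ (r is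
continuous near t₀) and δ ≤ the radius in LTraj.  For s < s' with |s - t₀|, |s' - t₀| < δ rescale: L̂ (τ,z,y) := L (s + ε τ, c.1 + ε z, c.2.1 + ε y), B̂ (τ,p) := B (s + ε τ, c + ε • p), ..., analytic on balls of radius 10;
multiply by a bump function (= 1 on the ball of radius 5) and estimate with `TT.bd_of_compact` (T/TCut.lean; see `cut_tri` there for how Env (FF L' B' F') (GG G') M is obtained from the bounds Bd);
T̂ = (s'-s)/ε ≤ 2, r̂ τ = (r (s + ε τ) - c)/ε, |r̂| ≤ 1: TS L' B' F' G' 5 M' T̂ û r̂.  Scale back.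
-/

set_option linter.unusedSectionVars false

namespace Pool.Agent.Lib.MP_28b8de_an.DD

open Filter Topology Set MeasureTheory
open Pool.Agent.Lib.MP_28b8de_an.PT (Adm Perf)
open Pool.Agent.Lib.MP_28b8de_an.TT (Env Sol Jn Tr SmAt Goal W dx Dn V3 FF GG)

/-- cutting off a function analytic on the ball of radius 10 -/
private theorem DTriLoc_cut {X : Type*} [NormedAddCommGroup X] [NormedSpace ℝ X]
    [FiniteDimensional ℝ X] {H : X → ℝ} (hH : ∀ z, ‖z‖ < 10 → AnalyticAt ℝ H z) :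
    ∃ (H' : X → ℝ) (M : ℝ), TT.Bd M H' ∧ AnalyticOnNhd ℝ H' (Metric.ball 0 5) ∧
      ∀ z ∈ Metric.ball (0 : X) 5, H' z = H z := by
  have : ProperSpace X := FiniteDimensional.proper ℝ X
  let χ : ContDiffBump (0 : X) := ⟨5, 6, by norm_num, by norm_num⟩
  have hχs : ContDiff ℝ (⊤ : ℕ∞) χ := χ.contDiff
  have hχc : HasCompactSupport χ := χ.hasCompactSupport
  have hχ1 : ∀ z ∈ Metric.ball (0 : X) 5, χ z = 1 := fun z hz =>
    χ.one_of_mem_closedBall (Metric.ball_subset_closedBall hz)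
  have hsm : ContDiff ℝ (⊤ : ℕ∞) (fun z => χ z * H z) := by
    rw [contDiff_iff_contDiffAt]
    intro z
    by_cases hz : ‖z‖ < 10
    · exact hχs.contDiffAt.mul (hH z hz).contDiffAt
    · have hz' : z ∉ tsupport χ := by
        rw [χ.tsupport_eq, Metric.mem_closedBall, dist_zero_right]
        show ¬ ‖z‖ ≤ 6
        intro h
        apply hz
        linarith
      have h0 : (fun z => χ z * H z) =ᶠ[𝓝 z] fun _ => 0 := by
        filter_upwards [notMem_tsupport_iff_eventuallyEq.1 hz'] with w hw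
        rw [hw, Pi.zero_apply, zero_mul]
      exact contDiffAt_const.congr_of_eventuallyEq h0
  obtain ⟨M, hM⟩ := TT.bd_of_compact (H := fun z => χ z * H z) hsm (hχc.mul_right)
  have e1 : ∀ z ∈ Metric.ball (0 : X) 5, χ z * H z = H z := fun z hz => by rw [hχ1 z hz, one_mul]
  refine ⟨fun z => χ z * H z, M, hM, ?_, e1⟩
  intro z hz
  have hz5 : ‖z‖ < 5 := by rwa [mem_ball_zero_iff] at hz
  refine (hH z (by linarith)).congr ?_
  filter_upwards [Metric.isOpen_ball.mem_nhds hz] with w hw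
  exact (e1 w hw).symm

/-- smoothness transfers by the affine change of variables -/
private theorem DTriLoc_sm {V : Type*} [NormedAddCommGroup V] [NormedSpace ℝ V] {ρ : ℝ → V} {c : V}
    {s ε : ℝ} (hε : 0 < ε) {t : ℝ} (h : SmAt ρ ((t - s) / ε)) :
    SmAt (fun t => c + ε • ρ ((t - s) / ε)) t := by
  obtain ⟨δ, hδ, h⟩ := h
  refine ⟨ε * δ, by positivity, ?_⟩
  have h1 : ContDiffOn ℝ (⊤ : ℕ∞) (fun t : ℝ => (t - s) / ε) (Ioo (t - ε * δ) (t + ε * δ)) :=
    ((contDiff_id.sub contDiff_const).div_const ε).contDiffOn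
  have h2 : MapsTo (fun t : ℝ => (t - s) / ε) (Ioo (t - ε * δ) (t + ε * δ))
      (Ioo ((t - s) / ε - δ) ((t - s) / ε + δ)) := by
    intro x hx
    constructor
    · show (t - s) / ε - δ < (x - s) / ε
      rw [div_sub' hε.ne', div_lt_div_iff_of_pos_right hε]
      linarith [hx.1]
    · show (x - s) / ε < (t - s) / ε + δ
      rw [div_add' _ _ _ hε.ne', div_lt_div_iff_of_pos_right hε]
      linarith [hx.2]
  have h3 : ContDiffOn ℝ (⊤ : ℕ∞) (fun t : ℝ => ε • ρ ((t - s) / ε))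
      (Ioo (t - ε * δ) (t + ε * δ)) := (h.comp h1 h2).const_smul ε
  exact contDiffOn_const.add h3

/-- the affine map -/
private def DTriLoc_A {V : Type*} [NormedAddCommGroup V] [NormedSpace ℝ V] (s ε : ℝ) (c : V)
    (z : ℝ × V) : ℝ × V := (s + ε * z.1, c + ε • z.2)

private theorem DTriLoc_Aa {V : Type*} [NormedAddCommGroup V] [NormedSpace ℝ V] (s ε : ℝ) (c : V)
    (z : ℝ × V) : AnalyticAt ℝ (DTriLoc_A s ε c) z :=
  (analyticAt_const.add (analyticAt_const.mul analyticAt_fst)).prod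
    (analyticAt_const.add (analyticAt_snd.const_smul (c := ε)))

private theorem DTriLoc_Ab {V : Type*} [NormedAddCommGroup V] [NormedSpace ℝ V] {s ε ρ t₀ : ℝ}
    (c : V) (hε : 0 < ε) (hε2 : 16 * ε ≤ ρ) (hs : |s - t₀| < ε) (z : ℝ × V) (hz : ‖z‖ < 10) :
    DTriLoc_A s ε c z ∈ Metric.ball ((t₀, c) : ℝ × V) ρ := by
  rw [Metric.mem_ball, Prod.dist_eq]
  have h1 : |z.1| ≤ ‖z‖ := norm_fst_le z
  have h2 : ‖z.2‖ ≤ ‖z‖ := norm_snd_le z
  apply max_lt
  · show dist (s + ε * z.1) t₀ < ρ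
    rw [Real.dist_eq]
    have h3 : |s + ε * z.1 - t₀| ≤ |s - t₀| + ε * |z.1| := by
      have : s + ε * z.1 - t₀ = (s - t₀) + ε * z.1 := by ring
      rw [this]
      refine (abs_add_le _ _).trans ?_
      rw [abs_mul, abs_of_pos hε]
    nlinarith
  · show dist (c + ε • z.2) c < ρ
    rw [dist_eq_norm, add_sub_cancel_left, norm_smul, Real.norm_eq_abs, abs_of_pos hε]
    nlinarith

/-- cutting off a triangular system which is analytic on the ball of radius 10 -/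
private theorem DTriLoc_tri {L : ℝ × ℝ × ℝ → ℝ} {B F G : ℝ × V3 → ℝ}
    (hL : ∀ z, ‖z‖ < 10 → AnalyticAt ℝ L z) (hB : ∀ z, ‖z‖ < 10 → AnalyticAt ℝ B z)
    (hF : ∀ z, ‖z‖ < 10 → AnalyticAt ℝ F z) (hG : ∀ z, ‖z‖ < 10 → AnalyticAt ℝ G z) :
    ∃ (L' : ℝ × ℝ × ℝ → ℝ) (B' F' G' : ℝ × V3 → ℝ) (M : ℝ), Env (FF L' B' F') (GG G') M ∧
      AnalyticOnNhd ℝ L' (Metric.ball 0 5) ∧ AnalyticOnNhd ℝ B' (Metric.ball 0 5) ∧
      AnalyticOnNhd ℝ F' (Metric.ball 0 5) ∧ AnalyticOnNhd ℝ G' (Metric.ball 0 5) ∧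
      (∀ z ∈ Metric.ball (0 : ℝ × V3) 5, FF L' B' F' z = FF L B F z) ∧
      ∀ z ∈ Metric.ball (0 : ℝ × V3) 5, GG G' z = GG G z := by
  obtain ⟨L', M₁, b1, a1, e1⟩ := DTriLoc_cut hL
  obtain ⟨B', M₂, b2, a2, e2⟩ := DTriLoc_cut hB
  obtain ⟨F', M₃, b3, a3, e3⟩ := DTriLoc_cut hF
  obtain ⟨G', M₄, b4, a4, e4⟩ := DTriLoc_cut hG
  set M : ℝ := 1 + M₁ + M₂ + M₃ + M₄ with hM
  have h1 := b1.1
  have h2 := b2.1
  have h3 := b3.1
  have h4 := b4.1
  let l : (ℝ × V3) →L[ℝ] (ℝ × ℝ × ℝ) :=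
    (ContinuousLinearMap.fst ℝ ℝ V3).prod
      (((ContinuousLinearMap.fst ℝ ℝ (ℝ × ℝ)).comp (ContinuousLinearMap.snd ℝ ℝ V3)).prod
        (((ContinuousLinearMap.fst ℝ ℝ ℝ).comp (ContinuousLinearMap.snd ℝ ℝ (ℝ × ℝ))).comp
          (ContinuousLinearMap.snd ℝ ℝ V3)))
  have hlz : ∀ x, ‖l x‖ ≤ ‖x‖ := by
    intro x
    have e : l x = (x.1, x.2.1, x.2.2.1) := rfl
    rw [e]
    simp only [Prod.norm_def]
    refine max_le (le_max_left _ _) (max_le ?_ ?_)
    · exact (le_max_left _ _).trans (le_max_right _ _)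
    · exact ((le_max_left _ _).trans (le_max_right _ _)).trans (le_max_right _ _)
  have hl : ‖l‖ ≤ 1 := by
    refine ContinuousLinearMap.opNorm_le_bound _ zero_le_one fun x => ?_
    rw [one_mul]
    exact hlz x
  have bF : TT.Bd M (FF L' B' F') :=
    ((b1.mono (by linarith)).comp_clm l hl).prodMk
      ((b2.mono (by linarith)).prodMk (b3.mono (by linarith)))
  have bG : TT.Bd M (GG G') :=
    (TT.bd_zero.mono (by linarith)).prodMk
      ((TT.bd_zero.mono (by linarith)).prodMk (b4.mono (by linarith)))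
  refine ⟨L', B', F', G', M, ⟨by linarith, bF.2.1, bG.2.1, bF.2.2.1, bG.2.2.1, bF.2.2.2.1,
    bG.2.2.2.1, bF.2.2.2.2, bG.2.2.2.2⟩, a1, a2, a3, a4, ?_, ?_⟩
  · intro z hz
    have hz' : l z ∈ Metric.ball (0 : ℝ × ℝ × ℝ) 5 := by
      rw [mem_ball_zero_iff] at hz ⊢
      exact (hlz z).trans_lt hz
    have h5 : L' (z.1, z.2.1, z.2.2.1) = L (z.1, z.2.1, z.2.2.1) := e1 _ hz'
    unfold FF
    rw [h5, e2 z hz, e3 z hz]
  · intro z hz
    unfold GG
    rw [e4 z hz]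

theorem tri_lrep {L : ℝ × ℝ × ℝ → ℝ} {B F G : ℝ × V3 → ℝ} {u : ℝ → ℝ} {r : ℝ → V3} {t₀ : ℝ}
    (hu : Adm u) (hL : AnalyticAt ℝ L (t₀, (r t₀).1, (r t₀).2.1)) (hB : AnalyticAt ℝ B (t₀, r t₀))
    (hF : AnalyticAt ℝ F (t₀, r t₀)) (hG : AnalyticAt ℝ G (t₀, r t₀))
    (hr : LTraj (FF L B F) (GG G) u r t₀) : LRep (FF L B F) (GG G) r t₀ := by
  intro κ hκ
  obtain ⟨ε₀, hε₀, hrc₀, hreq₀⟩ := hr
  set c : V3 := r t₀ with hc
  obtain ⟨ρ₁, hρ₁, hball₁⟩ := Metric.eventually_nhds_iff_ball.1 hL.eventually_analyticAt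
  obtain ⟨ρ₂, hρ₂, hball₂⟩ := Metric.eventually_nhds_iff_ball.1
    (hB.eventually_analyticAt.and (hF.eventually_analyticAt.and hG.eventually_analyticAt))
  set ρ : ℝ := min ρ₁ ρ₂ with hρd
  have hρ : 0 < ρ := lt_min hρ₁ hρ₂
  have hρ1 : ρ ≤ ρ₁ := min_le_left _ _
  have hρ2 : ρ ≤ ρ₂ := min_le_right _ _
  set ε : ℝ := min (κ / 2) (ρ / 16) with hεd
  have hε : 0 < ε := by positivity
  have hε1 : 2 * ε ≤ κ := by
    have := min_le_left (κ / 2) (ρ / 16)
    linarith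
  have hε2 : 16 * ε ≤ ρ := by
    have := min_le_right (κ / 2) (ρ / 16)
    linarith
  have hct : ContinuousAt r t₀ :=
    hrc₀.continuousAt (Ioo_mem_nhds (by linarith) (by linarith))
  obtain ⟨δ₁, hδ₁, hclose⟩ := Metric.continuousAt_iff.1 hct ε hε
  refine ⟨min ε (min ε₀ δ₁), lt_min hε (lt_min hε₀ hδ₁), ?_⟩
  intro s s' hss hs0 hs0'
  have hs : |s - t₀| < ε := hs0.trans_le (min_le_left _ _)
  have hs' : |s' - t₀| < ε := hs0'.trans_le (min_le_left _ _)
  have hse : |s - t₀| < ε₀ := hs0.trans_le ((min_le_right _ _).trans (min_le_left _ _))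
  have hse' : |s' - t₀| < ε₀ := hs0'.trans_le ((min_le_right _ _).trans (min_le_left _ _))
  have hsd : |s - t₀| < δ₁ := hs0.trans_le ((min_le_right _ _).trans (min_le_right _ _))
  have hsd' : |s' - t₀| < δ₁ := hs0'.trans_le ((min_le_right _ _).trans (min_le_right _ _))
  have hin : ∀ t ∈ Icc s s', t ∈ Ioo (t₀ - ε₀) (t₀ + ε₀) := by
    intro t ht
    have h1 := (abs_lt.1 hse).1
    have h2 := (abs_lt.1 hse').2
    exact ⟨by linarith [ht.1], by linarith [ht.2]⟩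
  have hrc : ContinuousOn r (Icc s s') := hrc₀.mono hin
  have hrb : ∀ t ∈ Icc s s', ‖r t - c‖ ≤ ε := by
    intro t ht
    have h1 : dist t t₀ < δ₁ := by
      rw [Real.dist_eq, abs_lt]
      have h2 := (abs_lt.1 hsd).1
      have h3 := (abs_lt.1 hsd').2
      exact ⟨by linarith [ht.1], by linarith [ht.2]⟩
    have h2 := hclose h1
    rw [dist_eq_norm] at h2
    exact h2.le
  have hreq : ∀ t ∈ Icc s s', r t = r s +
      ∫ τ in s..t, (FF L B F (τ, r τ) + u τ • GG G (τ, r τ)) := by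
    intro t ht
    have h1 := hreq₀ s (hin s ⟨le_rfl, hss.le⟩) t (hin t ht)
    rw [← h1]
    abel
  -- the rescaled fields
  have hAb2 : ∀ z : ℝ × V3, ‖z‖ < 10 → DTriLoc_A s ε c z ∈ Metric.ball ((t₀, c) : ℝ × V3) ρ₂ :=
    fun z hz => Metric.ball_subset_ball hρ2 (DTriLoc_Ab c hε hε2 hs z hz)
  have hAb1 : ∀ z : ℝ × ℝ × ℝ, ‖z‖ < 10 →
      DTriLoc_A s ε ((c.1, c.2.1) : ℝ × ℝ) z ∈ Metric.ball ((t₀, c.1, c.2.1) : ℝ × ℝ × ℝ) ρ₁ :=
    fun z hz => Metric.ball_subset_ball hρ1 (DTriLoc_Ab ((c.1, c.2.1) : ℝ × ℝ) hε hε2 hs z hz)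
  obtain ⟨L', B', F', G', M, hE, La, Ba, Fa, Ga, Fe, Ge⟩ := DTriLoc_tri
    (L := fun z => L (DTriLoc_A s ε ((c.1, c.2.1) : ℝ × ℝ) z))
    (B := fun z => B (DTriLoc_A s ε c z)) (F := fun z => F (DTriLoc_A s ε c z))
    (G := fun z => G (DTriLoc_A s ε c z))
    (fun z hz => (hball₁ _ (hAb1 z hz)).comp (DTriLoc_Aa s ε _ z))
    (fun z hz => (hball₂ _ (hAb2 z hz)).1.comp (DTriLoc_Aa s ε _ z))
    (fun z hz => (hball₂ _ (hAb2 z hz)).2.1.comp (DTriLoc_Aa s ε _ z))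
    (fun z hz => (hball₂ _ (hAb2 z hz)).2.2.comp (DTriLoc_Aa s ε _ z))
  have Fe' : ∀ z ∈ Metric.ball (0 : ℝ × V3) 5, FF L' B' F' z = FF L B F (s + ε * z.1, c + ε • z.2) :=
    fun z hz => Fe z hz
  have Ge' : ∀ z ∈ Metric.ball (0 : ℝ × V3) 5, GG G' z = GG G (s + ε * z.1, c + ε • z.2) :=
    fun z hz => Ge z hz
  set T : ℝ := (s' - s) / ε with hT
  have hT0 : 0 < T := div_pos (by linarith) hε
  have hT2 : T < 2 := by
    rw [hT, div_lt_iff₀ hε]
    have h1 := (abs_lt.1 hs).1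
    have h2 := (abs_lt.1 hs').2
    linarith
  have hεT : ε * T = s' - s := by
    rw [hT]
    field_simp
  -- the rescaled trajectory
  set q : ℝ → V3 := fun τ => ε⁻¹ • (r (s + ε * τ) - c) with hq
  have hmem : ∀ τ ∈ Icc 0 T, s + ε * τ ∈ Icc s s' := by
    intro τ hτ
    constructor
    · have := mul_nonneg hε.le hτ.1
      linarith
    · have := mul_le_mul_of_nonneg_left hτ.2 hε.le
      linarith
  have hqr : ∀ τ, c + ε • q τ = r (s + ε * τ) := by
    intro τ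
    rw [hq]
    show c + ε • ε⁻¹ • (r (s + ε * τ) - c) = _
    rw [smul_inv_smul₀ hε.ne']
    abel
  have hqb : ∀ τ ∈ Icc 0 T, ‖q τ‖ ≤ 1 := by
    intro τ hτ
    rw [hq]
    show ‖ε⁻¹ • (r (s + ε * τ) - c)‖ ≤ 1
    rw [norm_smul, norm_inv, Real.norm_eq_abs, abs_of_pos hε, inv_mul_le_iff₀ hε, mul_one]
    exact hrb _ (hmem τ hτ)
  have hbox2 : ∀ (p : ℝ → V3) (τ : ℝ), τ ∈ Icc 0 T → ‖p τ‖ ≤ 2 → ‖((τ, p τ) : ℝ × V3)‖ ≤ 2 := by
    intro p τ hτ hp
    rw [Prod.norm_def]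
    refine max_le ?_ hp
    show ‖τ‖ ≤ 2
    rw [Real.norm_eq_abs, abs_of_nonneg hτ.1]
    linarith [hτ.2]
  have hbox : ∀ (p : ℝ → V3) (τ : ℝ), τ ∈ Icc 0 T → ‖p τ‖ ≤ 2 →
      ((τ, p τ) : ℝ × V3) ∈ Metric.ball (0 : ℝ × V3) 5 := by
    intro p τ hτ hp
    rw [mem_ball_zero_iff]
    have := hbox2 p τ hτ hp
    linarith
  have hqc : ContinuousOn q (Icc 0 T) := by
    have h1 : ContinuousOn (fun τ : ℝ => s + ε * τ) (Icc 0 T) := by fun_prop
    have h2 : ContinuousOn (fun τ : ℝ => r (s + ε * τ)) (Icc 0 T) :=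
      hrc.comp h1 (fun τ hτ => hmem τ hτ)
    have h3 : ContinuousOn (fun τ : ℝ => r (s + ε * τ) - c) (Icc 0 T) := h2.sub continuousOn_const
    exact h3.const_smul ε⁻¹
  have hûm : Adm (fun τ => u (s + ε * τ)) :=
    ⟨hu.1.comp (by fun_prop), fun τ => hu.2 _⟩
  have hsol : Sol (FF L' B' F') (GG G') (fun τ => u (s + ε * τ)) q 0 T := by
    refine ⟨hqc, fun τ hτ => ?_⟩
    have h1 := hreq _ (hmem τ hτ)
    have h2 := intervalIntegral.smul_integral_comp_add_mul (a := 0) (b := τ)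
      (fun x => FF L B F (x, r x) + u x • GG G (x, r x)) ε s
    rw [mul_zero, add_zero] at h2
    have h3 : (∫ x in (0 : ℝ)..τ, (FF L B F (s + ε * x, r (s + ε * x)) +
        u (s + ε * x) • GG G (s + ε * x, r (s + ε * x)))) =
        ∫ x in (0 : ℝ)..τ, (FF L' B' F' (x, q x) + u (s + ε * x) • GG G' (x, q x)) := by
      apply intervalIntegral.integral_congr
      intro x hx
      rw [uIcc_of_le hτ.1] at hx
      have hxT : x ∈ Icc 0 T := ⟨hx.1, hx.2.trans hτ.2⟩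
      have hb := hbox q x hxT ((hqb x hxT).trans (by norm_num))
      show _ = FF L' B' F' (x, q x) + u (s + ε * x) • GG G' (x, q x)
      rw [Fe' _ hb, Ge' _ hb]
      show _ = FF L B F (s + ε * x, c + ε • q x) + u (s + ε * x) • GG G (s + ε * x, c + ε • q x)
      rw [hqr]
    rw [← h3]
    show ε⁻¹ • (r (s + ε * τ) - c) = ε⁻¹ • (r (s + ε * 0) - c) + _
    rw [h1, ← h2, mul_zero, add_zero]
    have h4 : r s + ε • (∫ x in (0 : ℝ)..τ, (FF L B F (s + ε * x, r (s + ε * x)) +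
        u (s + ε * x) • GG G (s + ε * x, r (s + ε * x)))) - c = (r s - c) +
        ε • (∫ x in (0 : ℝ)..τ, (FF L B F (s + ε * x, r (s + ε * x)) +
        u (s + ε * x) • GG G (s + ε * x, r (s + ε * x)))) := by abel
    rw [h4, smul_add, inv_smul_smul₀ hε.ne']
  have htr : TT.TS L' B' F' G' 5 M T (fun τ => u (s + ε * τ)) q :=
    ⟨⟨hE, hT0, hûm, hsol⟩, La, Ba, Fa, Ga, fun τ hτ => by
      have := hbox2 q τ hτ ((hqb τ hτ).trans (by norm_num))
      linarith⟩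
  obtain ⟨v, p, hv, hp, hp0, hpT, hpq, hcount⟩ := TT.replace htr
  have hpb : ∀ τ ∈ Icc 0 T, ‖p τ‖ ≤ 2 := by
    intro τ hτ
    have h1 : p τ = (p τ - q τ) + q τ := by abel
    rw [h1]
    refine (norm_add_le _ _).trans ?_
    have := hpq τ hτ
    have := hqb τ hτ
    linarith
  have hmem' : ∀ t ∈ Icc s s', (t - s) / ε ∈ Icc 0 T := by
    intro t ht
    refine ⟨div_nonneg (by linarith [ht.1]) hε.le, ?_⟩
    rw [hT, div_le_div_iff_of_pos_right hε]
    linarith [ht.2]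
  have hback : ∀ t : ℝ, s + ε * ((t - s) / ε) = t := by
    intro t
    field_simp
    ring
  have hfor : ∀ x : ℝ, (s + ε * x - s) / ε = x := by
    intro x
    field_simp
    ring
  refine ⟨fun t => v ((t - s) / ε), fun t => c + ε • p ((t - s) / ε), ⟨hv.1.comp (by fun_prop), fun t => hv.2 _⟩, ?_, ?_, ?_, ?_, ?_, ?_⟩
  · have h1 : ContinuousOn (fun t : ℝ => (t - s) / ε) (Icc s s') := by fun_prop
    have h2 : ContinuousOn (fun t : ℝ => p ((t - s) / ε)) (Icc s s') :=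
      hp.cont.comp h1 (fun t ht => hmem' t ht)
    have h3 : ContinuousOn (fun t : ℝ => ε • p ((t - s) / ε)) (Icc s s') := h2.const_smul ε
    exact continuousOn_const.add h3
  · show c + ε • p ((s - s) / ε) = r s
    rw [sub_self, zero_div, hp0, hqr, mul_zero, add_zero]
  · show c + ε • p ((s' - s) / ε) = r s'
    rw [← hT, hpT, hqr, hεT]
    congr 1
    ring
  · intro t ht
    show ‖c + ε • p ((t - s) / ε) - c‖ ≤ κ
    rw [add_sub_cancel_left, norm_smul, Real.norm_eq_abs, abs_of_pos hε]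
    have := hpb _ (hmem' t ht)
    nlinarith
  · intro t ht
    set τ : ℝ := (t - s) / ε with hτd
    have hτ : τ ∈ Icc 0 T := hmem' t ht
    have h1 := hp.eq τ hτ
    have h2 := intervalIntegral.smul_integral_comp_add_mul (a := 0) (b := τ)
      (fun x => FF L B F (x, c + ε • p ((x - s) / ε)) + v ((x - s) / ε) • GG G (x, c + ε • p ((x - s) / ε))) ε s
    rw [mul_zero, add_zero, hτd, hback t, ← hτd] at h2
    show c + ε • p τ = c + ε • p ((s - s) / ε) +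
      ∫ x in s..t, (FF L B F (x, c + ε • p ((x - s) / ε)) + v ((x - s) / ε) • GG G (x, c + ε • p ((x - s) / ε)))
    rw [← h2, sub_self, zero_div, add_assoc, ← smul_add, h1]
    congr 3
    apply intervalIntegral.integral_congr
    intro x hx
    rw [uIcc_of_le hτ.1] at hx
    have hxT : x ∈ Icc 0 T := ⟨hx.1, hx.2.trans hτ.2⟩
    have hb := hbox p x hxT (hpb x hxT)
    show FF L' B' F' (x, p x) + v x • GG G' (x, p x) = FF L B F (s + ε * x, c + ε • p ((s + ε * x - s) / ε)) +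
      v ((s + ε * x - s) / ε) • GG G (s + ε * x, c + ε • p ((s + ε * x - s) / ε))
    rw [Fe' _ hb, Ge' _ hb, hfor]
  · refine (hcount.image (fun x => s + ε * x)).mono ?_
    rintro t ⟨ht, hn⟩
    refine ⟨(t - s) / ε, ⟨⟨div_pos (by linarith [ht.1]) hε, ?_⟩, fun h => hn (DTriLoc_sm hε h)⟩, hback t⟩
    rw [hT, div_lt_div_iff_of_pos_right hε]
    linarith [ht.2]

end Pool.Agent.Lib.MP_28b8de_an.DD
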