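import Pool.Agent.Lib.MP_28b8de_an.D.DDefs
import Pool.Agent.Lib.MP_28b8de_an.T.TOdeAn

/-!
MP_28b8de_an, module DZ.

Analytic curves and flat sets.
PROOFS.  ode_ex: Mathlib's Picard-Lindelöf for the autonomous field (t,y) ↦ (1, H (t,y)) on ℝ × E (`ContDiffAt.exists_forall_hasDerivAt_Ioo_eq_of_contDiffAt` / `exists_forall_mem_closedBall_exists_eq_forall_mem_Ioo_hasDerivAt`..):
the first component of the solution is t; γ := second component; analytic by `TT.ode_an`.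
zcurve: for an analytic b on U (valued in E') put D b z := fderiv ℝ b z (1, H z), analytic on U.  If b (t, y t) = 0 for all t ∈ C, |t - t₀| < ε, then the same holds for D b: t ∈ C is an accumulation point of C (Perf.acc), s ↦ b (s, y s) vanishes on C near t
and has derivative D b (t, y t) at t (chain rule), so it is 0 (compare `TT.der_zero`).  Hence D^[i] a (t₀, y t₀) = 0 for all i.  g t := a (t, γ t) is analytic on Ioo b c (γ is analytic there by ode_an), with i-th derivative D^[i] a (t, γ t);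
all derivatives vanish at t₀, so g = 0 near t₀ and on Ioo b c by the identity theorem (see `TT.slice_zero` in T/TDn.lean for this one variable argument).
-/

set_option linter.unusedSectionVars false

namespace Pool.Agent.Lib.MP_28b8de_an.DD

open Filter Topology Set MeasureTheory
open Pool.Agent.Lib.MP_28b8de_an.PT (Adm Perf)
open Pool.Agent.Lib.MP_28b8de_an.TT (Env Sol Jn Tr SmAt Goal W dx Dn V3 FF GG)

private theorem DZ_uniq {T : ℝ} {C : Set ℝ} (hC : Perf T C) {t : ℝ} (ht : t ∈ C) : UniqueDiffWithinAt ℝ C t := by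
  rw [uniqueDiffWithinAt_iff_accPt, accPt_iff_frequently, frequently_iff]
  intro U hU
  obtain ⟨ε, hε, hεU⟩ := Metric.mem_nhds_iff.1 hU
  obtain ⟨s, hs, hst, hsd⟩ := hC.acc t ht ε hε
  exact ⟨s, hεU (by rw [Metric.mem_ball, Real.dist_eq]; exact hsd), hst, hs⟩

private theorem DZ_der {E' : Type*} [NormedAddCommGroup E'] [NormedSpace ℝ E'] {T : ℝ} {C : Set ℝ} (hC : Perf T C)
    {t : ℝ} (ht : t ∈ C) {f : ℝ → E'} {d : E'} (hf : HasDerivAt f d t) (h : ∀ᶠ s in 𝓝 t, s ∈ C → f s = 0) : d = 0 := by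
  have h0 : f t = 0 := h.self_of_nhds ht
  have h1 : HasDerivWithinAt f 0 C t := by
    refine (hasDerivWithinAt_const t C (0 : E')).congr_of_eventuallyEq ?_ h0
    exact eventually_nhdsWithin_iff.2 h
  exact (DZ_uniq hC ht).eq_deriv _ hf.hasDerivWithinAt h1

/-- derivative along the field `(1, H)` -/
private noncomputable def DZ_D {E E' : Type*} [NormedAddCommGroup E] [NormedSpace ℝ E] [NormedAddCommGroup E']
    [NormedSpace ℝ E'] (H : ℝ × E → E) (b : ℝ × E → E') (z : ℝ × E) : E' := fderiv ℝ b z (1, H z)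

private theorem DZ_an {E E' : Type*} [NormedAddCommGroup E] [NormedSpace ℝ E] [NormedAddCommGroup E']
    [NormedSpace ℝ E'] [CompleteSpace E'] {U : Set (ℝ × E)} {H : ℝ × E → E} {a : ℝ × E → E'}
    (hH : AnalyticOnNhd ℝ H U) (ha : AnalyticOnNhd ℝ a U) (i : ℕ) : AnalyticOnNhd ℝ ((DZ_D H)^[i] a) U := by
  induction i with
  | zero => exact ha
  | succ i ih =>
    rw [Function.iterate_succ_apply']
    intro z hz
    have h1 : AnalyticAt ℝ (fderiv ℝ ((DZ_D H)^[i] a)) z := (ih z hz).fderiv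
    have h2 : AnalyticAt ℝ (fun z : ℝ × E => ((1 : ℝ), H z)) z := analyticAt_const.prod (hH z hz)
    have h3 : AnalyticAt ℝ (fun q : ((ℝ × E) →L[ℝ] E') × (ℝ × E) =>
        (ContinuousLinearMap.id ℝ ((ℝ × E) →L[ℝ] E')) q.1 q.2)
        (fderiv ℝ ((DZ_D H)^[i] a) z, ((1 : ℝ), H z)) := ContinuousLinearMap.analyticAt_bilinear _ _
    exact AnalyticAt.comp (f := fun z : ℝ × E => (fderiv ℝ ((DZ_D H)^[i] a) z, ((1 : ℝ), H z))) h3 (h1.prod h2)

private theorem DZ_chain {E E' : Type*} [NormedAddCommGroup E] [NormedSpace ℝ E] [NormedAddCommGroup E']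
    [NormedSpace ℝ E'] {H : ℝ × E → E} {b : ℝ × E → E'} {y : ℝ → E} {t : ℝ}
    (hb : DifferentiableAt ℝ b (t, y t)) (hy : HasDerivAt y (H (t, y t)) t) :
    HasDerivAt (fun s => b (s, y s)) (DZ_D H b (t, y t)) t := by
  have h1 : HasFDerivAt b (fderiv ℝ b (t, y t)) (t, y t) := hb.hasFDerivAt
  have h2 : HasDerivAt (fun r : ℝ => (r, y r)) ((1 : ℝ), H (t, y t)) t := (hasDerivAt_id t).prodMk hy
  exact h1.comp_hasDerivAt t h2

private theorem DZ_iter {E E' : Type*} [NormedAddCommGroup E] [NormedSpace ℝ E] [NormedAddCommGroup E']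
    [NormedSpace ℝ E'] [CompleteSpace E'] {U : Set (ℝ × E)} {H : ℝ × E → E} {a : ℝ × E → E'}
    (hH : AnalyticOnNhd ℝ H U) (ha : AnalyticOnNhd ℝ a U) {γ : ℝ → E} {b c : ℝ}
    (hγ : ∀ t ∈ Ioo b c, (t, γ t) ∈ U ∧ HasDerivAt γ (H (t, γ t)) t) (i : ℕ) :
    ∀ t ∈ Ioo b c, iteratedDeriv i (fun s => a (s, γ s)) t = ((DZ_D H)^[i] a) (t, γ t) := by
  induction i with
  | zero =>
    intro t _
    simp
  | succ i ih =>
    intro t ht
    rw [iteratedDeriv_succ, Function.iterate_succ_apply']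
    have h1 : iteratedDeriv i (fun s => a (s, γ s)) =ᶠ[𝓝 t] fun s => ((DZ_D H)^[i] a) (s, γ s) := by
      filter_upwards [isOpen_Ioo.mem_nhds ht] with s hs
      exact ih s hs
    rw [h1.deriv_eq]
    exact (DZ_chain (DZ_an hH ha i _ (hγ t ht).1).differentiableAt (hγ t ht).2).deriv

theorem ode_ex {E : Type*} [NormedAddCommGroup E] [NormedSpace ℝ E] [CompleteSpace E]
    {H : ℝ × E → E} {t₀ : ℝ} {y₀ : E} (hH : AnalyticAt ℝ H (t₀, y₀)) :
    ∃ γ : ℝ → E, AnalyticAt ℝ γ t₀ ∧ γ t₀ = y₀ ∧ ∀ᶠ t in 𝓝 t₀, HasDerivAt γ (H (t, γ t)) t := by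
  have hc : ContDiffAt ℝ 1 (fun p : ℝ × E => ((1 : ℝ), H p)) (t₀, y₀) :=
    (analyticAt_const.prod hH).contDiffAt
  obtain ⟨α, hα0, ε, hε, hα⟩ := hc.exists_forall_mem_closedBall_exists_eq_forall_mem_Ioo_hasDerivAt₀ t₀
  have h1 : ∀ t ∈ Ioo (t₀ - ε) (t₀ + ε), HasDerivAt (fun t => (α t).1) 1 t := fun t ht =>
    (ContinuousLinearMap.fst ℝ ℝ E).hasFDerivAt.comp_hasDerivAt t (hα t ht)
  have h2 : ∀ t ∈ Ioo (t₀ - ε) (t₀ + ε), HasDerivAt (fun t => (α t).2) (H (α t)) t := fun t ht =>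
    (ContinuousLinearMap.snd ℝ ℝ E).hasFDerivAt.comp_hasDerivAt t (hα t ht)
  have ht0 : t₀ ∈ Ioo (t₀ - ε) (t₀ + ε) := ⟨by linarith, by linarith⟩
  have h3 : ∀ t ∈ Ioo (t₀ - ε) (t₀ + ε), (α t).1 = t := by
    intro t ht
    have h4 : ∀ s ∈ Ioo (t₀ - ε) (t₀ + ε), HasDerivAt (fun t => (α t).1 - t) 0 s := fun s hs => by
      have := (h1 s hs).sub (hasDerivAt_id s)
      rwa [sub_self] at this
    have h5 := isOpen_Ioo.is_const_of_deriv_eq_zero isPreconnected_Ioo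
      (fun s hs => (h4 s hs).differentiableAt.differentiableWithinAt) (fun s hs => (h4 s hs).deriv) ht ht0
    have h6 : (α t).1 - t = (α t₀).1 - t₀ := h5
    rw [hα0] at h6
    simp only [sub_self] at h6
    linarith
  have h4 : ∀ᶠ t in 𝓝 t₀, HasDerivAt (fun t => (α t).2) (H (t, (α t).2)) t := by
    filter_upwards [isOpen_Ioo.mem_nhds ht0] with t ht
    have h5 := h2 t ht
    have h6 : α t = (t, (α t).2) := Prod.ext (h3 t ht) rfl
    rwa [h6] at h5
  have h7 : (α t₀).2 = y₀ := by rw [hα0]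
  refine ⟨fun t => (α t).2, ?_, h7, h4⟩
  refine TT.ode_an (Φ := H) ?_ h4
  show AnalyticAt ℝ H (t₀, (α t₀).2)
  rw [h7]
  exact hH

theorem zcurve {E E' : Type*} [NormedAddCommGroup E] [NormedSpace ℝ E] [CompleteSpace E]
    [NormedAddCommGroup E'] [NormedSpace ℝ E'] [CompleteSpace E'] {U : Set (ℝ × E)} (hU : IsOpen U)
    {H : ℝ × E → E} {a : ℝ × E → E'} (hH : AnalyticOnNhd ℝ H U) (ha : AnalyticOnNhd ℝ a U)
    {T : ℝ} {C : Set ℝ} (hC : Perf T C) {t₀ : ℝ} (ht₀ : t₀ ∈ C) {ε : ℝ} (hε : 0 < ε) {y : ℝ → E}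
    (hy : ∀ t ∈ C, |t - t₀| < ε → (t, y t) ∈ U ∧ HasDerivAt y (H (t, y t)) t ∧ a (t, y t) = 0)
    {γ : ℝ → E} {b c : ℝ} (hbc : t₀ ∈ Ioo b c)
    (hγ : ∀ t ∈ Ioo b c, (t, γ t) ∈ U ∧ HasDerivAt γ (H (t, γ t)) t) (h0 : γ t₀ = y t₀) :
    ∀ t ∈ Ioo b c, a (t, γ t) = 0 := by
  have hz : ∀ i : ℕ, ∀ t ∈ C, |t - t₀| < ε → ((DZ_D H)^[i] a) (t, y t) = 0 := by
    intro i
    induction i with
    | zero => exact fun t ht h => (hy t ht h).2.2
    | succ i ih =>
      intro t ht h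
      rw [Function.iterate_succ_apply']
      refine DZ_der hC ht (DZ_chain (DZ_an hH ha i _ (hy t ht h).1).differentiableAt (hy t ht h).2.1) ?_
      have h1 : ∀ᶠ s in 𝓝 t, |s - t₀| < ε :=
        (continuous_abs.comp (continuous_id.sub continuous_const)).continuousAt.eventually_lt continuousAt_const h
      exact h1.mono fun s hs hsC => ih s hsC hs
  have hg : AnalyticOnNhd ℝ (fun s => a (s, γ s)) (Ioo b c) := by
    intro t ht
    have h1 : AnalyticAt ℝ γ t := by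
      refine TT.ode_an (hH _ (hγ t ht).1) ?_
      filter_upwards [isOpen_Ioo.mem_nhds ht] with s hs
      exact (hγ s hs).2
    have h2 : AnalyticAt ℝ (fun s : ℝ => (s, γ s)) t := analyticAt_id.prod h1
    exact AnalyticAt.comp (f := fun s : ℝ => (s, γ s)) (ha _ (hγ t ht).1) h2
  have hord : analyticOrderAt (fun s => a (s, γ s)) t₀ = ⊤ := by
    rw [ENat.eq_top_iff_forall_ge]
    intro m
    rw [natCast_le_analyticOrderAt_iff_iteratedDeriv_eq_zero (hg _ hbc)]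
    intro i _
    rw [DZ_iter hH ha hγ i t₀ hbc, h0]
    exact hz i t₀ ht₀ (by rwa [sub_self, abs_zero])
  rw [analyticOrderAt_eq_top] at hord
  exact hg.eqOn_zero_of_preconnected_of_eventuallyEq_zero isPreconnected_Ioo hbc hord

end Pool.Agent.Lib.MP_28b8de_an.DD
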